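import Pool.Agent.LCK.Pair
import Pool.Agent.LCK.Out

set_option linter.all false

/-!
# GREEDY: many disjoint long cycles from a large minimum degree

If every vertex of a nonempty set `U` has at least `m r - 1` neighbours in `U`, then there are
`m` disjoint cycles of length at least `r` inside `U`.
-/

namespace Pool.Agent.FRC

open Pool.Agent.Helper14.LongCyc Pool.Agent.LCK

universe u

/-- minimum degree at least `r - 1` gives a cycle of length at least `r` -/
theorem greedy_one {V : Type u} [DecidableEq V] {G : SimpleGraph V} {r : ℕ} (hr : 3 ≤ r)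
    {U : Finset V} (hU : U.Nonempty) (hd : ∀ v ∈ U, r ≤ dg G U v + 1) :
    ∃ C : Finset V, CycSet G C ∧ C ⊆ U ∧ r ≤ C.card := by
  classical
  by_contra hcon
  push Not at hcon
  have hno : NoLong G r U := by
    intro l hl hm
    have hc := hcon l.toFinset (Cyc.cycSet hl) (by
      intro x hx
      exact hm x (List.mem_toFinset.1 hx))
    rw [List.toFinset_card_of_nodup (Cyc.nodup hl)] at hc
    exact hc
  obtain ⟨v, hv⟩ := hU
  obtain ⟨q, z, hq, hz, hza, hmax⟩ := extend (G := G) U _ [v] v v le_rfl (Pth.singleton v)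
  have hzB : z ∈ U := by
    rcases hza with h | h
    · rw [h]; exact hv
    · exact h
  have hin : ∀ x ∈ q ++ [v], x ∈ U := by
    intro x hx
    rw [List.mem_append, List.mem_singleton] at hx
    rcases hx with hx | hx
    · exact hq x hx
    · rw [hx]; exact hv
  have hform : ∃ t, q ++ [v] = z :: t := by
    have h1 := hz.2.2.1
    cases hl : q ++ [v] with
    | nil => rw [hl] at h1; simp at h1
    | cons x t =>
      rw [hl] at h1
      simp only [List.head?_cons, Option.some.injEq] at h1
      exact ⟨t, by rw [h1]⟩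
  obtain ⟨t, ht⟩ := hform
  rw [ht] at hz hin hmax
  have hdeg := leaf_deg hr hno hz hin hmax
  have := hd z hzB
  omega

/-- a shortest cycle of length at least `r` inside `U` -/
theorem exists_shortest {V : Type u} {G : SimpleGraph V} {r : ℕ} {U C : Finset V}
    (hC : CycSet G C) (hCU : C ⊆ U) (hCr : r ≤ C.card) :
    ∃ C : Finset V, CycSet G C ∧ C ⊆ U ∧ r ≤ C.card ∧
      ∀ D, CycSet G D → D ⊆ U → r ≤ D.card → C.card ≤ D.card := by
  classical
  have hex : ∃ n, ∃ C : Finset V, CycSet G C ∧ C ⊆ U ∧ r ≤ C.card ∧ C.card = n :=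
    ⟨_, C, hC, hCU, hCr, rfl⟩
  obtain ⟨C', h1, h2, h3, h4⟩ := Nat.find_spec hex
  refine ⟨C', h1, h2, h3, fun D hD hDU hDr => ?_⟩
  rw [h4]
  exact Nat.find_min' hex ⟨D, hD, hDU, hDr, rfl⟩

/-- GREEDY: if every vertex of the nonempty set `U` has at least `m r - 1` neighbours in `U`,
then `U` contains `m` disjoint cycles of length at least `r` -/
theorem greedy_all {V : Type u} [DecidableEq V] {G : SimpleGraph V} {r : ℕ} (hr : 4 ≤ r) :
    ∀ (m : ℕ) (U : Finset V), U.Nonempty → (∀ v ∈ U, m * r ≤ dg G U v + 1) →
      ∃ F : Finset (Finset V), Fam G U (fun n => r ≤ n) F ∧ F.card = m := by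
  classical
  intro m
  induction m with
  | zero => exact fun U _ _ => ⟨∅, Fam.empty, rfl⟩
  | succ m ih =>
    intro U hU hd
    obtain ⟨C₀, h1, h2, h3⟩ := greedy_one (G := G) (by omega : 3 ≤ r) hU (fun v hv => by
      have := hd v hv
      rw [Nat.succ_mul] at this
      omega)
    obtain ⟨C, hC, hCU, hCr, hmin⟩ := exists_shortest h1 h2 h3
    rcases Nat.eq_zero_or_pos m with hm | hm
    · subst hm
      refine ⟨{C}, ⟨by simpa using hC, by simpa using hCU, by simpa using hCr, ?_⟩, by simp⟩
      intro s hs t ht hst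
      rw [Finset.mem_singleton] at hs ht
      exact absurd (hs.trans ht.symm) hst
    · -- the cycle `C` is not everything
      have hne : (U \ C).Nonempty := by
        rw [Finset.nonempty_iff_ne_empty]
        intro he
        rw [Finset.sdiff_eq_empty_iff_subset] at he
        have hUC : U = C := Finset.Subset.antisymm he hCU
        obtain ⟨v, hv⟩ := hU
        have hvC : v ∈ C := he hv
        have h4 := own_deg hr hC hCr (fun D hD hDC hDr => hmin D hD (hDC.trans hCU) hDr) hvC
        have h5 := hd v hv
        rw [hUC] at h5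
        have h6 : 1 * r ≤ m * r := Nat.mul_le_mul_right r hm
        rw [Nat.succ_mul] at h5
        omega
      have hd' : ∀ v ∈ U \ C, m * r ≤ dg G (U \ C) v + 1 := by
        intro v hv
        rw [Finset.mem_sdiff] at hv
        have h4 : dg G C v ≤ r := by
          rcases Nat.lt_or_ge r C.card with h | h
          · have := outside hr hC h hv.2 (fun D hD hDC hDr => hmin D hD (hDC.trans (by
              intro x hx
              rcases Finset.mem_insert.1 hx with hx | hx
              · rw [hx]; exact hv.1
              · exact hCU hx)) hDr)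
            omega
          · exact (dg_le C v).trans h
        have h5 := hd v hv.1
        have h6 := dg_split (G := G) hCU v
        rw [Nat.succ_mul] at h5
        omega
      obtain ⟨F, hF, hFc⟩ := ih (U \ C) hne hd'
      have hF' : Fam G U (fun n => r ≤ n) F := hF.mono Finset.sdiff_subset fun _ h => h
      obtain ⟨h7, h8⟩ := hF'.add hC (by
        intro x hx
        rw [mem_rest]
        refine ⟨hCU hx, fun s hs hxs => ?_⟩
        exact (Finset.mem_sdiff.1 (hF.sub s hs hxs)).2 hx) hCr
      exact ⟨_, h7, by rw [h8, hFc]⟩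

/-- ROW R3 -/
theorem greedy {V : Type u} [DecidableEq V] {G : SimpleGraph V} {r : ℕ} (hr : 4 ≤ r) (m : ℕ)
    {U : Finset V} (hU : U.Nonempty) (hdeg : ∀ v ∈ U, m * r ≤ dg G U v + 1) :
    ∃ F, Fam G U (fun L => r ≤ L) F ∧ F.card = m :=
  greedy_all hr m U hU hdeg

end Pool.Agent.FRC
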