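import Pool.Agent.Helper14.LongCyc.Glue
import Pool.Agent.LCK.Defs

set_option linter.all false

namespace Pool.Agent.FRC

open Pool.Agent.Helper14.LongCyc Pool.Agent.LCK

universe u

/-- many of the sets `N i` contain a common set of `q` elements -/
theorem conn_pig {V : Type u} [DecidableEq V] (L s M : ℕ) (hL : 1 ≤ L) (hs : 1 ≤ s) (hM : 1 ≤ M) :
    ∀ (q : ℕ) (R : Finset V) (N : ℕ → Finset V) (I : Finset ℕ), (∀ i ∈ I, N i ⊆ R) →
      (∀ i ∈ I, s + q ≤ (N i).card) → R.card ≤ L * s → L ^ q * M ≤ I.card →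
      ∃ S ⊆ R, S.card = q ∧ ∃ J ⊆ I, M ≤ J.card ∧ ∀ i ∈ J, S ⊆ N i := by
  intro q
  induction q with
  | zero =>
    intro R N I _ _ _ hI
    exact ⟨∅, Finset.empty_subset _, rfl, I, Finset.Subset.refl _, by simpa using hI,
      fun i _ => Finset.empty_subset _⟩
  | succ q ih =>
    intro R N I hN hc hR hI
    have hpos : 1 ≤ L ^ q * M := Nat.mul_pos (Nat.pow_pos hL) hM
    -- a popular element
    have hx : ∃ x ∈ R, L ^ q * M ≤ (I.filter fun i => x ∈ N i).card := by
      by_contra hcon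
      push Not at hcon
      have h1 : ∑ x ∈ R, (I.filter fun i => x ∈ N i).card = ∑ i ∈ I, (N i).card := by
        simp only [Finset.card_filter]
        rw [Finset.sum_comm]
        refine Finset.sum_congr rfl fun i hi => ?_
        rw [← Finset.card_filter, Finset.filter_mem_eq_inter, Finset.inter_eq_right.2 (hN i hi)]
      have h2 : ∑ x ∈ R, (I.filter fun i => x ∈ N i).card ≤ R.card * (L ^ q * M - 1) := by
        rw [← smul_eq_mul]
        refine Finset.sum_le_card_nsmul _ _ _ fun x hx => ?_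
        have := hcon x hx
        omega
      have h3 : I.card * (s + (q + 1)) ≤ ∑ i ∈ I, (N i).card := by
        rw [← smul_eq_mul]
        exact Finset.card_nsmul_le_sum _ _ _ fun i hi => hc i hi
      have h4 : L ^ (q + 1) * M * (s + (q + 1)) ≤ I.card * (s + (q + 1)) :=
        Nat.mul_le_mul_right _ hI
      have h5 : R.card * (L ^ q * M - 1) ≤ L * s * (L ^ q * M) :=
        Nat.mul_le_mul hR (Nat.sub_le _ _)
      have h6 : L ^ (q + 1) * M * (s + (q + 1)) = L * s * (L ^ q * M) +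
          L ^ (q + 1) * M * (q + 1) := by ring
      have h7 : 1 ≤ L ^ (q + 1) * M * (q + 1) :=
        Nat.mul_pos (Nat.mul_pos (Nat.pow_pos hL) hM) (Nat.succ_pos q)
      omega
    obtain ⟨x, hxR, hx⟩ := hx
    obtain ⟨S, hS1, hS2, J, hJ1, hJ2, hJ3⟩ := ih (R.erase x) (fun i => (N i).erase x)
      (I.filter fun i => x ∈ N i) (fun i hi => Finset.erase_subset_erase _
        (hN i (Finset.mem_filter.1 hi).1)) (fun i hi => by
          have h1 := hc i (Finset.mem_filter.1 hi).1
          have h2 := Finset.pred_card_le_card_erase (s := N i) (a := x)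
          omega) (le_trans (Finset.card_le_card (Finset.erase_subset _ _)) hR) hx
    have hxS : x ∉ S := fun h => Finset.notMem_erase x R (hS1 h)
    refine ⟨insert x S, ?_, ?_, J, hJ1.trans (Finset.filter_subset _ _), hJ2, ?_⟩
    · exact Finset.insert_subset hxR (hS1.trans (Finset.erase_subset _ _))
    · rw [Finset.card_insert_of_notMem hxS, hS2]
    · intro i hi
      exact Finset.insert_subset (Finset.mem_filter.1 (hJ1 hi)).2
        ((hJ3 i hi).trans (Finset.erase_subset _ _))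

/-- the number of paths used in `conn_aux` -/
def connD (k l K : ℕ) : ℕ := (20 * K) ^ (k * l) * ((20 * K) ^ (k * l) * (2 * (k * l)))

/-- the explicit form of row R11 -/
theorem conn_aux (k l K : ℕ) (hk : 1 ≤ k) (hl : 1 ≤ l) (hK : 1 ≤ K) {V : Type u} [DecidableEq V]
    (G : SimpleGraph V) (R W : Finset V) (r : ℕ) (hr : 90 * (k * l) + 18 ≤ r)
    (hRW : Disjoint R W) (hR : R.card ≤ K * r) (Q : ℕ → List V) (e f : ℕ → V)
    (hQ : ∀ i < connD k l K, Pth G (e i) (f i) (Q i) ∧ r ≤ l * ((Q i).length + 1) ∧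
      (∀ x ∈ Q i, x ∈ W) ∧ r ≤ 9 * dg G R (e i) ∧ r ≤ 9 * dg G R (f i))
    (hd : ∀ i < connD k l K, ∀ j < connD k l K, i ≠ j → ∀ x ∈ Q i, x ∉ Q j) :
    Packs G r k (R ∪ W) := by
  classical
  have hq : 1 ≤ k * l := Nat.mul_pos hk hl
  have hM : 1 ≤ 2 * (k * l) := by omega
  have hL : 1 ≤ 20 * K := by omega
  have hRL : R.card ≤ 20 * K * (r / 10) := by
    have h1 : r ≤ 20 * (r / 10) := by omega
    calc R.card ≤ K * r := hR
      _ ≤ K * (20 * (r / 10)) := Nat.mul_le_mul_left _ h1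
      _ = 20 * K * (r / 10) := by ring
  have hdeg : ∀ v : V, r ≤ 9 * dg G R v → r / 10 + k * l ≤ (R.filter fun u => G.Adj v u).card := by
    intro v hv
    rw [dg_eq_card] at hv
    omega
  -- the set of connectors adjacent to the first ends
  obtain ⟨S1, hS1, hS1c, J1, hJ1, hJ1c, hJ1S⟩ := conn_pig (V := V) (20 * K) (r / 10)
    ((20 * K) ^ (k * l) * (2 * (k * l))) hL (by omega) (Nat.mul_pos (Nat.pow_pos hL) hM) (k * l) R
    (fun i => R.filter fun u => G.Adj (e i) u) (Finset.range (connD k l K))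
    (fun i _ => Finset.filter_subset _ _)
    (fun i hi => hdeg _ (hQ i (Finset.mem_range.1 hi)).2.2.2.1) hRL (by
      rw [Finset.card_range]; exact le_of_eq rfl)
  obtain ⟨S2, hS2, hS2c, J2, hJ2, hJ2c, hJ2S⟩ := conn_pig (V := V) (20 * K) (r / 10)
    (2 * (k * l)) hL (by omega) hM (k * l) R
    (fun i => R.filter fun u => G.Adj (f i) u) J1
    (fun i _ => Finset.filter_subset _ _)
    (fun i hi => hdeg _ (hQ i (Finset.mem_range.1 (hJ1 hi))).2.2.2.2) hRL hJ1c
  obtain ⟨J, hJ, hJc⟩ := Finset.exists_subset_card_eq hJ2c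
  let g : Fin (2 * (k * l)) ≃ J := (finCongr hJc.symm).trans J.equivFin.symm
  let φ : ℕ → ℕ := fun i => if h : i < 2 * (k * l) then (g ⟨i, h⟩ : ℕ) else 0
  have hφ : ∀ i < 2 * (k * l), φ i ∈ J := by
    intro i hi
    simp only [φ, hi, dif_pos]
    exact (g ⟨i, hi⟩).2
  have hφi : ∀ i < 2 * (k * l), ∀ j < 2 * (k * l), φ i = φ j → i = j := by
    intro i hi j hj hij
    simp only [φ, hi, hj, dif_pos] at hij
    have := g.injective (Subtype.ext hij)
    simpa using this
  have hφD : ∀ i < 2 * (k * l), φ i < connD k l K := fun i hi =>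
    Finset.mem_range.1 (hJ1 (hJ2 (hJ (hφ i hi))))
  refine assemble (m := (r - 1) / l) (l := l) (k := k) (X := R) (S1 := S1) (S2 := S2) (by omega) hl
    ?_ Finset.subset_union_left hS1 hS2 hS1c.ge hS2c.ge (Q := fun i => Q (φ i))
    (e := fun i => e (φ i)) (f := fun i => f (φ i)) ?_ ?_
  · have := Nat.lt_mul_div_succ (r - 1) (show 0 < l by omega)
    omega
  · intro i hi
    obtain ⟨h1, h2, h3, h4, h5⟩ := hQ (φ i) (hφD i hi)
    refine ⟨h1, ?_, fun x hx => ⟨Finset.mem_union_right _ (h3 x hx), fun hxR =>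
      Finset.disjoint_left.1 hRW hxR (h3 x hx)⟩, fun x hx => ?_, fun x hx => ?_⟩
    · have h6 : (r - 1) / l < (Q (φ i)).length + 1 := by
        rw [Nat.div_lt_iff_lt_mul (by omega)]
        rw [mul_comm]
        omega
      omega
    · have := hJ1S (φ i) (hJ2 (hJ (hφ i hi))) hx
      exact (Finset.mem_filter.1 this).2.symm
    · have := hJ2S (φ i) (hJ (hφ i hi)) hx
      exact (Finset.mem_filter.1 this).2.symm
  · intro i hi j hj hij
    exact hd _ (hφD i hi) _ (hφD j hj) (fun h => hij (hφi i hi j hj h))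

/-- **ROW R11** : many disjoint paths whose ends have many neighbours in a small set are closed
to `k` disjoint long cycles -/
theorem conn (k l K : ℕ) (hk : 1 ≤ k) (hl : 1 ≤ l) : ∃ D r₀ : ℕ,
    ∀ {V : Type u} [DecidableEq V] (G : SimpleGraph V) (R W : Finset V) (r : ℕ), r₀ ≤ r →
      Disjoint R W → R.card ≤ K * r → ∀ (Q : ℕ → List V) (e f : ℕ → V),
      (∀ i < D, Pth G (e i) (f i) (Q i) ∧ r ≤ l * ((Q i).length + 1) ∧ (∀ x ∈ Q i, x ∈ W) ∧
        r ≤ 9 * dg G R (e i) ∧ r ≤ 9 * dg G R (f i)) →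
      (∀ i < D, ∀ j < D, i ≠ j → ∀ x ∈ Q i, x ∉ Q j) → Packs G r k (R ∪ W) := by
  refine ⟨connD k l (K + 1), 90 * (k * l) + 18, ?_⟩
  intro V _ G R W r hr hRW hR Q e f hQ hd
  exact conn_aux k l (K + 1) hk hl (by omega) G R W r hr hRW
    (hR.trans (Nat.mul_le_mul_right r (by omega))) Q e f hQ hd

end Pool.Agent.FRC
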