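import Pool.Agent.LCK.Defs

/-!
# Disjoint paths with light ends, connectors, and cycles through them
-/

set_option linter.all false

namespace Pool.Agent.FRC

open Pool.Agent.Helper14.LongCyc Pool.Agent.LCK

universe u

section light

variable {V : Type u} {G : SimpleGraph V}

/-- the edges of `G` with an end in `L` -/
def lightG (G : SimpleGraph V) (L : Finset V) : SimpleGraph V where
  Adj u v := G.Adj u v ∧ (u ∈ L ∨ v ∈ L)
  symm := ⟨fun u v h => ⟨h.1.symm, h.2.symm⟩⟩
  loopless := ⟨fun u h => h.1.ne rfl⟩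

theorem lightG_le {L : Finset V} {u v : V} (h : (lightG G L).Adj u v) : G.Adj u v := h.1

theorem dg_lightG_le {L W : Finset V} (v : V) : dg (lightG G L) W v ≤ dg G W v := by
  classical
  unfold dg
  refine Finset.card_le_card ?_
  intro u hu
  rw [Finset.mem_filter] at hu ⊢
  exact ⟨hu.1, hu.2.1⟩

theorem dg_lightG_eq {L W : Finset V} {v : V} (hv : v ∈ L) : dg (lightG G L) W v = dg G W v := by
  classical
  refine le_antisymm (dg_lightG_le v) ?_
  unfold dg
  refine Finset.card_le_card ?_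
  intro u hu
  rw [Finset.mem_filter] at hu ⊢
  exact ⟨hu.1, hu.2, Or.inl hv⟩

theorem eS_lightG {L W : Finset V} (hL : L ⊆ W) : eS G L W ≤ eS (lightG G L) W W := by
  refine le_trans (le_of_eq ?_) (eS_mono_left hL W)
  unfold eS
  exact Finset.sum_congr rfl fun v hv => (dg_lightG_eq hv).symm

theorem Pth.lightG {L : Finset V} {a b : V} {l : List V} (h : Pth (lightG G L) a b l) :
    Pth G a b l :=
  ⟨h.1, h.2.1.imp fun _ _ h => h.1, h.2.2.1, h.2.2.2⟩

theorem trim_head {L : Finset V} {a b : V} {l : List V} (h : Pth (FRC.lightG G L) a b l)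
    (h2 : 2 ≤ l.length) : ∃ a' l', Pth (FRC.lightG G L) a' b l' ∧ a' ∈ L ∧
      l.length ≤ l'.length + 1 ∧ ∀ x ∈ l', x ∈ l := by
  by_cases ha : a ∈ L
  · exact ⟨a, l, h, ha, by omega, fun x hx => hx⟩
  · match l, h, h2 with
    | x :: y :: t, h, _ =>
      have hxa : x = a := by simpa using h.2.2.1
      subst hxa
      have hch := h.2.1
      rw [List.isChain_cons_cons] at hch
      have hnd := List.nodup_cons.1 h.1
      have hy : y ∈ L := by
        rcases hch.1.2 with h1 | h1
        · exact absurd h1 ha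
        · exact h1
      refine ⟨y, y :: t, ⟨hnd.2, hch.2, by simp, ?_⟩, hy, by simp, fun z hz =>
        List.mem_cons_of_mem _ hz⟩
      have := h.2.2.2
      rw [List.getLast?_cons_cons] at this
      exact this

theorem trim {L : Finset V} {a b : V} {l : List V} (h : Pth (FRC.lightG G L) a b l)
    (h3 : 3 ≤ l.length) : ∃ a' b' l', Pth G a' b' l' ∧ a' ∈ L ∧ b' ∈ L ∧
      l.length ≤ l'.length + 2 ∧ ∀ x ∈ l', x ∈ l := by
  obtain ⟨a', l', h1, h2, h4, h5⟩ := trim_head h (by omega)
  obtain ⟨b', l'', g1, g2, g4, g5⟩ := trim_head h1.reverse (by rw [List.length_reverse]; omega)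
  rw [List.length_reverse] at g4
  refine ⟨a', b', l''.reverse, Pth.lightG g1.reverse, h2, g2, by rw [List.length_reverse]; omega,
    fun x hx => h5 x ?_⟩
  have := g5 x (List.mem_reverse.1 hx)
  exact List.mem_reverse.1 this

end light

section paths

variable {V : Type u} [DecidableEq V] {G : SimpleGraph V}

theorem Pth.takeN {a b : V} {l : List V} (h : Pth G a b l) {n : ℕ} (h1 : 1 ≤ n)
    (h2 : n ≤ l.length) : ∃ c, Pth G a c (l.take n) := by
  have hne : l.take n ≠ [] := by
    intro h0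
    have := congrArg List.length h0
    rw [List.length_take, List.length_nil] at this
    omega
  refine ⟨(l.take n).getLast hne, h.1.sublist (List.take_sublist _ _), h.2.1.take _, ?_,
    List.getLast?_eq_some_getLast hne⟩
  obtain ⟨m, rfl⟩ : ∃ m, n = m + 1 := ⟨n - 1, by omega⟩
  have := h.2.2.1
  cases l with
  | nil => simp at this
  | cons x t => simpa using this

/-- a set with many edges contains a path with `s + 1` vertices -/
theorem path_of_edges {s : ℕ} (hs : 1 ≤ s) : ∀ (n : ℕ) (U : Finset V), U.card = n →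
    0 < eS G U U → 2 * s * U.card ≤ eS G U U →
    ∃ a b l, Pth G a b l ∧ l.length = s + 1 ∧ ∀ x ∈ l, x ∈ U := by
  intro n
  induction n with
  | zero =>
    intro U hU h0 _
    rw [Finset.card_eq_zero] at hU
    subst hU
    simp [eS] at h0
  | succ n ih =>
    intro U hU h0 hU2
    by_cases hmin : ∀ v ∈ U, s ≤ dg G U v
    · have hne : U.Nonempty := Finset.card_pos.1 (by omega)
      obtain ⟨v, hv⟩ := hne
      obtain ⟨q, z, h1, h2, h3, h4⟩ := extend U _ [v] v v le_rfl (Pth.singleton v)
      have hzU : z ∈ U := by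
        rcases h3 with rfl | h3
        · exact hv
        · exact h3
      have hin : ∀ x ∈ q ++ [v], x ∈ U := by
        intro x hx
        rw [List.mem_append, List.mem_singleton] at hx
        rcases hx with hx | rfl
        · exact h1 x hx
        · exact hv
      have hlen : s + 1 ≤ (q ++ [v]).length := by
        have h5 := hmin z hzU
        have h6 : dg G U z ≤ ((q ++ [v]).toFinset.erase z).card := by
          classical
          unfold dg
          refine Finset.card_le_card ?_
          intro u hu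
          rw [Finset.mem_filter] at hu
          rw [Finset.mem_erase, List.mem_toFinset]
          exact ⟨hu.2.ne.symm, h4 u hu.1 hu.2⟩
        have hz : z ∈ (q ++ [v]).toFinset := List.mem_toFinset.2 h2.head_mem
        rw [Finset.card_erase_of_mem hz, List.toFinset_card_of_nodup h2.1] at h6
        have := h2.length_pos
        omega
      obtain ⟨c, hc⟩ := Pth.takeN h2 (show 1 ≤ s + 1 by omega) hlen
      refine ⟨z, c, _, hc, ?_, fun x hx => hin x (List.mem_of_mem_take hx)⟩
      rw [List.length_take]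
      omega
    · push Not at hmin
      obtain ⟨v, hv, hvs⟩ := hmin
      have hdis : Disjoint (U.erase v) {v} := by
        rw [Finset.disjoint_singleton_right]
        exact Finset.notMem_erase v U
      have hUe : U.erase v ∪ {v} = U := by
        rw [Finset.union_comm, ← Finset.insert_eq]
        exact Finset.insert_erase hv
      have h1 := eS_self_union (G := G) hdis
      rw [hUe] at h1
      have h2 : eS G {v} {v} = 0 := by
        simp [eS, dg, Finset.filter_singleton]
      have h3 : eS G (U.erase v) {v} ≤ dg G U v := by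
        rw [eS_comm]
        unfold eS
        rw [Finset.sum_singleton]
        exact dg_mono (Finset.erase_subset _ _) v
      have hc : (U.erase v).card = n := by
        rw [Finset.card_erase_of_mem hv, hU]; rfl
      have h4 : 2 * s * U.card = 2 * s * (U.erase v).card + 2 * s := by
        rw [hU, hc]; ring
      obtain ⟨a, b, l, g1, g2, g3⟩ := ih (U.erase v) hc (by omega) (by omega)
      exact ⟨a, b, l, g1, g2, fun x hx => Finset.mem_of_mem_erase (g3 x hx)⟩

/-- many disjoint paths with `s + 1` vertices -/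
theorem many_paths {W : Finset V} {s D m : ℕ} (hs : 1 ≤ s) (hD : ∀ v ∈ W, dg G W v ≤ D)
    (h : 2 * (m * (s + 1) * D) + 2 * s * W.card < eS G W W) :
    ∃ P : ℕ → List V, (∀ i < m, (∃ a b, Pth G a b (P i)) ∧ (P i).length = s + 1 ∧
      ∀ x ∈ P i, x ∈ W) ∧ ∀ i < m, ∀ j < m, i ≠ j → ∀ x ∈ P i, x ∉ P j := by
  have key : ∀ m' ≤ m, ∃ P : ℕ → List V, (∀ i < m', (∃ a b, Pth G a b (P i)) ∧
      (P i).length = s + 1 ∧ ∀ x ∈ P i, x ∈ W) ∧
      ∀ i < m', ∀ j < m', i ≠ j → ∀ x ∈ P i, x ∉ P j := by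
    intro m'
    induction m' with
    | zero => exact fun _ => ⟨fun _ => [], fun i hi => by omega, fun i hi => by omega⟩
    | succ m' ih =>
      intro hm'
      obtain ⟨P, h1, h2⟩ := ih (by omega)
      set T : Finset V := (Finset.range m').biUnion fun i => (P i).toFinset with hT
      have hTW : T ⊆ W := by
        intro x hx
        rw [hT, Finset.mem_biUnion] at hx
        obtain ⟨i, hi, hx⟩ := hx
        exact (h1 i (Finset.mem_range.1 hi)).2.2 x (List.mem_toFinset.1 hx)
      have hTc : T.card ≤ m' * (s + 1) := by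
        rw [hT]
        refine Finset.card_biUnion_le.trans ?_
        refine (Finset.sum_le_card_nsmul _ _ (s + 1) ?_).trans (by simp)
        intro i hi
        refine (List.toFinset_card_le _).trans ?_
        exact (h1 i (Finset.mem_range.1 hi)).2.1.le
      have e1 : eS G W W = eS G (W \ T) (W \ T) + eS G (W \ T) T + eS G W T := by
        rw [eS_split_right hTW W, eS_split_left hTW (W \ T)]
        rw [eS_comm T (W \ T)]
      have e2 : eS G (W \ T) T ≤ eS G W T := eS_mono_left Finset.sdiff_subset T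
      have e3 : eS G W T ≤ m' * (s + 1) * D := by
        rw [eS_comm]
        unfold eS
        refine (Finset.sum_le_card_nsmul _ _ D fun v hv => hD v (hTW hv)).trans ?_
        rw [smul_eq_mul]
        exact Nat.mul_le_mul_right _ hTc
      have e4 : m' * (s + 1) * D ≤ m * (s + 1) * D :=
        Nat.mul_le_mul_right _ (Nat.mul_le_mul_right _ (by omega))
      have e5 : 2 * s * (W \ T).card ≤ 2 * s * W.card :=
        Nat.mul_le_mul_left _ (Finset.card_le_card Finset.sdiff_subset)
      obtain ⟨a, b, l, g1, g2, g3⟩ := path_of_edges (G := G) hs _ (W \ T) rfl (by omega)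
        (by omega)
      refine ⟨fun i => if i < m' then P i else l, ?_, ?_⟩
      · intro i hi
        by_cases hi' : i < m'
        · simp only [hi', if_true]
          exact h1 i hi'
        · simp only [hi', if_false]
          exact ⟨⟨a, b, g1⟩, g2, fun x hx => (Finset.mem_sdiff.1 (g3 x hx)).1⟩
      · have hl : ∀ i < m', ∀ x ∈ P i, x ∉ l := by
          intro i hi x hx hxl
          refine (Finset.mem_sdiff.1 (g3 x hxl)).2 ?_
          rw [hT, Finset.mem_biUnion]
          exact ⟨i, Finset.mem_range.2 hi, List.mem_toFinset.2 hx⟩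
        intro i hi j hj hij
        by_cases hi' : i < m' <;> by_cases hj' : j < m'
        · simp only [hi', hj', if_true]
          exact h2 i hi' j hj' hij
        · simp only [hi', hj', if_true, if_false]
          exact hl i hi'
        · simp only [hi', hj', if_true, if_false]
          exact fun x hx hx' => hl j hj' x hx' hx
        · omega
  exact key m le_rfl

end paths

section pigeon

variable {V : Type u} [DecidableEq V] {G : SimpleGraph V}

theorem pick {ι : Type} [DecidableEq ι] {R X : Finset V} {I : Finset ι} {f : ι → V} {A : ℕ}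
    (hR : 0 < R.card) (hI : I.Nonempty)
    (h : ∀ i ∈ I, R.card ≤ A * (dg G R (f i) - X.card)) :
    ∃ x ∈ R \ X, ∃ J ⊆ I, I.card ≤ A * J.card ∧ ∀ i ∈ J, G.Adj (f i) x := by
  classical
  by_contra hcon
  push Not at hcon
  have h1 : ∀ x ∈ R \ X, A * (I.filter fun i => G.Adj (f i) x).card < I.card := by
    intro x hx
    by_contra h2
    rw [not_lt] at h2
    obtain ⟨i, hi, hi2⟩ := hcon x hx (I.filter fun i => G.Adj (f i) x) (Finset.filter_subset _ _) h2
    exact hi2 (Finset.mem_filter.1 hi).2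
  have hdg : ∀ i ∈ I, dg G R (f i) - X.card ≤ ((R \ X).filter fun x => G.Adj (f i) x).card := by
    intro i _
    have e : dg G R (f i) ≤ ((R \ X).filter fun x => G.Adj (f i) x).card + X.card := by
      unfold dg
      refine le_trans (Finset.card_le_card ?_) (Finset.card_union_le _ _)
      intro x hx
      rw [Finset.mem_filter] at hx
      rw [Finset.mem_union, Finset.mem_filter, Finset.mem_sdiff]
      by_cases hxX : x ∈ X
      · exact Or.inr hxX
      · exact Or.inl ⟨⟨hx.1, hxX⟩, hx.2⟩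
    omega
  have hRX : (R \ X).Nonempty := by
    obtain ⟨i, hi⟩ := hI
    by_contra hne
    rw [Finset.not_nonempty_iff_eq_empty] at hne
    have h2 := h i hi
    have h3 := hdg i hi
    rw [hne] at h3
    simp only [Finset.filter_empty, Finset.card_empty, Nat.le_zero] at h3
    rw [h3] at h2
    omega
  have h2 : ∑ x ∈ R \ X, A * (I.filter fun i => G.Adj (f i) x).card < (R \ X).card * I.card := by
    calc ∑ x ∈ R \ X, A * (I.filter fun i => G.Adj (f i) x).card < ∑ x ∈ R \ X, I.card :=
          Finset.sum_lt_sum_of_nonempty hRX h1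
      _ = (R \ X).card * I.card := by rw [Finset.sum_const, smul_eq_mul]
  have h3 : ∑ x ∈ R \ X, A * (I.filter fun i => G.Adj (f i) x).card =
      ∑ i ∈ I, A * ((R \ X).filter fun x => G.Adj (f i) x).card := by
    rw [← Finset.mul_sum, ← Finset.mul_sum]
    congr 1
    simp only [Finset.card_filter]
    exact Finset.sum_comm
  have h4 : I.card * R.card ≤ ∑ i ∈ I, A * ((R \ X).filter fun x => G.Adj (f i) x).card := by
    rw [← smul_eq_mul]
    refine Finset.card_nsmul_le_sum _ _ _ fun i hi => ?_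
    exact (h i hi).trans (Nat.mul_le_mul_left _ (hdg i hi))
  have h5 : (R \ X).card * I.card ≤ I.card * R.card := by
    rw [mul_comm]
    exact Nat.mul_le_mul_left _ (Finset.card_le_card Finset.sdiff_subset)
  omega

theorem bundle {ι : Type} [DecidableEq ι] {R X₀ : Finset V} {I : Finset ι} {f : ι → V} {A : ℕ}
    (hR : 0 < R.card) (hI : I.Nonempty) : ∀ n : ℕ,
    (∀ i ∈ I, R.card ≤ A * (dg G R (f i) - (X₀.card + n))) →
    ∃ X ⊆ R, Disjoint X₀ X ∧ X.card = n ∧ ∃ J ⊆ I, I.card ≤ A ^ n * J.card ∧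
      ∀ i ∈ J, ∀ x ∈ X, G.Adj (f i) x := by
  intro n
  induction n with
  | zero =>
    intro _
    exact ⟨∅, by simp, by simp, by simp, I, subset_rfl, by simp, by simp⟩
  | succ n ih =>
    intro h
    obtain ⟨X, h1, h2, h3, J, h4, h5, h6⟩ := ih fun i hi => (h i hi).trans
      (Nat.mul_le_mul_left _ (by omega))
    have hJ : J.Nonempty := by
      rw [← Finset.card_pos]
      by_contra h0
      have h0' : J.card = 0 := by omega
      rw [h0', mul_zero] at h5
      have := Finset.card_pos.2 hI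
      omega
    have hc : (X₀ ∪ X).card = X₀.card + n := by
      rw [Finset.card_union_of_disjoint h2, h3]
    obtain ⟨x, hx, J', g1, g2, g3⟩ := pick (G := G) (R := R) (X := X₀ ∪ X) (I := J) (f := f)
      (A := A) hR hJ (fun i hi => (h i (h4 hi)).trans (Nat.mul_le_mul_left _ (by
        rw [hc]; omega)))
    rw [Finset.mem_sdiff, Finset.mem_union, not_or] at hx
    refine ⟨insert x X, Finset.insert_subset hx.1 h1, ?_, ?_, J', g1.trans h4, ?_, ?_⟩
    · rw [Finset.disjoint_insert_right]
      exact ⟨hx.2.1, h2⟩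
    · rw [Finset.card_insert_of_notMem hx.2.2, h3]
    · calc I.card ≤ A ^ n * J.card := h5
        _ ≤ A ^ n * (A * J'.card) := Nat.mul_le_mul_left _ g2
        _ = A ^ (n + 1) * J'.card := by ring
    · intro i hi y hy
      rcases Finset.mem_insert.1 hy with rfl | hy
      · exact g3 i hi
      · exact h6 i (g1 hi) y hy

theorem enum {α : Type*} [DecidableEq α] [Nonempty α] (J : Finset α) {m : ℕ} (hm : m ≤ J.card) :
    ∃ e : ℕ → α, (∀ i < m, e i ∈ J) ∧ ∀ i < m, ∀ j < m, e i = e j → i = j := by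
  classical
  let g := J.equivFin.symm
  refine ⟨fun i => if h : i < J.card then (g ⟨i, h⟩ : α) else Classical.arbitrary α, ?_, ?_⟩
  · intro i hi
    have h : i < J.card := by omega
    simp only [h, dif_pos]
    exact (g ⟨i, h⟩).2
  · intro i hi j hj hij
    have h : i < J.card := by omega
    have h' : j < J.card := by omega
    simp only [h, h', dif_pos] at hij
    have := g.injective (Subtype.ext hij)
    exact congrArg Fin.val this

end pigeon

section assemble

variable {V : Type u} [DecidableEq V] {G : SimpleGraph V}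

/-- concatenation of blocks -/
theorem blocks {B : ℕ → List V} {x e : ℕ → V} {n q : ℕ} (hB : ∀ i < n, Pth G (x i) (e i) (B i))
    (hadj : ∀ i < n, ∀ j < n, G.Adj (e i) (x j))
    (hdis : ∀ i < n, ∀ j < n, i ≠ j → ∀ v ∈ B i, v ∉ B j) (hq : ∀ i < n, q ≤ (B i).length)
    (s : ℕ) : ∀ t : ℕ, s + (t + 1) ≤ n → ∃ l, Pth G (x s) (e (s + t)) l ∧
      (∀ v, v ∈ l ↔ ∃ i, s ≤ i ∧ i < s + (t + 1) ∧ v ∈ B i) ∧ (t + 1) * q ≤ l.length := by
  intro t
  induction t with
  | zero =>
    intro hs
    refine ⟨B s, hB s (by omega), ?_, by simpa using hq s (by omega)⟩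
    intro v
    constructor
    · exact fun hv => ⟨s, le_rfl, by omega, hv⟩
    · rintro ⟨i, h1, h2, hv⟩
      have : i = s := by omega
      exact this ▸ hv
  | succ t ih =>
    intro hs
    obtain ⟨l, h1, h2, h3⟩ := ih (by omega)
    have hB' := hB (s + (t + 1)) (by omega)
    refine ⟨l ++ B (s + (t + 1)), h1.append hB' (hadj _ (by omega) _ (by omega)) ?_, ?_, ?_⟩
    · intro v hv
      obtain ⟨i, g1, g2, g3⟩ := (h2 v).1 hv
      exact hdis i (by omega) _ (by omega) (by omega) v g3
    · intro v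
      rw [List.mem_append, h2]
      constructor
      · rintro (⟨i, g1, g2, g3⟩ | hv)
        · exact ⟨i, g1, by omega, g3⟩
        · exact ⟨s + (t + 1), by omega, by omega, hv⟩
      · rintro ⟨i, g1, g2, g3⟩
        by_cases hi : i < s + (t + 1)
        · exact Or.inl ⟨i, g1, hi, g3⟩
        · have : i = s + (t + 1) := by omega
          exact Or.inr (this ▸ g3)
    · rw [List.length_append]
      have := hq (s + (t + 1)) (by omega)
      have e : (t + 1 + 1) * q = (t + 1) * q + q := by ring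
      omega

/-- `k` disjoint cycles from `k t` blocks -/
theorem cycles_of_blocks {U : Finset V} {B : ℕ → List V} {x e : ℕ → V} {k t q r : ℕ}
    (hB : ∀ i < k * t, Pth G (x i) (e i) (B i))
    (hadj : ∀ i < k * t, ∀ j < k * t, G.Adj (e i) (x j))
    (hdis : ∀ i < k * t, ∀ j < k * t, i ≠ j → ∀ v ∈ B i, v ∉ B j)
    (hq : ∀ i < k * t, q ≤ (B i).length) (hU : ∀ i < k * t, ∀ v ∈ B i, v ∈ U)
    (ht : 1 ≤ t) (hr : r ≤ t * q) (hr3 : 3 ≤ r) :
    ∃ F, Fam G U (fun n => r ≤ n) F ∧ F.card = k := by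
  have key : ∀ j ≤ k, ∃ F, Fam G U (fun n => r ≤ n) F ∧ F.card = j ∧
      ∀ s ∈ F, ∀ v ∈ s, ∃ i, i < j * t ∧ v ∈ B i := by
    intro j
    induction j with
    | zero =>
      intro _
      exact ⟨∅, Fam.empty, by simp, by simp⟩
    | succ j ih =>
      intro hj
      obtain ⟨F, h1, h2, h3⟩ := ih (by omega)
      have hjk : (j + 1) * t ≤ k * t := Nat.mul_le_mul_right _ hj
      have hjt : (j + 1) * t = j * t + t := by ring
      obtain ⟨l, g1, g2, g3⟩ := blocks hB hadj hdis hq (j * t) (t - 1) (by omega)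
      have et : t - 1 + 1 = t := by omega
      rw [et] at g2 g3
      have hcyc : Cyc G l := ⟨by omega, _, _, g1, hadj _ (by omega) _ (by omega)⟩
      have hcard : l.toFinset.card = l.length := List.toFinset_card_of_nodup g1.1
      obtain ⟨f1, f2⟩ := h1.add (D := l.toFinset) (Cyc.cycSet hcyc) (by
        intro v hv
        rw [List.mem_toFinset, g2] at hv
        obtain ⟨i, i1, i2, i3⟩ := hv
        rw [mem_rest]
        refine ⟨hU i (by omega) v i3, fun s hs hvs => ?_⟩
        obtain ⟨i', i4, i5⟩ := h3 s hs v hvs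
        exact hdis i (by omega) i' (by omega) (by omega) v i3 i5) (by
        show r ≤ l.toFinset.card
        omega)
      refine ⟨_, f1, by rw [f2, h2], ?_⟩
      intro s hs v hv
      rcases Finset.mem_insert.1 hs with rfl | hs
      · rw [List.mem_toFinset, g2] at hv
        obtain ⟨i, i1, i2, i3⟩ := hv
        exact ⟨i, by omega, i3⟩
      · obtain ⟨i, i1, i2⟩ := h3 s hs v hv
        exact ⟨i, by omega, i2⟩
  obtain ⟨F, h1, h2, _⟩ := key k le_rfl
  exact ⟨F, h1, h2⟩

/-- disjoint paths between fans and connectors give cycles -/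
theorem cycles_of_paths {W R : Finset V} (hWR : Disjoint W R) {P : ℕ → List V} {a b : ℕ → V}
    {I : Finset ℕ} {A k t q r : ℕ} (ht : 1 ≤ t)
    (hP : ∀ i ∈ I, Pth G (a i) (b i) (P i) ∧ q ≤ (P i).length ∧ ∀ x ∈ P i, x ∈ W)
    (hdis : ∀ i ∈ I, ∀ j ∈ I, i ≠ j → ∀ x ∈ P i, x ∉ P j)
    (hR : 0 < R.card) (ha : ∀ i ∈ I, R.card ≤ A * (dg G R (a i) - 2 * (k * t)))
    (hb : ∀ i ∈ I, R.card ≤ A * (dg G R (b i) - 2 * (k * t)))
    (hI : A ^ (2 * (k * t)) * (2 * (k * t)) < I.card) (hr : r ≤ t * (2 * q + 2)) (hr3 : 3 ≤ r) :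
    ∃ F, Fam G (W ∪ R) (fun n => r ≤ n) F ∧ F.card = k := by
  classical
  have hIne : I.Nonempty := Finset.card_pos.1 (by omega)
  have hV : Nonempty V := by
    obtain ⟨v, _⟩ := Finset.card_pos.1 hR
    exact ⟨v⟩
  obtain ⟨X, x1, x2, x3, J, j1, j2, j3⟩ := bundle (G := G) (R := R) (X₀ := ∅) (I := I) (f := a)
    (A := A) hR hIne (k * t) (fun i hi => (ha i hi).trans (Nat.mul_le_mul_left _ (by
      rw [Finset.card_empty]; omega)))
  have hJ : J.Nonempty := by
    rw [← Finset.card_pos]
    by_contra h0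
    have h0' : J.card = 0 := by omega
    rw [h0', mul_zero] at j2
    omega
  obtain ⟨Y, y1, y2, y3, J', k1, k2, k3⟩ := bundle (G := G) (R := R) (X₀ := X) (I := J) (f := b)
    (A := A) hR hJ (k * t) (fun i hi => (hb i (j1 hi)).trans (Nat.mul_le_mul_left _ (by
      rw [x3]; omega)))
  have hJ' : 2 * (k * t) ≤ J'.card := by
    by_contra h0
    rw [not_le] at h0
    have e1 : I.card ≤ A ^ (k * t) * (A ^ (k * t) * J'.card) :=
      j2.trans (Nat.mul_le_mul_left _ k2)
    have e2 : A ^ (k * t) * (A ^ (k * t) * J'.card) = A ^ (2 * (k * t)) * J'.card := by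
      rw [two_mul, pow_add]; ring
    have e3 : A ^ (2 * (k * t)) * J'.card ≤ A ^ (2 * (k * t)) * (2 * (k * t)) :=
      Nat.mul_le_mul_left _ h0.le
    omega
  obtain ⟨ex, hx1, hx2⟩ := enum X x3.ge
  obtain ⟨ey, hy1, hy2⟩ := enum Y y3.ge
  obtain ⟨ep, hp1, hp2⟩ := enum J' hJ'
  have hpI : ∀ i < 2 * (k * t), ep i ∈ I := fun i hi => j1 (k1 (hp1 i hi))
  have hRW : ∀ v ∈ R, v ∉ W := fun v hv hv' => (Finset.disjoint_left.1 hWR) hv' hv
  -- blocks
  let B : ℕ → List V := fun i => ex i :: (P (ep (2 * i)) ++ ey i :: (P (ep (2 * i + 1))).reverse)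
  have hmem : ∀ i v, v ∈ B i ↔ v = ex i ∨ v ∈ P (ep (2 * i)) ∨ v = ey i ∨
      v ∈ P (ep (2 * i + 1)) := by
    intro i v
    simp only [B, List.mem_cons, List.mem_append, List.mem_reverse]
  refine cycles_of_blocks (U := W ∪ R) (B := B) (x := ex) (e := fun i => a (ep (2 * i + 1)))
    (k := k) (t := t) (q := 2 * q + 2) (r := r) ?_ ?_ ?_ ?_ ?_ ht hr hr3
  · intro i hi
    have i0 := hpI (2 * i) (by omega)
    have i1 := hpI (2 * i + 1) (by omega)
    have hne : ep (2 * i) ≠ ep (2 * i + 1) := by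
      intro h
      have := hp2 _ (by omega) _ (by omega) h
      omega
    have hxR := x1 (hx1 i hi)
    have hyR := y1 (hy1 i hi)
    have hxy : ex i ≠ ey i := by
      intro h
      exact (Finset.disjoint_left.1 y2) (hx1 i hi) (h ▸ hy1 i hi)
    have p1 : Pth G (ey i) (a (ep (2 * i + 1))) (ey i :: (P (ep (2 * i + 1))).reverse) := by
      refine (hP _ i1).1.reverse.cons (k3 _ (hp1 (2 * i + 1) (by omega)) _ (hy1 i hi)).symm ?_
      rw [List.mem_reverse]
      exact fun h => hRW _ hyR ((hP _ i1).2.2 _ h)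
    have p2 := (hP _ i0).1.append p1 (k3 _ (hp1 (2 * i) (by omega)) _ (hy1 i hi)) (by
      intro v hv
      rw [List.mem_cons, not_or, List.mem_reverse]
      refine ⟨?_, hdis _ i0 _ i1 hne v hv⟩
      rintro rfl
      exact hRW _ hyR ((hP _ i0).2.2 _ hv))
    refine p2.cons (j3 _ (k1 (hp1 (2 * i) (by omega))) _ (hx1 i hi)).symm ?_
    rw [List.mem_append, List.mem_cons, List.mem_reverse]
    rintro (h | h | h)
    · exact hRW _ hxR ((hP _ i0).2.2 _ h)
    · exact hxy h
    · exact hRW _ hxR ((hP _ i1).2.2 _ h)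
  · intro i hi j hj
    exact j3 _ (k1 (hp1 (2 * i + 1) (by omega))) _ (hx1 j hj)
  · intro i hi j hj hij v hv hv'
    rw [hmem] at hv hv'
    have hxi := hx1 i hi
    have hxj := hx1 j hj
    have hyi := hy1 i hi
    have hyj := hy1 j hj
    have pW : ∀ n < 2 * (k * t), ∀ w ∈ P (ep n), w ∈ W := fun n hn w hw =>
      (hP _ (hpI n hn)).2.2 w hw
    have pd : ∀ n < 2 * (k * t), ∀ n' < 2 * (k * t), n ≠ n' → ∀ w ∈ P (ep n), w ∉ P (ep n') := by
      intro n hn n' hn' hne w hw
      exact hdis _ (hpI n hn) _ (hpI n' hn') (fun h => hne (hp2 n hn n' hn' h)) w hw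
    have hXY := Finset.disjoint_left.1 y2
    rcases hv with rfl | hv | rfl | hv <;> rcases hv' with hv' | hv' | hv' | hv'
    · exact hij (hx2 i hi j hj hv')
    · exact hRW _ (x1 hxi) (pW _ (by omega) _ hv')
    · exact hXY hxi (hv' ▸ hyj)
    · exact hRW _ (x1 hxi) (pW _ (by omega) _ hv')
    · exact hRW _ (x1 hxj) (hv' ▸ pW _ (by omega) _ hv)
    · exact pd (2 * i) (by omega) (2 * j) (by omega) (by omega) v hv hv'
    · exact hRW _ (y1 hyj) (hv' ▸ pW _ (by omega) _ hv)
    · exact pd (2 * i) (by omega) (2 * j + 1) (by omega) (by omega) v hv hv'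
    · exact hXY hxj (hv' ▸ hyi)
    · exact hRW _ (y1 hyi) (pW _ (by omega) _ hv')
    · exact hij (hy2 i hi j hj hv')
    · exact hRW _ (y1 hyi) (pW _ (by omega) _ hv')
    · exact hRW _ (x1 hxj) (hv' ▸ pW _ (by omega) _ hv)
    · exact pd (2 * i + 1) (by omega) (2 * j) (by omega) (by omega) v hv hv'
    · exact hRW _ (y1 hyj) (hv' ▸ pW _ (by omega) _ hv)
    · exact pd (2 * i + 1) (by omega) (2 * j + 1) (by omega) (by omega) v hv hv'
  · intro i hi
    have i0 := (hP _ (hpI (2 * i) (by omega))).2.1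
    have i1 := (hP _ (hpI (2 * i + 1) (by omega))).2.1
    simp only [B, List.length_cons, List.length_append, List.length_reverse]
    omega
  · intro i hi v hv
    rw [hmem] at hv
    rw [Finset.mem_union]
    rcases hv with rfl | hv | rfl | hv
    · exact Or.inr (x1 (hx1 i hi))
    · exact Or.inl ((hP _ (hpI (2 * i) (by omega))).2.2 v hv)
    · exact Or.inr (y1 (hy1 i hi))
    · exact Or.inl ((hP _ (hpI (2 * i + 1) (by omega))).2.2 v hv)

end assemble

/-- **ROWS R10 and R11**: bounded degrees in `W`, many edges at the light vertices, each of which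
has many neighbours in the small set `R`, give `k` disjoint long cycles -/
theorem connect (k : ℕ) (c K : ℝ) (hc : 0 < c) (hK : 0 < K) :
    ∃ τ : ℝ, 0 < τ ∧ ∃ r₀ : ℕ, ∀ r : ℕ, r₀ ≤ r →
      ∀ (V : Type u) [DecidableEq V] (G : SimpleGraph V) (W R L : Finset V),
        W.Nonempty → Disjoint W R → L ⊆ W → (R.card : ℝ) ≤ K * r →
        (∀ v ∈ L, c * r ≤ (dg G R v : ℝ)) → (∀ v ∈ W, (dg G W v : ℝ) ≤ τ * W.card) →
        c * r * W.card ≤ (eS G L W : ℝ) →
        ∃ F, Fam G (W ∪ R) (fun n => r ≤ n) F ∧ F.card = k := by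
  classical
  set t : ℕ := ⌈4 / c⌉₊ with ht
  set n : ℕ := 2 * (k * t) with hn
  set A : ℕ := ⌈2 * K / c⌉₊ with hA
  set m : ℕ := A ^ n * n + 1 with hm
  have ht1 : 1 ≤ t := Nat.one_le_ceil_iff.2 (by positivity)
  have htc : 4 / c ≤ (t : ℝ) := Nat.le_ceil _
  have hAc : 2 * K / c ≤ (A : ℝ) := Nat.le_ceil _
  have hm0 : (0 : ℝ) < m := by rw [hm]; positivity
  refine ⟨1 / (2 * m), by positivity, ⌈(16 + 4 * (n : ℝ)) / c⌉₊ + 3, ?_⟩
  intro r hr V _ G W R L hW hWR hLW hRc hL hD hE
  have hr3 : 3 ≤ r := by omega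
  have hcr : 16 + 4 * (n : ℝ) ≤ c * r := by
    have h1 : (16 + 4 * (n : ℝ)) / c ≤ (⌈(16 + 4 * (n : ℝ)) / c⌉₊ : ℝ) := Nat.le_ceil _
    have h2 : ((⌈(16 + 4 * (n : ℝ)) / c⌉₊ : ℕ) : ℝ) ≤ (r : ℝ) := by
      exact_mod_cast (by omega : ⌈(16 + 4 * (n : ℝ)) / c⌉₊ ≤ r)
    have h3 := h1.trans h2
    rw [div_le_iff₀ hc] at h3
    linarith [mul_comm c (r : ℝ)]
  have hn0 : (0 : ℝ) ≤ n := Nat.cast_nonneg _
  have hWc : (0 : ℝ) < W.card := by exact_mod_cast hW.card_pos
  -- the light set is nonempty
  have hLne : L.Nonempty := by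
    by_contra h
    rw [Finset.not_nonempty_iff_eq_empty] at h
    rw [h] at hE
    have h0 : (eS G ∅ W : ℝ) = 0 := by simp [eS]
    rw [h0] at hE
    have : 0 < c * r * W.card := mul_pos (by linarith) hWc
    linarith
  obtain ⟨v₀, hv₀⟩ := hLne
  have hR : 0 < R.card := by
    have h1 := hL v₀ hv₀
    have h2 : (dg G R v₀ : ℝ) ≤ R.card := by exact_mod_cast dg_le R v₀
    have h3 : (0 : ℝ) < R.card := by linarith
    exact_mod_cast h3
  -- the length of the paths
  set s : ℕ := ⌊c * r / 4⌋₊ with hs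
  have hs1 : (s : ℝ) ≤ c * r / 4 := Nat.floor_le (by linarith)
  have hs2 : c * r / 4 < (s : ℝ) + 1 := Nat.lt_floor_add_one _
  have hs3 : (3 : ℝ) < (s : ℝ) + 1 := by linarith
  have hs4 : 3 ≤ s := by
    have : (3 : ℕ) < s + 1 := by exact_mod_cast hs3
    omega
  set D : ℕ := ⌊1 / (2 * (m : ℝ)) * W.card⌋₊ with hDdef
  have hD' : ∀ v ∈ W, dg (lightG G L) W v ≤ D := by
    intro v hv
    refine (dg_lightG_le v).trans ?_
    exact Nat.le_floor (hD v hv)
  have hDr : (D : ℝ) ≤ 1 / (2 * (m : ℝ)) * W.card := Nat.floor_le (by positivity)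
  have hcount : 2 * (m * (s + 1) * D) + 2 * s * W.card < eS (lightG G L) W W := by
    have h1 : (2 * (m * (s + 1) * D) + 2 * s * W.card : ℝ) < (eS (lightG G L) W W : ℝ) := by
      have h2 : (eS G L W : ℝ) ≤ (eS (lightG G L) W W : ℝ) := by exact_mod_cast eS_lightG hLW
      have h3 : (2 * (m * (s + 1) * D) : ℝ) ≤ (s + 1) * W.card := by
        calc (2 * (m * (s + 1) * D) : ℝ) ≤ 2 * (m * (s + 1) * (1 / (2 * (m : ℝ)) * W.card)) := by
              have : (0 : ℝ) ≤ 2 * (m * (s + 1)) := by positivity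
              nlinarith
          _ = (s + 1) * W.card := by
              field_simp
      have h4 : ((s : ℝ) + 1 + 2 * s) * W.card < c * r * W.card := by
        refine mul_lt_mul_of_pos_right ?_ hWc
        linarith
      nlinarith
    exact_mod_cast h1
  obtain ⟨P, hP1, hP2⟩ := many_paths (G := lightG G L) (by omega : 1 ≤ s) hD' hcount
  have key : ∀ i : ℕ, ∃ (a b : V) (l : List V), i < m → (Pth G a b l ∧ a ∈ L ∧ b ∈ L ∧
      s - 1 ≤ l.length ∧ ∀ x ∈ l, x ∈ P i) := by
    intro i
    by_cases hi : i < m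
    · obtain ⟨⟨a, b, h1⟩, h2, h3⟩ := hP1 i hi
      obtain ⟨a', b', l', g1, g2, g3, g4, g5⟩ := trim h1 (by omega)
      exact ⟨a', b', l', fun _ => ⟨g1, g2, g3, by omega, g5⟩⟩
    · exact ⟨v₀, v₀, [], fun h => absurd h hi⟩
  choose a b P' hP' using key
  have hdeg : ∀ v ∈ L, R.card ≤ A * (dg G R v - n) := by
    intro v hv
    have h1 := hL v hv
    have h2 : (n : ℝ) ≤ (dg G R v : ℝ) := by linarith
    have h3 : n ≤ dg G R v := by exact_mod_cast h2
    have h4 : (R.card : ℝ) ≤ (A : ℝ) * ((dg G R v : ℝ) - n) := by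
      have h5 : c * r / 2 ≤ (dg G R v : ℝ) - n := by linarith
      have h6 : (2 * K / c) * (c * r / 2) ≤ (A : ℝ) * ((dg G R v : ℝ) - n) :=
        mul_le_mul hAc h5 (by linarith) (Nat.cast_nonneg _)
      have h7 : (2 * K / c) * (c * r / 2) = K * r := by
        field_simp
      linarith
    have h5 : ((R.card : ℕ) : ℝ) ≤ ((A * (dg G R v - n) : ℕ) : ℝ) := by
      rw [Nat.cast_mul, Nat.cast_sub h3]
      exact h4
    exact_mod_cast h5
  refine cycles_of_paths (G := G) hWR (P := P') (a := a) (b := b) (I := Finset.range m) (A := A)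
    (k := k) (t := t) (q := s - 1) (r := r) ht1 ?_ ?_ hR ?_ ?_ ?_ ?_ hr3
  · intro i hi
    obtain ⟨g1, g2, g3, g4, g5⟩ := hP' i (Finset.mem_range.1 hi)
    exact ⟨g1, g4, fun x hx => (hP1 i (Finset.mem_range.1 hi)).2.2 x (g5 x hx)⟩
  · intro i hi j hj hij x hx hx'
    have h1 := (hP' i (Finset.mem_range.1 hi)).2.2.2.2 x hx
    have h2 := (hP' j (Finset.mem_range.1 hj)).2.2.2.2 x hx'
    exact hP2 i (Finset.mem_range.1 hi) j (Finset.mem_range.1 hj) hij x h1 h2
  · exact fun i hi => hdeg _ (hP' i (Finset.mem_range.1 hi)).2.1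
  · exact fun i hi => hdeg _ (hP' i (Finset.mem_range.1 hi)).2.2.1
  · rw [Finset.card_range, hm]
    exact Nat.lt_succ_self _
  · have h1 : (r : ℝ) ≤ (t : ℝ) * (2 * s) := by
      have h2 : c * r / 4 ≤ 2 * (s : ℝ) := by linarith
      have h3 : (4 / c) * (c * r / 4) ≤ (t : ℝ) * (2 * s) :=
        mul_le_mul htc h2 (by linarith) (Nat.cast_nonneg _)
      have h4 : (4 / c) * (c * r / 4) = r := by
        field_simp
      linarith
    have h2 : r ≤ t * (2 * s) := by exact_mod_cast h1
    have h3 : 2 * (s - 1) + 2 = 2 * s := by omega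
    rw [h3]
    exact h2

end Pool.Agent.FRC
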