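import Pool.Agent.FRC.FamU
import Pool.Agent.FRC.Greedy

set_option linter.all false

/-!
Row R6a of THEOREM FR: three long cycles from two disjoint cross edges between two almost
complete sides.
-/

namespace Pool.Agent.FRC

open Pool.Agent.Helper14.LongCyc Pool.Agent.LCK

universe u v

theorem cr_common {V : Type u} [DecidableEq V] {G : SimpleGraph V} {A Z : Finset V} {u z : V}
    (h : A.card + Z.card < dg G A u + dg G A z) :
    ∃ w ∈ A, w ∉ Z ∧ G.Adj u w ∧ G.Adj z w := by
  classical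
  by_contra hcon
  push Not at hcon
  unfold dg at h
  have h1 : (A.filter fun y => G.Adj u y) ∩ (A.filter fun y => G.Adj z y) ⊆ Z := by
    intro w hw
    rw [Finset.mem_inter, Finset.mem_filter, Finset.mem_filter] at hw
    by_contra hwZ
    exact hcon w hw.1.1 hwZ hw.1.2 hw.2.2
  have h2 : (A.filter fun y => G.Adj u y) ∪ (A.filter fun y => G.Adj z y) ⊆ A :=
    Finset.union_subset (Finset.filter_subset _ _) (Finset.filter_subset _ _)
  have h3 := Finset.card_le_card h1
  have h4 := Finset.card_le_card h2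
  have h5 := Finset.card_union_add_card_inter (A.filter fun y => G.Adj u y)
    (A.filter fun y => G.Adj z y)
  omega

theorem cr_nbr {V : Type u} [DecidableEq V] {G : SimpleGraph V} {A Z : Finset V} {u : V}
    (h : Z.card < dg G A u) : ∃ w ∈ A, w ∉ Z ∧ G.Adj u w := by
  classical
  by_contra hcon
  push Not at hcon
  unfold dg at h
  have h1 : (A.filter fun y => G.Adj u y) ⊆ Z := by
    intro w hw
    rw [Finset.mem_filter] at hw
    by_contra hwZ
    exact hcon w hw.1 hwZ hw.2
  have h2 := Finset.card_le_card h1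
  omega

/-- a path with `n + 1` inner vertices in an almost complete set, avoiding `Z` -/
theorem cr_inner {V : Type u} [DecidableEq V] {G : SimpleGraph V} {A : Finset V} {d : ℕ}
    (hd : ∀ v ∈ A, d ≤ dg G A v) : ∀ (n : ℕ) (u z : V) (Z : Finset V), u ∈ A → z ∈ A → u ≠ z →
      A.card + Z.card + n + 1 < 2 * d →
      ∃ l, Pth G u z l ∧ l.length = n + 3 ∧ ∀ x ∈ l, x = u ∨ x = z ∨ (x ∈ A ∧ x ∉ Z) := by
  intro n
  induction n with
  | zero =>
    intro u z Z hu hz huz hc
    obtain ⟨w, hw, hwZ, huw, hzw⟩ := cr_common (G := G) (A := A) (Z := Z) (u := u) (z := z) (by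
      have h1 := hd u hu
      have h2 := hd z hz
      omega)
    refine ⟨[u, w, z], ?_, rfl, ?_⟩
    · have h1 : Pth G w z [w, z] :=
        (Pth.singleton (G := G) z).cons hzw.symm (by simpa using hzw.ne')
      refine h1.cons huw ?_
      simp only [List.mem_cons, List.not_mem_nil, or_false, not_or]
      exact ⟨huw.ne, huz⟩
    · intro x hx
      simp only [List.mem_cons, List.not_mem_nil, or_false] at hx
      rcases hx with rfl | rfl | rfl
      · exact Or.inl rfl
      · exact Or.inr (Or.inr ⟨hw, hwZ⟩)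
      · exact Or.inr (Or.inl rfl)
  | succ n ih =>
    intro u z Z hu hz huz hc
    have hAd : d ≤ A.card := (hd u hu).trans (Pool.Agent.LCK.dg_le A u)
    obtain ⟨w, hw, hwZ, huw⟩ := cr_nbr (G := G) (A := A) (Z := insert z Z) (u := u) (by
      have h1 := hd u hu
      have h2 := Finset.card_insert_le z Z
      omega)
    rw [Finset.mem_insert, not_or] at hwZ
    obtain ⟨l, hl, hlen, hmem⟩ := ih w z (insert u Z) hw hz hwZ.1 (by
      have h2 := Finset.card_insert_le u Z
      omega)
    refine ⟨u :: l, hl.cons huw ?_, by simp [hlen], ?_⟩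
    · intro hul
      rcases hmem u hul with h | h | h
      · exact huw.ne h
      · exact huz h
      · exact h.2 (Finset.mem_insert_self _ _)
    · intro x hx
      rcases List.mem_cons.1 hx with rfl | hx
      · exact Or.inl rfl
      · rcases hmem x hx with rfl | rfl | h
        · exact Or.inr (Or.inr ⟨hw, hwZ.2⟩)
        · exact Or.inr (Or.inl rfl)
        · exact Or.inr (Or.inr ⟨h.1, fun hxZ => h.2 (Finset.mem_insert_of_mem hxZ)⟩)

theorem cr_sdiff {V : Type u} [DecidableEq V] {G : SimpleGraph V} (A X : Finset V) (v : V) :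
    dg G A v ≤ dg G (A \ X) v + X.card := by
  have h1 : dg G A v ≤ dg G ((A \ X) ∪ X) v := dg_mono (by
    intro x hx
    by_cases hx' : x ∈ X
    · exact Finset.mem_union_right _ hx'
    · exact Finset.mem_union_left _ (Finset.mem_sdiff.2 ⟨hx, hx'⟩)) v
  have h2 := Pool.Agent.Helper14.LongCyc.dg_union_le (G := G) (A \ X) X v
  have h3 := Pool.Agent.LCK.dg_le (G := G) X v
  omega

/-- one side: a path with more than `r / 2` vertices between two vertices and a disjoint cycle -/
theorem cr_side {V : Type u} [DecidableEq V] {G : SimpleGraph V} {A A' : Finset V} {r : ℕ}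
    (hr : 100 ≤ r) (hAA : A' ⊆ A) (hc : A'.card < 2 * r)
    (h1 : ∀ v ∈ A', 199 * r ≤ 100 * dg G A' v) (h2 : ∀ v ∈ A, 9 * r ≤ 10 * dg G A' v)
    {a₁ a₂ : V} (ha₁ : a₁ ∈ A) (ha₂ : a₂ ∈ A) (hne : a₁ ≠ a₂) :
    ∃ (l : List V) (C : Finset V), Pth G a₁ a₂ l ∧ r ≤ 2 * l.length ∧ (∀ x ∈ l, x ∈ A) ∧
      CycSet G C ∧ C ⊆ A ∧ r ≤ C.card ∧ ∀ x ∈ l, x ∉ C := by
  classical
  have hdeg1 := h2 a₁ ha₁
  have hdeg2 := h2 a₂ ha₂
  obtain ⟨u, hu, huZ, hau⟩ := cr_nbr (G := G) (A := A') (Z := {a₂}) (u := a₁) (by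
    rw [Finset.card_singleton]; omega)
  obtain ⟨z, hz, hzZ, haz⟩ := cr_nbr (G := G) (A := A') (Z := {a₁, u}) (u := a₂) (by
    have := Finset.card_le_two (a := a₁) (b := u)
    omega)
  rw [Finset.mem_singleton] at huZ
  rw [Finset.mem_insert, Finset.mem_singleton, not_or] at hzZ
  obtain ⟨l₀, hl₀, hlen, hmem⟩ := cr_inner (G := G) (A := A') (d := 199 * r / 100)
    (fun v hv => by have := h1 v hv; omega) (r / 2) u z {a₁, a₂} hu hz (Ne.symm hzZ.2) (by
      have := Finset.card_le_two (a := a₁) (b := a₂)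
      omega)
  have hna₁ : a₁ ∉ l₀ := by
    intro h
    rcases hmem a₁ h with h | h | h
    · exact hau.ne h
    · exact hzZ.1 h.symm
    · exact h.2 (by simp)
  have hna₂ : a₂ ∉ l₀ := by
    intro h
    rcases hmem a₂ h with h | h | h
    · exact huZ h.symm
    · exact haz.ne h
    · exact h.2 (by simp)
  have hl₁ : Pth G u a₂ (l₀ ++ [a₂]) := hl₀.concat haz.symm hna₂
  have hl : Pth G a₁ a₂ (a₁ :: (l₀ ++ [a₂])) := hl₁.cons hau (by
    simp only [List.mem_append, List.mem_singleton, not_or]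
    exact ⟨hna₁, hne⟩)
  have hlA : ∀ x ∈ a₁ :: (l₀ ++ [a₂]), x ∈ A := by
    intro x hx
    simp only [List.mem_cons, List.mem_append, List.not_mem_nil, or_false] at hx
    rcases hx with rfl | hx | rfl
    · exact ha₁
    · rcases hmem x hx with rfl | rfl | h
      · exact hAA hu
      · exact hAA hz
      · exact hAA h.1
    · exact ha₂
  set l : List V := a₁ :: (l₀ ++ [a₂]) with hldef
  have hllen : l.length = r / 2 + 5 := by simp [hldef, hlen]
  have hcard : l.toFinset.card ≤ r / 2 + 5 := by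
    have := List.toFinset_card_le l
    omega
  obtain ⟨F, hF, hFc⟩ := greedy (G := G) (r := r) (by omega) 1 (U := A' \ l.toFinset) (by
      rw [← Finset.card_pos]
      have h3 := Finset.le_card_sdiff l.toFinset A'
      have h4 := h1 u hu
      have h5 := Pool.Agent.LCK.dg_le (G := G) A' u
      omega) (by
      intro v hv
      have h3 := h1 v (Finset.mem_sdiff.1 hv).1
      have h4 := cr_sdiff (G := G) A' l.toFinset v
      omega)
  obtain ⟨C, rfl⟩ := Finset.card_eq_one.1 hFc
  have hC := Finset.mem_singleton_self C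
  refine ⟨l, C, hl, by omega, hlA, hF.cyc C hC, ?_, hF.len C hC, ?_⟩
  · exact (hF.sub C hC).trans (Finset.sdiff_subset.trans hAA)
  · intro x hx hxC
    exact (Finset.mem_sdiff.1 (hF.sub C hC hxC)).2 (List.mem_toFinset.2 hx)

theorem cross3 : ∃ r₀ : ℕ, ∀ {V : Type u} [DecidableEq V] (G : SimpleGraph V)
    (A A' B B' : Finset V) (r : ℕ), r₀ ≤ r → A' ⊆ A → B' ⊆ B → Disjoint A B →
      A'.card < 2 * r → B'.card < 2 * r →
      (∀ v ∈ A', 199 * r ≤ 100 * dg G A' v) → (∀ v ∈ B', 199 * r ≤ 100 * dg G B' v) →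
      (∀ v ∈ A, 9 * r ≤ 10 * dg G A' v) → (∀ v ∈ B, 9 * r ≤ 10 * dg G B' v) →
      ∀ a₁ ∈ A, ∀ a₂ ∈ A, ∀ b₁ ∈ B, ∀ b₂ ∈ B, a₁ ≠ a₂ → b₁ ≠ b₂ → G.Adj a₁ b₁ → G.Adj a₂ b₂ →
      ∃ F, Fam G (A ∪ B) (fun L => r ≤ L) F ∧ F.card = 3 := by
  classical
  refine ⟨100, ?_⟩
  intro V _ G A A' B B' r hr hAA hBB hAB hcA hcB h1 h2 h3 h4 a₁ ha₁ a₂ ha₂ b₁ hb₁ b₂ hb₂ hane
    hbne hab1 hab2
  obtain ⟨l, C, hl, hlr, hlA, hC, hCA, hCr, hlC⟩ := cr_side hr hAA hcA h1 h3 ha₁ ha₂ hane
  obtain ⟨l', C', hl', hlr', hlB, hC', hCB, hCr', hlC'⟩ := cr_side hr hBB hcB h2 h4 hb₁ hb₂ hbne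
  have hp : Pth G a₁ b₁ (l ++ l'.reverse) := hl.append hl'.reverse hab2 (by
    intro x hx hx'
    exact Finset.disjoint_left.1 hAB (hlA x hx) (hlB x (List.mem_reverse.1 hx')))
  have hcyc : Cyc G (l ++ l'.reverse) :=
    ⟨by rw [List.length_append, List.length_reverse]; omega, a₁, b₁, hp, hab1.symm⟩
  have hset : CycSet G (l ++ l'.reverse).toFinset := Cyc.cycSet hcyc
  have hcard : r ≤ (l ++ l'.reverse).toFinset.card := by
    rw [List.toFinset_card_of_nodup (Cyc.nodup hcyc), List.length_append, List.length_reverse]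
    omega
  have hmem : ∀ x, x ∈ (l ++ l'.reverse).toFinset ↔ x ∈ l ∨ x ∈ l' := by
    intro x
    simp [List.mem_toFinset]
  have d1 : Disjoint (l ++ l'.reverse).toFinset C := by
    rw [Finset.disjoint_left]
    intro x hx hxC
    rcases (hmem x).1 hx with h | h
    · exact hlC x h hxC
    · exact Finset.disjoint_left.1 hAB (hCA hxC) (hlB x h)
  have d2 : Disjoint (l ++ l'.reverse).toFinset C' := by
    rw [Finset.disjoint_left]
    intro x hx hxC
    rcases (hmem x).1 hx with h | h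
    · exact Finset.disjoint_left.1 hAB (hlA x h) (hCB hxC)
    · exact hlC' x h hxC
  have d3 : Disjoint C C' := Disjoint.mono hCA hCB hAB
  refine Fam.ofParts (G := G) (U := A ∪ B) (P := fun L => r ≤ L)
    ![(l ++ l'.reverse).toFinset, C, C'] ?_ ?_ ?_
  · intro j
    fin_cases j
    · intro x hx
      rcases (hmem x).1 hx with h | h
      · exact Finset.mem_union_left _ (hlA x h)
      · exact Finset.mem_union_right _ (hlB x h)
    · exact hCA.trans Finset.subset_union_left
    · exact hCB.trans Finset.subset_union_right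
  · intro i j hij
    fin_cases i <;> fin_cases j <;> first
      | exact absurd rfl hij
      | exact d1
      | exact d1.symm
      | exact d2
      | exact d2.symm
      | exact d3
      | exact d3.symm
  · intro j
    fin_cases j
    · exact ⟨_, hset, Finset.Subset.refl _, hcard⟩
    · exact ⟨_, hC, Finset.Subset.refl _, hCr⟩
    · exact ⟨_, hC', Finset.Subset.refl _, hCr'⟩

end Pool.Agent.FRC
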