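import Pool.Agent.LCK.Defs

set_option linter.all false

namespace Pool.Agent.FRC

open Pool.Agent.Helper14.LongCyc Pool.Agent.LCK

universe u

variable {V : Type u} {G : SimpleGraph V}

open Classical in
/-- number of common neighbours of `u` and `w` in `U` -/
noncomputable def cod (G : SimpleGraph V) (U : Finset V) (u w : V) : ℕ :=
  (U.filter fun y => G.Adj u y ∧ G.Adj w y).card

open Classical in
/-- number of pairs `(u, y)` of `U` with `x ~ u ~ y ~ w` -/
noncomputable def p3 (G : SimpleGraph V) (U : Finset V) (x w : V) : ℕ :=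
  ∑ u ∈ U.filter (fun u => G.Adj x u), cod G U u w

theorem noLong_of {r : ℕ} {S : Finset V} (h : ∀ C, CycSet G C → C ⊆ S → C.card < r) :
    NoLong G r S := by
  classical
  intro l hl hm
  have h1 := h l.toFinset (Cyc.cycSet hl) (fun x hx => hm x (List.mem_toFinset.1 hx))
  rwa [List.toFinset_card_of_nodup (Cyc.nodup hl)] at h1

theorem noLong_card {r : ℕ} {S : Finset V} (h : NoLong G r S) {C : Finset V}
    (hC : CycSet G C) (hCs : C ⊆ S) : C.card < r := by
  classical
  obtain ⟨l, hl, hs⟩ := hC
  rw [card_of_list (Cyc.nodup hl) hs]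
  exact h l hl fun x hx => hCs ((hs x).1 hx)

/-- a set that is not `NoLong` contains a long cycle -/
theorem exists_of_not_noLong {r : ℕ} {S : Finset V} (h : ¬ NoLong G r S) :
    ∃ C, CycSet G C ∧ C ⊆ S ∧ r ≤ C.card := by
  classical
  by_contra hcon
  push Not at hcon
  exact h (noLong_of hcon)

end Pool.Agent.FRC
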