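import Pool.Agent.FRC.Defs

set_option linter.all false

namespace Pool.Agent.FRC

open Pool.Agent.Helper14.LongCyc Pool.Agent.LCK

universe u v

theorem cod_le {V : Type u} {G : SimpleGraph V} (S : Finset V) (x w : V) : cod G S x w ≤ S.card := by
  classical
  unfold cod
  exact Finset.card_filter_le _ _

open Classical in
/-- inside a piece with a leaf part `D` attached at `c` there are few paths `x a b w` from `D` to
the rest -/
theorem p3_leaf {V : Type u} {G : SimpleGraph V} {S D : Finset V} {c : V} (hD : D ⊆ S)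
    (hcl : ∀ v ∈ D, ∀ x ∈ S, G.Adj v x → x ∈ D ∨ x = c)
    {x w : V} (hx : x ∈ D) (hw : w ∈ S) (hwD : w ∉ D) (hwc : w ≠ c) :
    p3 G S x w ≤ 2 * S.card := by
  have hDY : ∀ b ∈ D, ¬ G.Adj b w := by
    intro b hb hadj
    rcases hcl b hb w hw hadj with h | h
    · exact hwD h
    · exact hwc h
  have h1 : p3 G S x w ≤ ∑ a ∈ insert c D, (if a = c then S.card else 1) := by
    unfold p3
    have hsub : S.filter (fun a => G.Adj x a) ⊆ insert c D := by
      intro a ha
      rw [Finset.mem_filter] at ha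
      rw [Finset.mem_insert]
      exact (hcl x hx a ha.1 ha.2).symm
    refine le_trans (Finset.sum_le_sum (g := fun a => if a = c then S.card else 1) ?_)
      (Finset.sum_le_sum_of_subset hsub)
    intro a ha
    rw [Finset.mem_filter] at ha
    by_cases hac : a = c
    · rw [if_pos hac]; exact cod_le _ _ _
    · rw [if_neg hac]
      have haD : a ∈ D := (hcl x hx a ha.1 ha.2).resolve_right hac
      unfold cod
      have h2 : (S.filter fun b => G.Adj a b ∧ G.Adj w b) ⊆ {c} := by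
        intro b hb
        rw [Finset.mem_filter] at hb
        rw [Finset.mem_singleton]
        rcases hcl a haD b hb.1 hb.2.1 with h | h
        · exact absurd hb.2.2.symm (hDY b h)
        · exact h
      exact (Finset.card_le_card h2).trans (by simp)
  refine h1.trans ?_
  by_cases hcD : c ∈ D
  · rw [Finset.insert_eq_of_mem hcD, ← Finset.add_sum_erase D _ hcD, if_pos rfl]
    have h2 : ∑ a ∈ D.erase c, (if a = c then S.card else 1) ≤ (D.erase c).card := by
      refine (Finset.sum_le_card_nsmul _ _ 1 fun a ha => ?_).trans (by simp)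
      rw [if_neg (Finset.ne_of_mem_erase ha)]
    have h3 := Finset.card_le_card ((Finset.erase_subset c D).trans hD)
    omega
  · rw [Finset.sum_insert hcD, if_pos rfl]
    have h2 : ∑ a ∈ D, (if a = c then S.card else 1) ≤ D.card := by
      refine (Finset.sum_le_card_nsmul _ _ 1 fun a ha => ?_).trans (by simp)
      rw [if_neg (fun h : a = c => hcD (h ▸ ha))]
    have h3 := Finset.card_le_card hD
    omega

open Classical in
/-- R5a: the two sampling steps -/
theorem p3_small (k : ℕ) (hk : 1 ≤ k) (e : ℝ) (he : 0 < e) : ∃ ε : ℝ, 0 < ε ∧ ∃ n₀ : ℕ,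
    ∀ {V : Type u} (G : SimpleGraph V) (U V₁ D : Finset V) (c : V),
      n₀ ≤ U.card → V₁ ⊆ U → D ⊆ V₁ →
      (∀ v ∈ D, ∀ u ∈ V₁, G.Adj v u → u ∈ D ∨ u = c) →
      (∀ u ∈ U, ∀ w ∈ U, (cod G U u w : ℝ) / k - ε * U.card ≤ (cod G V₁ u w : ℝ)) →
      (∀ x ∈ U, ∀ w ∈ U, (p3 G U x w : ℝ) / k - ε * (U.card : ℝ) ^ 2 ≤
        ∑ u ∈ V₁.filter (fun u => G.Adj x u), (cod G U u w : ℝ)) →
      ∀ x ∈ D, ∀ w ∈ V₁, w ∉ D → w ≠ c → (p3 G U x w : ℝ) ≤ e * (U.card : ℝ) ^ 2 := by
  have hkpos : (0 : ℝ) < k := by exact_mod_cast hk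
  have hk1 : (1 : ℝ) ≤ k := by exact_mod_cast hk
  obtain ⟨N, hN⟩ := exists_nat_ge (4 * (k : ℝ) ^ 2 / e)
  refine ⟨e / (4 * (k : ℝ) ^ 2), by positivity, N, ?_⟩
  intro V G U S D c hn hSU hD hcl h2 h3 x hx w hw hwD hwc
  set ε : ℝ := e / (4 * (k : ℝ) ^ 2) with hε
  have hεpos : 0 < ε := by positivity
  have hxU := hSU (hD hx)
  have hwU := hSU hw
  set n : ℝ := (U.card : ℝ) with hndef
  have hNn : (N : ℝ) ≤ n := by rw [hndef]; exact_mod_cast hn
  have hn1 : 1 ≤ ε * n := by
    have h4 : 4 * (k : ℝ) ^ 2 / e ≤ n := hN.trans hNn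
    rw [div_le_iff₀ he] at h4
    rw [hε, div_mul_eq_mul_div, le_div_iff₀ (by positivity)]
    linarith
  have hn0 : 0 < n := by
    by_contra h
    push Not at h
    nlinarith
  have hSn : (S.card : ℝ) ≤ n := by rw [hndef]; exact_mod_cast Finset.card_le_card hSU
  -- in S
  have h4 : (p3 G S x w : ℝ) ≤ 2 * n := by
    have := p3_leaf (G := G) hD hcl hx hw hwD hwc
    have h5 : (p3 G S x w : ℝ) ≤ 2 * S.card := by exact_mod_cast this
    linarith
  -- second statistic
  have h5 : ∑ a ∈ S.filter (fun a => G.Adj x a), (cod G U a w : ℝ)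
      ≤ k * (p3 G S x w : ℝ) + k * ε * n * n := by
    have h6 : ∀ a ∈ S.filter (fun a => G.Adj x a), (cod G U a w : ℝ)
        ≤ k * (cod G S a w : ℝ) + k * ε * n := by
      intro a ha
      have h7 := h2 a (hSU (Finset.mem_filter.1 ha).1) w hwU
      have h8 : (cod G U a w : ℝ) / k ≤ cod G S a w + ε * n := by linarith
      rw [div_le_iff₀ hkpos] at h8
      linarith
    refine (Finset.sum_le_sum h6).trans ?_
    rw [Finset.sum_add_distrib, ← Finset.mul_sum, Finset.sum_const, nsmul_eq_mul]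
    have h7 : (p3 G S x w : ℝ)
        = ∑ a ∈ S.filter (fun a => G.Adj x a), (cod G S a w : ℝ) := by
      unfold p3; push_cast; rfl
    rw [h7]
    have h8 : ((S.filter fun a => G.Adj x a).card : ℝ) ≤ n := by
      refine le_trans ?_ hSn
      exact_mod_cast Finset.card_filter_le _ _
    have h9 : ((S.filter fun a => G.Adj x a).card : ℝ) * (k * ε * n) ≤ n * (k * ε * n) :=
      mul_le_mul_of_nonneg_right h8 (by positivity)
    linarith
  have h6 := h3 x hxU w hwU
  have h7 : (p3 G U x w : ℝ) / k ≤ (k * (2 * n) + k * ε * n * n) + ε * n ^ 2 := by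
    have := mul_le_mul_of_nonneg_left h4 hkpos.le
    linarith
  rw [div_le_iff₀ hkpos] at h7
  refine h7.trans ?_
  have h8 : n ≤ ε * n ^ 2 := by nlinarith
  have h9 : (k : ℝ) ≤ k ^ 2 := by nlinarith
  have h10 : 0 ≤ ε * n ^ 2 := by positivity
  have h11 : (k : ℝ) * (2 * n) * k ≤ 2 * k ^ 2 * (ε * n ^ 2) := by
    have := mul_le_mul_of_nonneg_left h8 (show (0:ℝ) ≤ 2 * k ^ 2 by positivity)
    linarith
  have h12 : ε * n ^ 2 * k ≤ k ^ 2 * (ε * n ^ 2) := by
    have := mul_le_mul_of_nonneg_right h9 h10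
    linarith
  have h13 : e * n ^ 2 = 4 * k ^ 2 * (ε * n ^ 2) := by
    rw [hε]; field_simp
  rw [h13]
  nlinarith

end Pool.Agent.FRC
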