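import Pool.Agent.FRC.Lin81

set_option linter.all false

/-!
# Row R4: sampling
-/

namespace Pool.Agent.FRC

open Finset

universe u v

/-- a quadratic times a decaying exponential is eventually small -/
theorem exp_small (K a : ℝ) (ha : 0 < a) : ∃ n₀ : ℕ, ∀ n : ℕ, n₀ ≤ n →
    K * (n : ℝ) ^ 2 * Real.exp (-(a * n)) < 1 := by
  have h1 : Filter.Tendsto (fun x : ℝ => x ^ 2 * Real.exp (-x)) Filter.atTop (nhds 0) :=
    Real.tendsto_pow_mul_exp_neg_atTop_nhds_zero 2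
  have h2 : Filter.Tendsto (fun n : ℕ => a * (n : ℝ)) Filter.atTop Filter.atTop :=
    Filter.Tendsto.const_mul_atTop ha tendsto_natCast_atTop_atTop
  have h3 := (h1.comp h2).const_mul (K / a ^ 2)
  rw [mul_zero] at h3
  have h4 := h3.eventually (gt_mem_nhds (show (0 : ℝ) < 1 by norm_num))
  obtain ⟨n₀, hn₀⟩ := Filter.eventually_atTop.1 h4
  refine ⟨n₀, fun n hn => ?_⟩
  have h5 := hn₀ n hn
  simp only [Function.comp] at h5
  have h6 : K / a ^ 2 * ((a * (n : ℝ)) ^ 2 * Real.exp (-(a * n))) =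
      K * (n : ℝ) ^ 2 * Real.exp (-(a * n)) := by
    field_simp
  rw [h6] at h5
  exact h5

/-- **Sampling.**  A large vertex set can be split into `k` classes of almost equal size such
that at most `3 n ^ 2` given linear statistics are distributed evenly. -/
theorem sampling (ε : ℝ) (hε : 0 < ε) (k : ℕ) (hk : 1 ≤ k) : ∃ n₀ : ℕ,
    ∀ {V : Type u} [DecidableEq V] {ι : Type v} (U : Finset V) (I : Finset ι) (f : ι → V → ℝ),
      n₀ ≤ U.card → I.card ≤ 3 * U.card ^ 2 → (∀ i ∈ I, ∀ v ∈ U, 0 ≤ f i v ∧ f i v ≤ 1) →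
      ∃ part : V → Fin k, (∀ j, U.card / k ≤ (U.filter fun v => part v = j).card) ∧
        ∀ i ∈ I, ∀ j, (∑ v ∈ U, f i v) / k - ε * U.card
          ≤ ∑ v ∈ U.filter (fun v => part v = j), f i v := by
  classical
  have hk0 : 0 < k := hk
  have hk1 : (1 : ℝ) ≤ k := by exact_mod_cast hk
  set ε' : ℝ := ε / (2 * k) with hε'
  have hε'0 : 0 < ε' := by positivity
  obtain ⟨n₁, hn₁⟩ := exp_small (4 * k) (ε' ^ 2 / 2) (by positivity)
  obtain ⟨n₂, hn₂⟩ := exists_nat_gt (2 / ε)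
  refine ⟨n₁ + n₂ + 1, ?_⟩
  intro V _ ι U I f hU hI hf
  have hn : (1 : ℝ) ≤ U.card := by
    have : 1 ≤ U.card := by omega
    exact_mod_cast this
  have hn2 : 2 ≤ ε * U.card := by
    have h1 : (n₂ : ℝ) ≤ U.card := by
      have : n₂ ≤ U.card := by omega
      exact_mod_cast this
    have h2 : 2 / ε < U.card := lt_of_lt_of_le hn₂ h1
    rw [div_lt_iff₀ hε] at h2
    linarith
  obtain ⟨g, hg1, hg2⟩ := bal_sample (k := k) hk0 hε'0 I f U hf (by
    have h1 := hn₁ U.card (by omega)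
    have h0 : (I.card : ℝ) ≤ 3 * (U.card : ℝ) ^ 2 := by exact_mod_cast hI
    have h2 : (I.card : ℝ) + 1 ≤ 4 * (U.card : ℝ) ^ 2 := by nlinarith
    have h3 : (0 : ℝ) < Real.exp (-(ε' ^ 2 * U.card / 2)) := Real.exp_pos _
    have h4 : ε' ^ 2 / 2 * (U.card : ℝ) = ε' ^ 2 * U.card / 2 := by ring
    rw [h4] at h1
    calc ((I.card : ℝ) + 1) * k * Real.exp (-(ε' ^ 2 * U.card / 2)) ≤
        4 * (U.card : ℝ) ^ 2 * k * Real.exp (-(ε' ^ 2 * U.card / 2)) := by gcongr
      _ = 4 * k * (U.card : ℝ) ^ 2 * Real.exp (-(ε' ^ 2 * U.card / 2)) := by ring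
      _ < 1 := h1)
  have herr : k * ε' * (U.card : ℝ) + 1 ≤ ε * U.card := by
    have : k * ε' = ε / 2 := by
      rw [hε']
      field_simp
    rw [this]
    linarith
  refine ⟨g, fun j => ?_, fun i hi j => ?_⟩
  · rw [hg1]
    unfold bsz
    omega
  · have := hg2 i hi j
    linarith

end Pool.Agent.FRC
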