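import Pool.Agent.LCK.Defs

set_option linter.all false

namespace Pool.Agent.FRC

open Pool.Agent.Helper14.LongCyc Pool.Agent.LCK

universe u

variable {V : Type u} {G : SimpleGraph V}

open Classical in
/-- number of pairs `(a, b)` of vertices of `U` with `x ~ a ~ b ~ w` -/
noncomputable def P3 (G : SimpleGraph V) (U : Finset V) (x w : V) : ℕ :=
  ∑ a ∈ U.filter (fun a => G.Adj x a), dg G (U.filter fun b => G.Adj w b) a

open Classical in
theorem P3_eq (U : Finset V) (x w : V) :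
    P3 G U x w = ∑ a ∈ U, ∑ b ∈ U,
      (if G.Adj a b then 1 else 0) * ((if G.Adj a x then 1 else 0) * (if G.Adj b w then 1 else 0)) := by
  unfold P3 dg
  rw [Finset.sum_filter]
  refine Finset.sum_congr rfl fun a _ => ?_
  rw [Finset.filter_filter, Finset.card_filter]
  by_cases h : G.Adj x a
  · rw [if_pos h]
    refine Finset.sum_congr rfl fun b _ => ?_
    have h' : G.Adj a x := h.symm
    by_cases h1 : G.Adj w b
    · have h1' : G.Adj b w := h1.symm
      by_cases h2 : G.Adj a b <;> simp [h', h1, h1', h2]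
    · have h1' : ¬ G.Adj b w := fun h => h1 h.symm
      simp [h1, h1']
  · rw [if_neg h]
    have h' : ¬ G.Adj a x := fun h1 => h h1.symm
    symm
    apply Finset.sum_eq_zero
    intro b _
    simp [h']

open Classical in
theorem sum_P3 (U D Y : Finset V) :
    ∑ x ∈ D, ∑ w ∈ Y, P3 G U x w
      = ∑ a ∈ U, ∑ b ∈ U, (if G.Adj a b then 1 else 0) * (dg G D a * dg G Y b) := by
  have h1 : ∀ x ∈ D, ∑ w ∈ Y, P3 G U x w = ∑ a ∈ U, ∑ b ∈ U,
      (if G.Adj a b then 1 else 0) * ((if G.Adj a x then 1 else 0) * dg G Y b) := by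
    intro x _
    simp only [P3_eq]
    rw [Finset.sum_comm]
    refine Finset.sum_congr rfl fun a _ => ?_
    rw [Finset.sum_comm]
    refine Finset.sum_congr rfl fun b _ => ?_
    rw [← Finset.mul_sum, ← Finset.mul_sum]
    congr 2
    unfold dg
    rw [Finset.card_filter]
  rw [Finset.sum_congr rfl h1, Finset.sum_comm]
  refine Finset.sum_congr rfl fun a _ => ?_
  rw [Finset.sum_comm]
  refine Finset.sum_congr rfl fun b _ => ?_
  rw [← Finset.mul_sum, ← Finset.sum_mul]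
  congr 2
  unfold dg
  rw [Finset.card_filter]

open Classical in
/-- few edges between the vertices seeing much of `D` and the vertices seeing much of `Y` -/
theorem eS_P3 {U D Y A B : Finset V} {t : ℝ} (ht : 0 ≤ t) (hA : A ⊆ U) (hB : B ⊆ U)
    (hAt : ∀ a ∈ A, t ≤ dg G D a) (hBt : ∀ b ∈ B, t ≤ dg G Y b) :
    t ^ 2 * (eS G A B : ℝ) ≤ ∑ x ∈ D, ∑ w ∈ Y, (P3 G U x w : ℝ) := by
  have h0 : (∑ x ∈ D, ∑ w ∈ Y, (P3 G U x w : ℝ))
      = ∑ a ∈ U, ∑ b ∈ U, (if G.Adj a b then (1:ℝ) else 0) * ((dg G D a : ℝ) * (dg G Y b : ℝ)) := by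
    have := sum_P3 (G := G) U D Y
    have h := congrArg (fun n : ℕ => (n : ℝ)) this
    simpa [Nat.cast_sum, Nat.cast_mul] using h
  rw [h0]
  have hnn : ∀ a b, 0 ≤ (if G.Adj a b then (1:ℝ) else 0) * ((dg G D a : ℝ) * (dg G Y b : ℝ)) := by
    intro a b
    by_cases h : G.Adj a b
    · simp only [if_pos h]; positivity
    · simp only [if_neg h]; simp
  have h1 : ∑ a ∈ A, ∑ b ∈ B, (if G.Adj a b then (1:ℝ) else 0) * ((dg G D a : ℝ) * (dg G Y b : ℝ))
      ≤ ∑ a ∈ U, ∑ b ∈ U, (if G.Adj a b then (1:ℝ) else 0) * ((dg G D a : ℝ) * (dg G Y b : ℝ)) := by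
    refine le_trans (Finset.sum_le_sum fun a _ =>
      Finset.sum_le_sum_of_subset_of_nonneg hB fun b _ _ => hnn a b) ?_
    exact Finset.sum_le_sum_of_subset_of_nonneg hA fun a _ _ => Finset.sum_nonneg fun b _ => hnn a b
  refine le_trans ?_ h1
  have h2 : (eS G A B : ℝ) = ∑ a ∈ A, ∑ b ∈ B, (if G.Adj a b then (1:ℝ) else 0) := by
    unfold eS dg
    push_cast [Finset.card_filter]
    rfl
  rw [h2, Finset.mul_sum]
  refine Finset.sum_le_sum fun a ha => ?_
  rw [Finset.mul_sum]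
  refine Finset.sum_le_sum fun b hb => ?_
  by_cases h : G.Adj a b
  · simp only [if_pos h]
    have := mul_le_mul (hAt a ha) (hBt b hb) ht (ht.trans (hAt a ha))
    nlinarith
  · simp only [if_neg h]; simp

/-- Markov: few vertices of `Z` have more than `q` neighbours in `W` -/
theorem bad_card {Z W S : Finset V} {q e : ℝ} (hq : 0 < q) (hS : S ⊆ Z)
    (hbad : ∀ v ∈ S, q ≤ dg G W v) (he : (eS G Z W : ℝ) ≤ e) : (S.card : ℝ) ≤ e / q := by
  rw [le_div_iff₀ hq]
  refine le_trans ?_ he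
  have h1 : (S.card : ℝ) * q = ∑ v ∈ S, q := by simp
  rw [h1]
  refine le_trans (Finset.sum_le_sum hbad) ?_
  unfold eS
  push_cast
  exact Finset.sum_le_sum_of_subset_of_nonneg hS fun _ _ _ => Nat.cast_nonneg _

/-- SEPARATION -/
theorem separation_real (C η : ℝ) (hC : 0 < C) (hη : 0 < η) :
    ∃ e1 : ℝ, 0 < e1 ∧ ∃ r0 : ℕ, ∀ {V : Type u} [DecidableEq V] (G : SimpleGraph V)
      (U D Y : Finset V) (r : ℕ) (d s : ℝ), r0 ≤ r → (r : ℝ) ≤ d → (r : ℝ) / 2 ≤ s →
      (U.card : ℝ) ≤ C * r → (∀ v ∈ U, d ≤ dg G U v) → D ⊆ U → Y ⊆ U →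
      s ≤ D.card → s ≤ Y.card → (∀ v ∈ U, s - 1 ≤ (dg G D v : ℝ) + dg G Y v) →
      (∀ x ∈ D, ∀ w ∈ Y, ¬ G.Adj x w) →
      (∀ x ∈ D, ∀ w ∈ Y, (P3 G U x w : ℝ) ≤ e1 * (U.card : ℝ) ^ 2) →
      ∃ A B : Finset V, A ⊆ U ∧ B ⊆ U ∧ Disjoint A B ∧ A.Nonempty ∧ B.Nonempty ∧
        ((U \ (A ∪ B)).card : ℝ) ≤ η * r ∧
        (∀ v ∈ A, (dg G U v : ℝ) - η * r ≤ dg G A v) ∧
        (∀ v ∈ B, (dg G U v : ℝ) - η * r ≤ dg G B v) := by
  -- constants
  obtain ⟨σ, hσ, hσ1, hσ2⟩ : ∃ σ : ℝ, 0 < σ ∧ σ * C < 1 / 2 ∧ 2 * (σ * C) ^ 2 + 2 * (σ * C) ≤ η := by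
    refine ⟨min (η / 4) (1 / 4) / C, by positivity, ?_, ?_⟩
    · rw [div_mul_cancel₀ _ hC.ne']
      have := min_le_right (η / 4) (1 / 4 : ℝ)
      linarith
    · rw [div_mul_cancel₀ _ hC.ne']
      have h1 := min_le_right (η / 4) (1 / 4 : ℝ)
      have h2 := min_le_left (η / 4) (1 / 4 : ℝ)
      have h3 : 0 < min (η / 4) (1 / 4 : ℝ) := by positivity
      nlinarith
  refine ⟨σ ^ 2 / (36 * C ^ 2), by positivity, 6, ?_⟩
  intro V _ G U D Y r d s hr hd hs hU hdeg hDU hYU hDs hYs hsum hDY hP3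
  classical
  have hr6 : (6 : ℝ) ≤ r := by exact_mod_cast hr
  have hs3 : 3 ≤ s := by linarith
  have hDne : D.Nonempty := by
    rw [← Finset.card_pos]
    have : (0 : ℝ) < D.card := by linarith
    exact_mod_cast this
  have hn : (0 : ℝ) < U.card := by
    have h1 : 0 < U.card := Finset.card_pos.2 (hDne.mono hDU)
    exact_mod_cast h1
  set n : ℝ := (U.card : ℝ) with hndef
  set A0 : Finset V := U.filter fun v => s / 3 ≤ (dg G D v : ℝ) with hA0
  set B0 : Finset V := U.filter fun v => s / 3 ≤ (dg G Y v : ℝ) with hB0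
  have hA0U : A0 ⊆ U := Finset.filter_subset _ _
  have hB0U : B0 ⊆ U := Finset.filter_subset _ _
  have hcov : ∀ v ∈ U, v ∈ A0 ∨ v ∈ B0 := by
    intro v hv
    by_contra hcon
    push Not at hcon
    have h1 : ¬ s / 3 ≤ (dg G D v : ℝ) := fun h => hcon.1 (Finset.mem_filter.2 ⟨hv, h⟩)
    have h2 : ¬ s / 3 ≤ (dg G Y v : ℝ) := fun h => hcon.2 (Finset.mem_filter.2 ⟨hv, h⟩)
    have h3 := hsum v hv
    push Not at h1 h2
    linarith
  -- few edges between A0 and B0
  have hE : (eS G A0 B0 : ℝ) ≤ σ ^ 2 * n ^ 2 := by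
    have h1 := eS_P3 (G := G) (U := U) (D := D) (Y := Y) (A := A0) (B := B0) (t := s / 3)
      (by linarith) hA0U hB0U (fun a ha => (Finset.mem_filter.1 ha).2)
      (fun b hb => (Finset.mem_filter.1 hb).2)
    have h2 : (∑ x ∈ D, ∑ w ∈ Y, (P3 G U x w : ℝ))
        ≤ (D.card : ℝ) * ((Y.card : ℝ) * (σ ^ 2 / (36 * C ^ 2) * n ^ 2)) := by
      have h3 : ∀ x ∈ D, ∑ w ∈ Y, (P3 G U x w : ℝ) ≤ (Y.card : ℝ) * (σ ^ 2 / (36 * C ^ 2) * n ^ 2) := by
        intro x hx
        refine (Finset.sum_le_card_nsmul Y _ _ fun w hw => hP3 x hx w hw).trans ?_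
        rw [nsmul_eq_mul]
      refine (Finset.sum_le_card_nsmul D _ _ h3).trans ?_
      rw [nsmul_eq_mul]
    have hDn : (D.card : ℝ) ≤ n := by rw [hndef]; exact_mod_cast Finset.card_le_card hDU
    have hYn : (Y.card : ℝ) ≤ n := by rw [hndef]; exact_mod_cast Finset.card_le_card hYU
    have h4 : (D.card : ℝ) * ((Y.card : ℝ) * (σ ^ 2 / (36 * C ^ 2) * n ^ 2))
        ≤ n * (n * (σ ^ 2 / (36 * C ^ 2) * n ^ 2)) := by
      gcongr
    have h5 : (s / 3) ^ 2 * (eS G A0 B0 : ℝ) ≤ n * (n * (σ ^ 2 / (36 * C ^ 2) * n ^ 2)) :=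
      h1.trans (h2.trans h4)
    -- n ≤ 2 C s
    have h6 : n ≤ 2 * C * s := by nlinarith
    have h7 : n ^ 2 ≤ 36 * C ^ 2 * (s / 3) ^ 2 := by
      have := pow_le_pow_left₀ hn.le h6 2
      nlinarith
    have h8 : n * (n * (σ ^ 2 / (36 * C ^ 2) * n ^ 2)) ≤ (s / 3) ^ 2 * (σ ^ 2 * n ^ 2) := by
      have h9 : n * (n * (σ ^ 2 / (36 * C ^ 2) * n ^ 2))
          = n ^ 2 * (σ ^ 2 * n ^ 2 / (36 * C ^ 2)) := by ring
      rw [h9]
      have h10 : n ^ 2 * (σ ^ 2 * n ^ 2 / (36 * C ^ 2))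
          ≤ (36 * C ^ 2 * (s / 3) ^ 2) * (σ ^ 2 * n ^ 2 / (36 * C ^ 2)) :=
        mul_le_mul_of_nonneg_right h7 (by positivity)
      refine h10.trans (le_of_eq ?_)
      field_simp
    have h11 : 0 < (s / 3) ^ 2 := by positivity
    exact le_of_mul_le_mul_left (h5.trans h8) h11
  have hq : 0 < σ * n := by positivity
  have hqdiv : σ ^ 2 * n ^ 2 / (σ * n) = σ * n := by
    field_simp
  have hqr : σ * n ≤ σ * C * r := by
    have := mul_le_mul_of_nonneg_left hU hσ.le
    linarith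
  set A2 : Finset V := (U \ B0).filter fun v => (dg G B0 v : ℝ) < σ * n with hA2
  set B2 : Finset V := (U \ A0).filter fun v => (dg G A0 v : ℝ) < σ * n with hB2
  set bA : Finset V := (U \ B0).filter fun v => ¬ (dg G B0 v : ℝ) < σ * n with hbA
  set bB : Finset V := (U \ A0).filter fun v => ¬ (dg G A0 v : ℝ) < σ * n with hbB
  have hbAcard : (bA.card : ℝ) ≤ σ * n := by
    have h1 : bA ⊆ A0 := by
      intro v hv
      have h2 := (Finset.mem_filter.1 hv).1
      rw [Finset.mem_sdiff] at h2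
      exact (hcov v h2.1).resolve_right h2.2
    have h3 := bad_card (G := G) (Z := A0) (W := B0) (S := bA) hq h1
      (fun v hv => not_lt.1 (Finset.mem_filter.1 hv).2) hE
    rwa [hqdiv] at h3
  have hbBcard : (bB.card : ℝ) ≤ σ * n := by
    have h1 : bB ⊆ B0 := by
      intro v hv
      have h2 := (Finset.mem_filter.1 hv).1
      rw [Finset.mem_sdiff] at h2
      exact (hcov v h2.1).resolve_left h2.2
    have hE' : (eS G B0 A0 : ℝ) ≤ σ ^ 2 * n ^ 2 := by rw [eS_comm]; exact hE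
    have h3 := bad_card (G := G) (Z := B0) (W := A0) (S := bB) hq h1
      (fun v hv => not_lt.1 (Finset.mem_filter.1 hv).2) hE'
    rwa [hqdiv] at h3
  have hZcard : ((A0 ∩ B0).card : ℝ) * d ≤ 2 * (σ ^ 2 * n ^ 2) := by
    have h1 : ((A0 ∩ B0).card : ℝ) * d ≤ ∑ v ∈ A0 ∩ B0, ((dg G A0 v : ℝ) + dg G B0 v) := by
      have h2 : ((A0 ∩ B0).card : ℝ) * d = ∑ v ∈ A0 ∩ B0, d := by simp
      rw [h2]
      refine Finset.sum_le_sum fun v hv => ?_
      have hvU : v ∈ U := hA0U (Finset.mem_inter.1 hv).1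
      refine (hdeg v hvU).trans ?_
      have h3 : dg G U v ≤ dg G A0 v + dg G B0 v := by
        refine (dg_mono (W' := A0 ∪ B0) ?_ v).trans (dg_union_le _ _ v)
        intro x hx
        rw [Finset.mem_union]
        exact hcov x hx
      exact_mod_cast h3
    refine h1.trans ?_
    rw [Finset.sum_add_distrib]
    have h4 : ∑ v ∈ A0 ∩ B0, (dg G A0 v : ℝ) ≤ eS G A0 B0 := by
      have h5 : eS G (A0 ∩ B0) A0 ≤ eS G A0 B0 := by
        rw [eS_comm A0 B0]
        exact eS_mono_left Finset.inter_subset_right _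
      have h6 : (∑ v ∈ A0 ∩ B0, (dg G A0 v : ℝ)) = (eS G (A0 ∩ B0) A0 : ℝ) := by
        unfold eS; push_cast; rfl
      rw [h6]; exact_mod_cast h5
    have h7 : ∑ v ∈ A0 ∩ B0, (dg G B0 v : ℝ) ≤ eS G A0 B0 := by
      have h5 : eS G (A0 ∩ B0) B0 ≤ eS G A0 B0 := eS_mono_left Finset.inter_subset_left _
      have h6 : (∑ v ∈ A0 ∩ B0, (dg G B0 v : ℝ)) = (eS G (A0 ∩ B0) B0 : ℝ) := by
        unfold eS; push_cast; rfl
      rw [h6]; exact_mod_cast h5
    linarith
  have hZ : ((A0 ∩ B0).card : ℝ) ≤ 2 * (σ * C) ^ 2 * r := by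
    have hrpos : (0 : ℝ) < r := by linarith
    have h1 : ((A0 ∩ B0).card : ℝ) * r ≤ 2 * (σ ^ 2 * n ^ 2) :=
      (mul_le_mul_of_nonneg_left hd (Nat.cast_nonneg _)).trans hZcard
    have h2 : n ^ 2 ≤ (C * r) ^ 2 := pow_le_pow_left₀ hn.le hU 2
    have h3 : 2 * (σ ^ 2 * n ^ 2) ≤ (2 * (σ * C) ^ 2 * r) * r := by
      have h4 : (2 * (σ * C) ^ 2 * r) * r = 2 * (σ ^ 2 * (C * r) ^ 2) := by ring
      rw [h4]
      gcongr
    exact le_of_mul_le_mul_right (h1.trans h3) hrpos
  have hA2U : A2 ⊆ U := (Finset.filter_subset _ _).trans Finset.sdiff_subset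
  have hB2U : B2 ⊆ U := (Finset.filter_subset _ _).trans Finset.sdiff_subset
  have hrest : U \ (A2 ∪ B2) ⊆ (A0 ∩ B0) ∪ (bA ∪ bB) := by
    intro v hv
    rw [Finset.mem_sdiff, Finset.mem_union, not_or] at hv
    obtain ⟨hvU, hvA, hvB⟩ := hv
    rw [Finset.mem_union, Finset.mem_union, Finset.mem_inter]
    by_cases h1 : v ∈ A0
    · by_cases h2 : v ∈ B0
      · exact Or.inl ⟨h1, h2⟩
      · right; left
        rw [hbA, Finset.mem_filter, Finset.mem_sdiff]
        refine ⟨⟨hvU, h2⟩, fun h3 => hvA ?_⟩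
        rw [hA2, Finset.mem_filter, Finset.mem_sdiff]
        exact ⟨⟨hvU, h2⟩, h3⟩
    · right; right
      rw [hbB, Finset.mem_filter, Finset.mem_sdiff]
      refine ⟨⟨hvU, h1⟩, fun h3 => hvB ?_⟩
      rw [hB2, Finset.mem_filter, Finset.mem_sdiff]
      exact ⟨⟨hvU, h1⟩, h3⟩
  have hrpos : (0 : ℝ) < r := by linarith
  have hfin : 2 * (σ * C) ^ 2 * r + 2 * (σ * C * r) ≤ η * r := by
    have := mul_le_mul_of_nonneg_right hσ2 hrpos.le
    linarith
  have hsq : 0 ≤ 2 * (σ * C) ^ 2 * r := by positivity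
  refine ⟨A2, B2, hA2U, hB2U, ?_, ?_, ?_, ?_, ?_, ?_⟩
  · rw [Finset.disjoint_left]
    intro v hvA hvB
    have h1 := (Finset.mem_filter.1 hvA).1
    have h2 := (Finset.mem_filter.1 hvB).1
    rw [Finset.mem_sdiff] at h1 h2
    rcases hcov v h1.1 with h | h
    · exact h2.2 h
    · exact h1.2 h
  · -- D meets A2
    by_contra hne
    rw [Finset.not_nonempty_iff_eq_empty] at hne
    have h1 : D ⊆ bA := by
      intro x hx
      have hxU := hDU hx
      have hxB : x ∉ B0 := by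
        intro h
        have h2 := (Finset.mem_filter.1 h).2
        have h3 : dg G Y x = 0 := by
          unfold dg
          rw [Finset.card_eq_zero, Finset.filter_eq_empty_iff]
          intro w hw
          exact hDY x hx w hw
        rw [h3] at h2
        push_cast at h2
        linarith
      rw [hbA, Finset.mem_filter, Finset.mem_sdiff]
      refine ⟨⟨hxU, hxB⟩, fun h3 => ?_⟩
      have : x ∈ A2 := by
        rw [hA2, Finset.mem_filter, Finset.mem_sdiff]
        exact ⟨⟨hxU, hxB⟩, h3⟩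
      rw [hne] at this
      exact absurd this (Finset.notMem_empty _)
    have h2 : (D.card : ℝ) ≤ bA.card := by exact_mod_cast Finset.card_le_card h1
    have h3 : σ * C * r < 1 / 2 * r := mul_lt_mul_of_pos_right hσ1 hrpos
    linarith
  · -- Y meets B2
    by_contra hne
    rw [Finset.not_nonempty_iff_eq_empty] at hne
    have h1 : Y ⊆ bB := by
      intro x hx
      have hxU := hYU hx
      have hxA : x ∉ A0 := by
        intro h
        have h2 := (Finset.mem_filter.1 h).2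
        have h3 : dg G D x = 0 := by
          unfold dg
          rw [Finset.card_eq_zero, Finset.filter_eq_empty_iff]
          intro w hw h4
          exact hDY w hw x hx h4.symm
        rw [h3] at h2
        push_cast at h2
        linarith
      rw [hbB, Finset.mem_filter, Finset.mem_sdiff]
      refine ⟨⟨hxU, hxA⟩, fun h3 => ?_⟩
      have : x ∈ B2 := by
        rw [hB2, Finset.mem_filter, Finset.mem_sdiff]
        exact ⟨⟨hxU, hxA⟩, h3⟩
      rw [hne] at this
      exact absurd this (Finset.notMem_empty _)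
    have h2 : (Y.card : ℝ) ≤ bB.card := by exact_mod_cast Finset.card_le_card h1
    have h3 : σ * C * r < 1 / 2 * r := mul_lt_mul_of_pos_right hσ1 hrpos
    linarith
  · have h1 : ((U \ (A2 ∪ B2)).card : ℝ) ≤ ((A0 ∩ B0).card : ℝ) + ((bA.card : ℝ) + bB.card) := by
      have h2 := (Finset.card_le_card hrest).trans (Finset.card_union_le _ _)
      have h3 := Finset.card_union_le bA bB
      have h4 : (U \ (A2 ∪ B2)).card ≤ (A0 ∩ B0).card + (bA.card + bB.card) := by omega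
      exact_mod_cast h4
    linarith
  · intro v hv
    have hvm := Finset.mem_filter.1 hv
    have h1 : dg G U v ≤ dg G A2 v + (dg G B0 v + bA.card) := by
      have h2 : U ⊆ A2 ∪ (B0 ∪ bA) := by
        intro x hx
        rw [Finset.mem_union, Finset.mem_union]
        by_cases h3 : x ∈ B0
        · exact Or.inr (Or.inl h3)
        · by_cases h4 : (dg G B0 x : ℝ) < σ * n
          · left
            rw [hA2, Finset.mem_filter, Finset.mem_sdiff]
            exact ⟨⟨hx, h3⟩, h4⟩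
          · right; right
            rw [hbA, Finset.mem_filter, Finset.mem_sdiff]
            exact ⟨⟨hx, h3⟩, h4⟩
      have h5 := (dg_mono h2 v).trans (dg_union_le (G := G) _ _ v)
      have h6 := dg_union_le (G := G) B0 bA v
      have h7 := dg_le (G := G) bA v
      omega
    have h8 : (dg G U v : ℝ) ≤ dg G A2 v + (dg G B0 v + bA.card) := by exact_mod_cast h1
    have h9 := hvm.2
    linarith
  · intro v hv
    have hvm := Finset.mem_filter.1 hv
    have h1 : dg G U v ≤ dg G B2 v + (dg G A0 v + bB.card) := by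
      have h2 : U ⊆ B2 ∪ (A0 ∪ bB) := by
        intro x hx
        rw [Finset.mem_union, Finset.mem_union]
        by_cases h3 : x ∈ A0
        · exact Or.inr (Or.inl h3)
        · by_cases h4 : (dg G A0 x : ℝ) < σ * n
          · left
            rw [hB2, Finset.mem_filter, Finset.mem_sdiff]
            exact ⟨⟨hx, h3⟩, h4⟩
          · right; right
            rw [hbB, Finset.mem_filter, Finset.mem_sdiff]
            exact ⟨⟨hx, h3⟩, h4⟩
      have h5 := (dg_mono h2 v).trans (dg_union_le (G := G) _ _ v)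
      have h6 := dg_union_le (G := G) A0 bB v
      have h7 := dg_le (G := G) bB v
      omega
    have h8 : (dg G U v : ℝ) ≤ dg G B2 v + (dg G A0 v + bB.card) := by exact_mod_cast h1
    have h9 := hvm.2
    linarith

end Pool.Agent.FRC
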