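import Pool.Agent.FRC.Defs
import Pool.Agent.FRC.Sep97

set_option linter.all false

namespace Pool.Agent.FRC

open Pool.Agent.Helper14.LongCyc Pool.Agent.LCK

universe u v

open Classical in
theorem P3_eq_p3 {V : Type u} {G : SimpleGraph V} (U : Finset V) (x w : V) :
    P3 G U x w = p3 G U x w := by
  unfold P3 p3
  refine Finset.sum_congr rfl fun a _ => ?_
  unfold dg cod
  rw [Finset.filter_filter]
  congr 1
  ext y
  simp only [Finset.mem_filter, and_comm]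

/-- R5, SEPARATION -/
theorem separation (C η : ℝ) (hη : 0 < η) : ∃ e : ℝ, 0 < e ∧ ∃ r₀ : ℕ,
    ∀ {V : Type u} [DecidableEq V] (G : SimpleGraph V) (U D Y : Finset V) (r : ℕ), r₀ ≤ r →
      (U.card : ℝ) ≤ C * r → (∀ u ∈ U, r ≤ dg G U u) → D ⊆ U → Y ⊆ U →
      r ≤ 2 * D.card → r ≤ 2 * Y.card → (∀ u ∈ U, r ≤ 2 * (dg G D u + dg G Y u + 1)) →
      (∀ x ∈ D, ∀ y ∈ Y, ¬ G.Adj x y) →
      (∀ x ∈ D, ∀ w ∈ Y, (p3 G U x w : ℝ) ≤ e * (U.card : ℝ) ^ 2) →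
      ∃ A B : Finset V, A ⊆ U ∧ B ⊆ U ∧ Disjoint A B ∧ A.Nonempty ∧ B.Nonempty ∧
        (∀ v ∈ A, (dg G U v : ℝ) - η * r ≤ (dg G A v : ℝ)) ∧
        (∀ v ∈ B, (dg G U v : ℝ) - η * r ≤ (dg G B v : ℝ)) ∧
        ((U \ (A ∪ B)).card : ℝ) ≤ η * r := by
  have hC : 0 < max C 1 := lt_of_lt_of_le one_pos (le_max_right _ _)
  obtain ⟨e, he, r0, h⟩ := separation_real.{u} (max C 1) η hC hη
  refine ⟨e, he, r0, ?_⟩
  intro V _ G U D Y r hr hU hdeg hDU hYU hD hY hsum hDY hp3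
  have hD' : (r : ℝ) ≤ 2 * D.card := by exact_mod_cast hD
  have hY' : (r : ℝ) ≤ 2 * Y.card := by exact_mod_cast hY
  obtain ⟨A, B, h1, h2, h3, h4, h5, h6, h7, h8⟩ := h G U D Y r (r : ℝ) ((r : ℝ) / 2) hr le_rfl
    le_rfl (hU.trans (mul_le_mul_of_nonneg_right (le_max_left _ _) (Nat.cast_nonneg _)))
    (fun v hv => by exact_mod_cast hdeg v hv) hDU hYU (by linarith) (by linarith)
    (fun v hv => by
      have h9 : (r : ℝ) ≤ 2 * (dg G D v + dg G Y v + 1) := by exact_mod_cast hsum v hv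
      linarith)
    hDY (fun x hx w hw => by rw [P3_eq_p3]; exact hp3 x hx w hw)
  exact ⟨A, B, h1, h2, h3, h4, h5, h7, h8, h6⟩

end Pool.Agent.FRC
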