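import Pool.Agent.FRC.FamU
import Pool.Agent.FRC.Greedy
import Pool.Agent.FRC.Cross

set_option linter.all false

/-!
Row R6b of THEOREM FR (helper93): two almost complete sides, `k = 3`.
-/

namespace Pool.Agent.FRC

open Pool.Agent.Helper14.LongCyc Pool.Agent.LCK

universe u v

/-- a bipartite relation without two disjoint pairs is a star -/
theorem star_of {V : Type u} {R : V → V → Prop} {A B : Finset V}
    (h : ∀ a₁ ∈ A, ∀ a₂ ∈ A, ∀ b₁ ∈ B, ∀ b₂ ∈ B, a₁ ≠ a₂ → b₁ ≠ b₂ → R a₁ b₁ → ¬ R a₂ b₂)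
    (x : V) : ∃ c : V, ∀ a ∈ A, ∀ b ∈ B, R a b → a = c ∨ b = c := by
  classical
  by_cases h0 : ∃ a ∈ A, ∃ b ∈ B, R a b
  · obtain ⟨a, ha, b, hb, hab⟩ := h0
    by_cases h1 : ∀ a' ∈ A, ∀ b' ∈ B, R a' b' → a' = a
    · exact ⟨a, fun a' ha' b' hb' hr => Or.inl (h1 a' ha' b' hb' hr)⟩
    · push Not at h1
      obtain ⟨a', ha', b', hb', hr', hne⟩ := h1
      have hbb : b' = b := by
        by_contra hbn
        exact h a ha a' ha' b hb b' hb' (Ne.symm hne) (Ne.symm hbn) hab hr'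
      subst hbb
      refine ⟨b', fun a'' ha'' b'' hb'' hr'' => ?_⟩
      by_contra hcon
      push Not at hcon
      have h2 : a'' = a := by
        by_contra han
        exact h a ha a'' ha'' b' hb' b'' hb'' (Ne.symm han) (Ne.symm hcon.2) hab hr''
      subst h2
      exact h a' ha' a'' ha b' hb' b'' hb'' hne (Ne.symm hcon.2) hr' hr''
  · push Not at h0
    exact ⟨x, fun a ha b hb hr => absurd hr (h0 a ha b hb)⟩

/-- degree inside `A \ {c}` when all neighbours in `U` lie in `A` or equal `c` -/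
theorem dg_erase_ge {V : Type u} [DecidableEq V] {G : SimpleGraph V} {U A : Finset V} {v c : V}
    (h : ∀ u ∈ U, G.Adj v u → u ∈ A ∨ u = c) : dg G U v ≤ dg G (A.erase c) v + 1 := by
  classical
  unfold dg
  have hsub : (U.filter fun u => G.Adj v u) ⊆ insert c ((A.erase c).filter fun u => G.Adj v u) := by
    intro u hu
    rw [Finset.mem_filter] at hu
    rw [Finset.mem_insert]
    by_cases huc : u = c
    · exact Or.inl huc
    · right
      rcases h u hu.1 hu.2 with h1 | h1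
      · exact Finset.mem_filter.2 ⟨Finset.mem_erase.2 ⟨huc, h1⟩, hu.2⟩
      · exact absurd h1 huc
  exact (Finset.card_le_card hsub).trans (Finset.card_insert_le _ _)

theorem close3 : ∃ r₀ : ℕ, ∀ {V : Type u} [DecidableEq V] (G : SimpleGraph V)
    (U A B : Finset V) (r : ℕ), r₀ ≤ r → A ⊆ U → B ⊆ U → Disjoint A B → A.Nonempty → B.Nonempty →
      (∀ v ∈ U, 2 * r ≤ dg G U v) →
      (∀ v ∈ A, (dg G U v : ℝ) - 1 / 100 * r ≤ (dg G A v : ℝ)) →
      (∀ v ∈ B, (dg G U v : ℝ) - 1 / 100 * r ≤ (dg G B v : ℝ)) →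
      ((U \ (A ∪ B)).card : ℝ) ≤ 1 / 100 * r → A.card < 2 * r → B.card < 2 * r →
      ∃ F, Fam G U (fun L => r ≤ L) F ∧ F.card = 3 := by
  classical
  obtain ⟨r₁, hr₁⟩ := cross3.{u}
  refine ⟨max r₁ 10, ?_⟩
  intro V _ G U A B r hr hAU hBU hAB hAne hBne hdeg hA hB hrest hAc hBc
  have hr1 : r₁ ≤ r := (le_max_left _ _).trans hr
  have hr10 : 10 ≤ r := (le_max_right _ _).trans hr
  have hr10' : (10 : ℝ) ≤ r := by exact_mod_cast hr10
  -- degrees inside the cores
  have hA' : ∀ v ∈ A, 199 * r ≤ 100 * dg G A v := by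
    intro v hv
    have h1 := hA v hv
    have h2 : (2 * r : ℝ) ≤ dg G U v := by exact_mod_cast hdeg v (hAU hv)
    have h3 : (199 * r : ℝ) ≤ 100 * dg G A v := by linarith
    exact_mod_cast h3
  have hB' : ∀ v ∈ B, 199 * r ≤ 100 * dg G B v := by
    intro v hv
    have h1 := hB v hv
    have h2 : (2 * r : ℝ) ≤ dg G U v := by exact_mod_cast hdeg v (hBU hv)
    have h3 : (199 * r : ℝ) ≤ 100 * dg G B v := by linarith
    exact_mod_cast h3
  have hR : 100 * (U \ (A ∪ B)).card ≤ r := by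
    have : (100 * (U \ (A ∪ B)).card : ℝ) ≤ r := by linarith
    exact_mod_cast this
  have hsum : ∀ v ∈ U, 199 * r ≤ 100 * (dg G A v + dg G B v) := by
    intro v hv
    have h1 := hdeg v hv
    have h2 : dg G U v ≤ dg G ((A ∪ B) ∪ (U \ (A ∪ B))) v := dg_mono (by
      intro x hx
      by_cases hx' : x ∈ A ∪ B
      · exact Finset.mem_union_left _ hx'
      · exact Finset.mem_union_right _ (Finset.mem_sdiff.2 ⟨hx, hx'⟩)) v
    have h3 := Pool.Agent.Helper14.LongCyc.dg_union_le (G := G) (A ∪ B) (U \ (A ∪ B)) v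
    have h4 := Pool.Agent.Helper14.LongCyc.dg_union_le (G := G) A B v
    have h5 := Pool.Agent.LCK.dg_le (G := G) (U \ (A ∪ B)) v
    omega
  -- the two sides
  set A₁ : Finset V := A ∪ ((U \ (A ∪ B)).filter fun v => 9 * r ≤ 10 * dg G A v) with hA₁
  set B₁ : Finset V := B ∪ ((U \ (A ∪ B)).filter fun v => ¬ 9 * r ≤ 10 * dg G A v) with hB₁
  have hA1U : A₁ ⊆ U := by
    intro x hx
    rcases Finset.mem_union.1 hx with h | h
    · exact hAU h
    · exact (Finset.mem_sdiff.1 (Finset.mem_filter.1 h).1).1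
  have hB1U : B₁ ⊆ U := by
    intro x hx
    rcases Finset.mem_union.1 hx with h | h
    · exact hBU h
    · exact (Finset.mem_sdiff.1 (Finset.mem_filter.1 h).1).1
  have hcov : ∀ x ∈ U, x ∈ A₁ ∨ x ∈ B₁ := by
    intro x hx
    by_cases h1 : x ∈ A
    · exact Or.inl (Finset.mem_union_left _ h1)
    by_cases h2 : x ∈ B
    · exact Or.inr (Finset.mem_union_left _ h2)
    have h3 : x ∈ U \ (A ∪ B) := Finset.mem_sdiff.2 ⟨hx, by
      rw [Finset.mem_union]; tauto⟩
    by_cases h4 : 9 * r ≤ 10 * dg G A x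
    · exact Or.inl (Finset.mem_union_right _ (Finset.mem_filter.2 ⟨h3, h4⟩))
    · exact Or.inr (Finset.mem_union_right _ (Finset.mem_filter.2 ⟨h3, h4⟩))
  have hdisj : Disjoint A₁ B₁ := by
    rw [Finset.disjoint_left]
    intro x hx hx'
    rcases Finset.mem_union.1 hx with h | h <;> rcases Finset.mem_union.1 hx' with h' | h'
    · exact Finset.disjoint_left.1 hAB h h'
    · exact (Finset.mem_sdiff.1 (Finset.mem_filter.1 h').1).2 (Finset.mem_union_left _ h)
    · exact (Finset.mem_sdiff.1 (Finset.mem_filter.1 h).1).2 (Finset.mem_union_right _ h')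
    · exact (Finset.mem_filter.1 h').2 (Finset.mem_filter.1 h).2
  have hA1 : ∀ v ∈ A₁, 9 * r ≤ 10 * dg G A v := by
    intro v hv
    rcases Finset.mem_union.1 hv with h | h
    · have := hA' v h
      omega
    · exact (Finset.mem_filter.1 h).2
  have hB1 : ∀ v ∈ B₁, 9 * r ≤ 10 * dg G B v := by
    intro v hv
    rcases Finset.mem_union.1 hv with h | h
    · have := hB' v h
      omega
    · have h1 := (Finset.mem_filter.1 h).2
      have h2 := hsum v (Finset.mem_sdiff.1 (Finset.mem_filter.1 h).1).1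
      omega
  by_cases hx : ∃ a₁ ∈ A₁, ∃ a₂ ∈ A₁, ∃ b₁ ∈ B₁, ∃ b₂ ∈ B₁, a₁ ≠ a₂ ∧ b₁ ≠ b₂ ∧
      G.Adj a₁ b₁ ∧ G.Adj a₂ b₂
  · obtain ⟨a₁, ha₁, a₂, ha₂, b₁, hb₁, b₂, hb₂, hane, hbne, h1, h2⟩ := hx
    obtain ⟨F, hF, hFc⟩ := hr₁ G A₁ A B₁ B r hr1 Finset.subset_union_left
      Finset.subset_union_left hdisj hAc hBc hA' hB' hA1 hB1 a₁ ha₁ a₂ ha₂ b₁ hb₁ b₂ hb₂
      hane hbne h1 h2
    exact ⟨F, hF.mono (Finset.union_subset hA1U hB1U) fun _ h => h, hFc⟩
  · obtain ⟨x, hxA⟩ := hAne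
    obtain ⟨c, hc⟩ := star_of (R := fun a b => G.Adj a b) (A := A₁) (B := B₁)
      (fun a₁ ha₁ a₂ ha₂ b₁ hb₁ b₂ hb₂ h1 h2 h3 h4 =>
        hx ⟨a₁, ha₁, a₂, ha₂, b₁, hb₁, b₂, hb₂, h1, h2, h3, h4⟩) x
    -- the two sides without the centre
    have degA : ∀ v ∈ A₁.erase c, 2 * r ≤ dg G (A₁.erase c) v + 1 := by
      intro v hv
      rw [Finset.mem_erase] at hv
      refine (hdeg v (hA1U hv.2)).trans (dg_erase_ge fun u hu huv => ?_)
      rcases hcov u hu with h | h
      · exact Or.inl h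
      · rcases hc v hv.2 u h huv with h' | h'
        · exact absurd h' hv.1
        · exact Or.inr h'
    have degB : ∀ v ∈ B₁.erase c, 2 * r ≤ dg G (B₁.erase c) v + 1 := by
      intro v hv
      rw [Finset.mem_erase] at hv
      refine (hdeg v (hB1U hv.2)).trans (dg_erase_ge fun u hu huv => ?_)
      rcases hcov u hu with h | h
      · rcases hc u h v hv.2 huv.symm with h' | h'
        · exact Or.inr h'
        · exact absurd h' hv.1
      · exact Or.inl h
    have neA : (A₁.erase c).Nonempty := by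
      have h1 := hA' x hxA
      have h2 := Pool.Agent.LCK.dg_le (G := G) A x
      have h3 : A.card ≤ A₁.card := Finset.card_le_card Finset.subset_union_left
      have h4 := Finset.pred_card_le_card_erase (s := A₁) (a := c)
      rw [← Finset.card_pos]
      omega
    have neB : (B₁.erase c).Nonempty := by
      obtain ⟨y, hy⟩ := hBne
      have h1 := hB' y hy
      have h2 := Pool.Agent.LCK.dg_le (G := G) B y
      have h3 : B.card ≤ B₁.card := Finset.card_le_card Finset.subset_union_left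
      have h4 := Finset.pred_card_le_card_erase (s := B₁) (a := c)
      rw [← Finset.card_pos]
      omega
    obtain ⟨F₁, hF₁, hc₁⟩ := greedy (G := G) (r := r) (by omega) 2 neA degA
    obtain ⟨F₂, hF₂, hc₂⟩ := greedy (G := G) (r := r) (by omega) 2 neB degB
    have hd : Disjoint (A₁.erase c) (B₁.erase c) :=
      Disjoint.mono (Finset.erase_subset _ _) (Finset.erase_subset _ _) hdisj
    obtain ⟨h1, h2⟩ := Fam.union hF₁ hF₂ hd
    obtain ⟨F, hF, hFc⟩ := Fam.take h1 (m := 3) (by omega)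
    exact ⟨F, hF.mono (Finset.union_subset ((Finset.erase_subset _ _).trans hA1U)
      ((Finset.erase_subset _ _).trans hB1U)) fun _ h => h, hFc⟩

end Pool.Agent.FRC
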