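import Pool.Agent.FRC.LemL
import Pool.Agent.FRC.Greedy
import Pool.Agent.FRC.Sampling
import Pool.Agent.FRC.PThree
import Pool.Agent.FRC.Separation
import Pool.Agent.FRC.Three

set_option linter.all false

namespace Pool.Agent.FRC

open Pool.Agent.Helper14.LongCyc Pool.Agent.LCK

universe u

/-- union of two families in disjoint sets -/
theorem d61_union {V : Type u} [DecidableEq V] {G : SimpleGraph V} {A B U : Finset V}
    {P : ℕ → Prop} {F F' : Finset (Finset V)} (hF : Fam G A P F) (hF' : Fam G B P F')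
    (hd : Disjoint A B) (hA : A ⊆ U) (hB : B ⊆ U) :
    Fam G U P (F ∪ F') ∧ (F ∪ F').card = F.card + F'.card := by
  have hdis : ∀ s ∈ F, ∀ t ∈ F', Disjoint s t := fun s hs t ht =>
    Finset.disjoint_of_subset_left (hF.sub s hs) (Finset.disjoint_of_subset_right (hF'.sub t ht) hd)
  have hne : Disjoint F F' := by
    rw [Finset.disjoint_left]
    intro s hs hs'
    have h1 := hdis s hs s hs'
    have h2 : s = ∅ := by simpa using h1
    have h3 := (hF.cyc s hs).three_le
    rw [h2] at h3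
    simp at h3
  refine ⟨⟨?_, ?_, ?_, ?_⟩, Finset.card_union_of_disjoint hne⟩
  · intro s hs
    rcases Finset.mem_union.1 hs with hs | hs
    · exact hF.cyc s hs
    · exact hF'.cyc s hs
  · intro s hs
    rcases Finset.mem_union.1 hs with hs | hs
    · exact (hF.sub s hs).trans hA
    · exact (hF'.sub s hs).trans hB
  · intro s hs
    rcases Finset.mem_union.1 hs with hs | hs
    · exact hF.len s hs
    · exact hF'.len s hs
  · intro s hs t ht hst
    rcases Finset.mem_union.1 hs with hs | hs <;> rcases Finset.mem_union.1 ht with ht | ht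
    · exact hF.disj s hs t ht hst
    · exact hdis s hs t ht
    · exact (hdis t ht s hs).symm
    · exact hF'.disj s hs t ht hst

/-- a subfamily of the wanted size -/
theorem d61_take {V : Type u} [DecidableEq V] {G : SimpleGraph V} {U : Finset V}
    {P : ℕ → Prop} {F : Finset (Finset V)} (hF : Fam G U P F) {k : ℕ} (hk : k ≤ F.card) :
    ∃ F', Fam G U P F' ∧ F'.card = k := by
  obtain ⟨F', hs, hc⟩ := Finset.exists_subset_card_eq hk
  exact ⟨F', ⟨fun s h => hF.cyc s (hs h), fun s h => hF.sub s (hs h), fun s h => hF.len s (hs h),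
    fun s h t h' hst => hF.disj s (hs h) t (hs h') hst⟩, hc⟩

/-- a long cycle in every class of a partition -/
theorem d61_classes {V : Type u} [DecidableEq V] {G : SimpleGraph V} {U : Finset V} {r k : ℕ}
    (part : V → Fin k) (h : ∀ j, ¬ NoLong G r (U.filter fun v => part v = j)) :
    ∃ F, Fam G U (fun L => r ≤ L) F ∧ F.card = k := by
  classical
  have h' : ∀ j, ∃ C, CycSet G C ∧ C ⊆ (U.filter fun v => part v = j) ∧ r ≤ C.card :=
    fun j => exists_of_not_noLong (h j)
  choose C hC hCs hCr using h'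
  have hdis : ∀ i j, i ≠ j → Disjoint (C i) (C j) := by
    intro i j hij
    rw [Finset.disjoint_left]
    intro v hv hv'
    have h1 := (Finset.mem_filter.1 (hCs i hv)).2
    have h2 := (Finset.mem_filter.1 (hCs j hv')).2
    exact hij (h1.symm.trans h2)
  have hinj : Function.Injective C := by
    intro i j hij
    by_contra hne
    have h1 := hdis i j hne
    rw [← hij] at h1
    have h2 : C i = ∅ := by simpa using h1
    have h3 := (hC i).three_le
    rw [h2] at h3
    simp at h3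
  refine ⟨Finset.univ.image C, ⟨?_, ?_, ?_, ?_⟩, ?_⟩
  · intro s hs
    obtain ⟨j, _, rfl⟩ := Finset.mem_image.1 hs
    exact hC j
  · intro s hs
    obtain ⟨j, _, rfl⟩ := Finset.mem_image.1 hs
    exact (hCs j).trans (Finset.filter_subset _ _)
  · intro s hs
    obtain ⟨j, _, rfl⟩ := Finset.mem_image.1 hs
    exact hCr j
  · intro s hs t ht hst
    obtain ⟨i, _, rfl⟩ := Finset.mem_image.1 hs
    obtain ⟨j, _, rfl⟩ := Finset.mem_image.1 ht
    exact hdis i j fun hij => hst (by rw [hij])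
  · rw [Finset.card_image_of_injective _ hinj, Finset.card_univ, Fintype.card_fin]

open Classical in
theorem d61_dg_sum {V : Type u} (G : SimpleGraph V) (W : Finset V) (u : V) :
    (dg G W u : ℝ) = ∑ v ∈ W, if G.Adj u v then (1 : ℝ) else 0 := by
  unfold dg
  rw [Finset.card_filter]
  push_cast
  rfl

open Classical in
theorem d61_cod_sum {V : Type u} (G : SimpleGraph V) (W : Finset V) (u w : V) :
    (cod G W u w : ℝ) = ∑ y ∈ W, if G.Adj u y ∧ G.Adj w y then (1 : ℝ) else 0 := by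
  unfold cod
  rw [Finset.card_filter]
  push_cast
  rfl

theorem d61_cod_le {V : Type u} (G : SimpleGraph V) (W : Finset V) (u w : V) :
    cod G W u w ≤ W.card := by
  classical
  unfold cod
  exact Finset.card_filter_le _ _

open Classical in
/-- the statistics used in the sampling lemma -/
noncomputable def d61_stat {V : Type u} (G : SimpleGraph V) (U : Finset V) (i : Fin 3 × (V × V))
    (v : V) : ℝ :=
  if i.1 = 0 then (if G.Adj i.2.1 v then 1 else 0)
    else if i.1 = 1 then (if G.Adj i.2.1 v ∧ G.Adj i.2.2 v then 1 else 0)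
    else (if G.Adj i.2.1 v then (cod G U v i.2.2 : ℝ) / U.card else 0)

theorem d61_stat_bd {V : Type u} (G : SimpleGraph V) (U : Finset V) (hU : 0 < U.card)
    (i : Fin 3 × (V × V)) (v : V) : 0 ≤ d61_stat G U i v ∧ d61_stat G U i v ≤ 1 := by
  have hUpos : (0 : ℝ) < U.card := by exact_mod_cast hU
  have h1 : (0 : ℝ) ≤ (cod G U v i.2.2 : ℝ) / U.card := by positivity
  have h2 : (cod G U v i.2.2 : ℝ) / U.card ≤ 1 := by
    rw [div_le_one hUpos]
    exact_mod_cast d61_cod_le G U v i.2.2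
  unfold d61_stat
  split_ifs <;> constructor <;> first | exact h1 | exact h2 | norm_num

theorem d61_stat_zero {V : Type u} (G : SimpleGraph V) (U W : Finset V) (u w : V) :
    ∑ v ∈ W, d61_stat G U (0, (u, w)) v = (dg G W u : ℝ) := by
  rw [d61_dg_sum]
  refine Finset.sum_congr rfl fun v _ => ?_
  unfold d61_stat
  rw [if_pos rfl]

theorem d61_stat_one {V : Type u} (G : SimpleGraph V) (U W : Finset V) (u w : V) :
    ∑ v ∈ W, d61_stat G U (1, (u, w)) v = (cod G W u w : ℝ) := by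
  rw [d61_cod_sum]
  refine Finset.sum_congr rfl fun v _ => ?_
  unfold d61_stat
  rw [if_neg (show ¬ ((1 : Fin 3) = 0) by decide), if_pos rfl]

open Classical in
theorem d61_stat_two {V : Type u} (G : SimpleGraph V) (U W : Finset V) (x w : V) :
    ∑ v ∈ W, d61_stat G U (2, (x, w)) v
      = (∑ u ∈ W.filter (fun u => G.Adj x u), (cod G U u w : ℝ)) / U.card := by
  rw [Finset.sum_filter, Finset.sum_div]
  refine Finset.sum_congr rfl fun v _ => ?_
  unfold d61_stat
  rw [if_neg (show ¬ ((2 : Fin 3) = 0) by decide), if_neg (show ¬ ((2 : Fin 3) = 1) by decide)]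
  split_ifs
  · rfl
  · simp

open Classical in
/-- the sampling lemma for degrees, codegrees and paths -/
theorem d61_sample (ε : ℝ) (hε : 0 < ε) (k : ℕ) (hk : 1 ≤ k) : ∃ n₀ : ℕ,
    ∀ {V : Type u} (G : SimpleGraph V) (U : Finset V), n₀ ≤ U.card →
      ∃ part : V → Fin k, (∀ j, U.card / k ≤ (U.filter fun v => part v = j).card) ∧
        (∀ u ∈ U, ∀ j, (dg G U u : ℝ) / k - ε * U.card
          ≤ (dg G (U.filter fun v => part v = j) u : ℝ)) ∧
        (∀ j, ∀ u ∈ U, ∀ w ∈ U, (cod G U u w : ℝ) / k - ε * U.card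
          ≤ (cod G (U.filter fun v => part v = j) u w : ℝ)) ∧
        (∀ j, ∀ x ∈ U, ∀ w ∈ U, (p3 G U x w : ℝ) / k - ε * (U.card : ℝ) ^ 2 ≤
          ∑ u ∈ (U.filter fun v => part v = j).filter (fun u => G.Adj x u),
            (cod G U u w : ℝ)) := by
  obtain ⟨n₂, hsam⟩ := sampling.{u, u} ε hε k hk
  refine ⟨max n₂ 1, ?_⟩
  intro V G U hn
  have hn2 : n₂ ≤ U.card := le_trans (le_max_left _ _) hn
  have hU1 : 1 ≤ U.card := le_trans (le_max_right _ _) hn
  have hUpos : (0 : ℝ) < U.card := by exact_mod_cast hU1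
  have hI : ((Finset.univ ×ˢ (U ×ˢ U) : Finset (Fin 3 × (V × V)))).card ≤ 3 * U.card ^ 2 := by
    rw [Finset.card_product, Finset.card_product, Finset.card_univ, Fintype.card_fin]
    apply le_of_eq
    ring
  obtain ⟨part, hp1, hp2⟩ := hsam U (Finset.univ ×ˢ (U ×ˢ U) : Finset (Fin 3 × (V × V)))
    (d61_stat G U) hn2 hI (fun i _ v _ => d61_stat_bd G U hU1 i v)
  refine ⟨part, ?_, ?_, ?_, ?_⟩
  · intro j
    convert hp1 j
  · intro u hu j
    have := hp2 (0, (u, u)) (by simp [hu]) j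
    rw [d61_stat_zero, d61_stat_zero] at this
    convert this
  · intro j u hu w hw
    have := hp2 (1, (u, w)) (by simp [hu, hw]) j
    rw [d61_stat_one, d61_stat_one] at this
    convert this
  · intro j x hx w hw
    have := hp2 (2, (x, w)) (by simp [hx, hw]) j
    rw [d61_stat_two, d61_stat_two] at this
    have h3 := mul_le_mul_of_nonneg_right this hUpos.le
    rw [div_mul_cancel₀ _ hUpos.ne'] at h3
    have e2 : ((∑ u ∈ U.filter (fun u => G.Adj x u), (cod G U u w : ℝ)) / U.card / k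
        - ε * U.card) * U.card
        = (p3 G U x w : ℝ) / k - ε * (U.card : ℝ) ^ 2 := by
      have e3 : (p3 G U x w : ℝ) = ∑ u ∈ U.filter (fun u => G.Adj x u), (cod G U u w : ℝ) := by
        unfold p3
        push_cast
        rfl
      rw [e3]
      field_simp
    rw [e2] at h3
    convert h3

open Classical in
/-- either `k` long cycles or a separation -/
theorem dense_sep (k : ℕ) (hk : 2 ≤ k) (C : ℕ) (η : ℝ) (hη : 0 < η) : ∃ r₀ : ℕ,
    ∀ {V : Type u} (G : SimpleGraph V) (U : Finset V) (r : ℕ), r₀ ≤ r →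
      k * r ≤ U.card → U.card ≤ C * r → (∀ v ∈ U, 2 * k * r ≤ 3 * dg G U v) →
      (∃ F, Fam G U (fun L => r ≤ L) F ∧ F.card = k) ∨
      ∃ A B : Finset V, A ⊆ U ∧ B ⊆ U ∧ Disjoint A B ∧ A.Nonempty ∧ B.Nonempty ∧
        (∀ v ∈ A, (dg G U v : ℝ) - η * r ≤ (dg G A v : ℝ)) ∧
        (∀ v ∈ B, (dg G U v : ℝ) - η * r ≤ (dg G B v : ℝ)) ∧
        ((U \ (A ∪ B)).card : ℝ) ≤ η * r := by
  obtain ⟨e, he, r₁, hsep⟩ := separation.{u} (C : ℝ) η hη
  obtain ⟨ε₁, hε₁, n₁, hp3⟩ := p3_small.{u} k (by omega) e he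
  obtain ⟨ε, hεdef⟩ : ∃ ε : ℝ, ε = min ε₁ (1 / (20 * ((C : ℝ) + 1))) := ⟨_, rfl⟩
  have hC1 : (0 : ℝ) < (C : ℝ) + 1 := by positivity
  have hε0 : 0 < ε := by
    rw [hεdef]
    exact lt_min hε₁ (by positivity)
  have hεle : ε ≤ ε₁ := by rw [hεdef]; exact min_le_left _ _
  have hεC : ε * C ≤ 1 / 20 := by
    have h1 : ε ≤ 1 / (20 * ((C : ℝ) + 1)) := by rw [hεdef]; exact min_le_right _ _
    have h2 : (0 : ℝ) ≤ C := by positivity
    calc ε * C ≤ 1 / (20 * ((C : ℝ) + 1)) * C := mul_le_mul_of_nonneg_right h1 h2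
      _ ≤ 1 / (20 * ((C : ℝ) + 1)) * (C + 1) := by
          apply mul_le_mul_of_nonneg_left (by linarith) (by positivity)
      _ = 1 / 20 := by field_simp
  obtain ⟨n₂, hsam⟩ := d61_sample.{u} ε hε0 k (by omega)
  refine ⟨max (max r₁ 4) (max n₁ n₂), ?_⟩
  intro V G U r hr hkr hCr hdeg
  have hr1 : r₁ ≤ r := le_trans (le_trans (le_max_left _ _) (le_max_left _ _)) hr
  have hr4 : 4 ≤ r := le_trans (le_trans (le_max_right _ _) (le_max_left _ _)) hr
  have hrn1 : n₁ ≤ r := le_trans (le_trans (le_max_left _ _) (le_max_right _ _)) hr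
  have hrn2 : n₂ ≤ r := le_trans (le_trans (le_max_right _ _) (le_max_right _ _)) hr
  have hrU : r ≤ U.card := by nlinarith
  obtain ⟨part, hp0, hp1, hp2, hp4⟩ := hsam G U (hrn2.trans hrU)
  by_cases hall : ∀ j, ¬ NoLong G r (U.filter fun v => part v = j)
  · exact Or.inl (d61_classes part hall)
  right
  push Not at hall
  obtain ⟨j, hj⟩ := hall
  set V₁ : Finset V := U.filter fun v => part v = j with hV₁
  have hV₁U : V₁ ⊆ U := Finset.filter_subset _ _
  have hcard : r ≤ V₁.card := by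
    refine le_trans ?_ (hp0 j)
    rw [Nat.le_div_iff_mul_le (by omega)]
    linarith
  have hkpos : (0 : ℝ) < k := by exact_mod_cast (by omega : 0 < k)
  have hrpos : (0 : ℝ) < r := by exact_mod_cast (by omega : 0 < r)
  have hdegU : ∀ u ∈ U, (2 : ℝ) / 3 * k * r ≤ (dg G U u : ℝ) := by
    intro u hu
    have h := hdeg u hu
    have h' : ((2 * k * r : ℕ) : ℝ) ≤ ((3 * dg G U u : ℕ) : ℝ) := by exact_mod_cast h
    push_cast at h'
    linarith
  have hCr' : (U.card : ℝ) ≤ C * r := by exact_mod_cast hCr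
  have hdeg1 : ∀ u ∈ U, r ≤ 2 * dg G V₁ u := by
    intro u hu
    have h1 := hp1 u hu j
    have h2 := hdegU u hu
    have h3 : (2 : ℝ) / 3 * r ≤ (dg G U u : ℝ) / k := by
      rw [le_div_iff₀ hkpos]
      linarith
    have h4 : ε * U.card ≤ 1 / 20 * r := by
      calc ε * U.card ≤ ε * (C * r) := mul_le_mul_of_nonneg_left hCr' hε0.le
        _ = ε * C * r := by ring
        _ ≤ 1 / 20 * r := mul_le_mul_of_nonneg_right hεC hrpos.le
    have h5 : (r : ℝ) ≤ 2 * (dg G V₁ u : ℝ) := by linarith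
    exact_mod_cast h5
  have hV₁ne : V₁.Nonempty := Finset.card_pos.1 (by omega)
  obtain ⟨D, c, hDne, hDV, hcV, hcD, hDr, hclos⟩ :=
    lemL (by omega : 3 ≤ r) hV₁ne hj fun v hv => hdeg1 v (hV₁U hv)
  obtain ⟨Y, hY⟩ : ∃ Y : Finset V, Y = (V₁ \ D).erase c := ⟨_, rfl⟩
  have hYV : Y ⊆ V₁ := by
    rw [hY]
    exact (Finset.erase_subset _ _).trans Finset.sdiff_subset
  have hcut : V₁ = insert c (D ∪ Y) := by
    ext v
    rw [hY]
    simp only [Finset.mem_insert, Finset.mem_union, Finset.mem_erase, Finset.mem_sdiff]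
    constructor
    · intro hv
      by_cases h1 : v = c
      · exact Or.inl h1
      · by_cases h2 : v ∈ D
        · exact Or.inr (Or.inl h2)
        · exact Or.inr (Or.inr ⟨h1, hv, h2⟩)
    · rintro (h | h | h)
      · rw [h]; exact hcV
      · exact hDV h
      · exact h.2.1
  have hDY : ∀ x ∈ D, ∀ y ∈ Y, ¬ G.Adj x y := by
    intro x hx y hy hxy
    rw [hY, Finset.mem_erase, Finset.mem_sdiff] at hy
    rcases hclos x hx y hy.2.1 hxy with h | h
    · exact hy.2.2 h
    · exact hy.1 h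
  have hdisDY : Disjoint D Y := by
    rw [hY, Finset.disjoint_left]
    intro v hv hv'
    rw [Finset.mem_erase, Finset.mem_sdiff] at hv'
    exact hv'.2.2 hv
  have hsplit : ∀ u, dg G V₁ u ≤ dg G D u + dg G Y u + 1 := by
    intro u
    rw [hcut, Finset.insert_eq]
    have h1 : dg G ({c} ∪ (D ∪ Y)) u ≤ dg G {c} u + dg G (D ∪ Y) u := by
      unfold dg
      rw [Finset.filter_union]
      exact Finset.card_union_le _ _
    have h2 : dg G {c} u ≤ 1 := by
      have := dg_le (G := G) {c} u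
      simpa using this
    have h3 : dg G (D ∪ Y) u = dg G D u + dg G Y u := dg_union hdisDY u
    omega
  have hself : ∀ (S : Finset V) (x : V), x ∈ S → dg G S x + 1 ≤ S.card := by
    intro S x hx
    have h1 : dg G S x ≤ (S.erase x).card := by
      unfold dg
      apply Finset.card_le_card
      intro y hy
      rw [Finset.mem_filter] at hy
      rw [Finset.mem_erase]
      exact ⟨fun h => G.loopless.irrefl x (h ▸ hy.2), hy.1⟩
    rw [Finset.card_erase_of_mem hx] at h1
    have := Finset.card_pos.2 ⟨x, hx⟩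
    omega
  have hDcard : r ≤ 2 * D.card := by
    obtain ⟨x, hx⟩ := hDne
    have h1 := hdeg1 x (hV₁U (hDV hx))
    have h2 := hsplit x
    have h3 : dg G Y x = 0 := by
      unfold dg
      rw [Finset.card_eq_zero, Finset.filter_eq_empty_iff]
      intro y hy
      exact hDY x hx y hy
    have h4 := hself D x hx
    omega
  have hYcard : r ≤ 2 * Y.card := by
    have hYne : Y.Nonempty := by
      rw [← Finset.card_pos]
      have h1 : V₁.card ≤ (D ∪ Y).card + 1 := by
        rw [hcut]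
        exact Finset.card_insert_le _ _
      have h2 := Finset.card_union_le D Y
      omega
    obtain ⟨y, hy⟩ := hYne
    have h1 := hdeg1 y (hV₁U (hYV hy))
    have h2 := hsplit y
    have h3 : dg G D y = 0 := by
      unfold dg
      rw [Finset.card_eq_zero, Finset.filter_eq_empty_iff]
      intro x hx h
      exact hDY x hx y hy h.symm
    have h4 := hself Y y hy
    omega
  have hp3' := hp3 G U V₁ D c (hrn1.trans hrU) hV₁U hDV hclos
    (fun u hu w hw => by
      have := hp2 j u hu w hw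
      have h2 : ε * U.card ≤ ε₁ * U.card := mul_le_mul_of_nonneg_right hεle (Nat.cast_nonneg _)
      linarith)
    (fun x hx w hw => by
      have := hp4 j x hx w hw
      have h2 : ε * (U.card : ℝ) ^ 2 ≤ ε₁ * (U.card : ℝ) ^ 2 :=
        mul_le_mul_of_nonneg_right hεle (sq_nonneg _)
      linarith)
  obtain ⟨A, B, h1, h2, h3, h4, h5, h6, h7, h8⟩ := hsep G U D Y r hr1 hCr'
    (fun u hu => by
      have := hdeg u hu
      nlinarith)
    (hDV.trans hV₁U) (hYV.trans hV₁U) hDcard hYcard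
    (fun u hu => by
      have h1 := hdeg1 u hu
      have h2 := hsplit u
      omega)
    hDY
    (fun x hx w hw => by
      have hw' := hw
      rw [hY, Finset.mem_erase, Finset.mem_sdiff] at hw'
      exact hp3' x hx w (hYV hw) hw'.2.2 hw'.1)
  exact ⟨A, B, h1, h2, h3, h4, h5, h6, h7, h8⟩

theorem dense_ne3 (k : ℕ) (hk : 2 ≤ k) (hk3 : k ≠ 3) (C : ℕ) : ∃ r₀ : ℕ,
    ∀ {V : Type u} [DecidableEq V] (G : SimpleGraph V) (U : Finset V) (r : ℕ), r₀ ≤ r →
      k * r ≤ U.card → U.card ≤ C * r → (∀ v ∈ U, 2 * k * r ≤ 3 * dg G U v) →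
      ∃ F, Fam G U (fun L => r ≤ L) F ∧ F.card = k := by
  obtain ⟨r₀, h⟩ := dense_sep.{u} k hk C (1 / 6) (by norm_num)
  refine ⟨max r₀ 4, ?_⟩
  intro V _ G U r hr hkr hCr hdeg
  have hr0 : r₀ ≤ r := (le_max_left _ _).trans hr
  have hr4 : 4 ≤ r := (le_max_right _ _).trans hr
  rcases h G U r hr0 hkr hCr hdeg with h1 | ⟨A, B, hA, hB, hd, hAn, hBn, hdA, hdB, _⟩
  · exact h1
  have key : ∀ S : Finset V, S ⊆ U →
      (∀ v ∈ S, (dg G U v : ℝ) - 1 / 6 * r ≤ (dg G S v : ℝ)) →
      ∀ v ∈ S, (k + 1) / 2 * r ≤ dg G S v + 1 := by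
    intro S hS hdS v hv
    have h1 := hdS v hv
    have h2 := hdeg v (hS hv)
    have h2' : ((2 * k * r : ℕ) : ℝ) ≤ ((3 * dg G U v : ℕ) : ℝ) := by exact_mod_cast h2
    push_cast at h2'
    have h3 : 6 * ((k + 1) / 2) + 1 ≤ 4 * k := by omega
    have h3' : ((6 * ((k + 1) / 2) + 1 : ℕ) : ℝ) ≤ ((4 * k : ℕ) : ℝ) := by exact_mod_cast h3
    have hr' : (0 : ℝ) ≤ r := Nat.cast_nonneg _
    have h4 : (((k + 1) / 2 * r : ℕ) : ℝ) ≤ ((dg G S v + 1 : ℕ) : ℝ) := by
      push_cast at h3' ⊢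
      push_cast
      nlinarith
    exact_mod_cast h4
  obtain ⟨F1, hF1, hc1⟩ := greedy hr4 ((k + 1) / 2) hAn (key A hA hdA)
  obtain ⟨F2, hF2, hc2⟩ := greedy hr4 ((k + 1) / 2) hBn (key B hB hdB)
  obtain ⟨hF, hc⟩ := d61_union hF1 hF2 hd hA hB
  exact d61_take hF (by omega)

theorem dense (k : ℕ) (hk : 2 ≤ k) (C : ℕ) : ∃ r₀ : ℕ,
    ∀ {V : Type u} [DecidableEq V] (G : SimpleGraph V) (U : Finset V) (r : ℕ), r₀ ≤ r →
      k * r ≤ U.card → U.card ≤ C * r → (∀ v ∈ U, 2 * k * r ≤ 3 * dg G U v) →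
      ∃ F, Fam G U (fun L => r ≤ L) F ∧ F.card = k := by
  by_cases hk3 : k = 3
  swap
  · exact dense_ne3 k hk hk3 C
  subst hk3
  obtain ⟨r₁, h1⟩ := dense_ne3.{u} 2 (le_refl 2) (by norm_num) C
  obtain ⟨r₂, h2⟩ := dense_sep.{u} 3 (by norm_num) C (1 / 100) (by norm_num)
  obtain ⟨r₃, h3⟩ := close3.{u}
  refine ⟨max (max r₁ r₂) (max r₃ 4), ?_⟩
  intro V inst G U r hr hkr hCr hdeg
  have hr1 : r₁ ≤ r := ((le_max_left _ _).trans (le_max_left _ _)).trans hr
  have hr2 : r₂ ≤ r := ((le_max_right _ _).trans (le_max_left _ _)).trans hr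
  have hr3 : r₃ ≤ r := ((le_max_left _ _).trans (le_max_right _ _)).trans hr
  have hr4 : 4 ≤ r := ((le_max_right _ _).trans (le_max_right _ _)).trans hr
  have hdeg' : ∀ v ∈ U, 2 * r ≤ dg G U v := by
    intro v hv
    have := hdeg v hv
    omega
  rcases h2 G U r hr2 hkr hCr hdeg with h | ⟨A, B, hA, hB, hd, hAn, hBn, hdA, hdB, hrest⟩
  · exact h
  have hr' : (0 : ℝ) ≤ r := Nat.cast_nonneg _
  -- one side carries two cycles
  have key : ∀ A B : Finset V, A ⊆ U → B ⊆ U → Disjoint A B → B.Nonempty →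
      (∀ v ∈ A, (dg G U v : ℝ) - 1 / 100 * r ≤ (dg G A v : ℝ)) →
      (∀ v ∈ B, (dg G U v : ℝ) - 1 / 100 * r ≤ (dg G B v : ℝ)) → 2 * r ≤ A.card →
      ∃ F, Fam G U (fun L => r ≤ L) F ∧ F.card = 3 := by
    intro A B hA hB hd hBn hdA hdB hcA
    obtain ⟨F1, hF1, hc1⟩ := h1 G A r hr1 hcA ((Finset.card_le_card hA).trans hCr) (by
      intro v hv
      have e1 := hdA v hv
      have e2 := hdeg' v (hA hv)
      have e2' : ((2 * r : ℕ) : ℝ) ≤ (dg G U v : ℝ) := by exact_mod_cast e2
      push_cast at e2'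
      have e3 : ((2 * 2 * r : ℕ) : ℝ) ≤ ((3 * dg G A v : ℕ) : ℝ) := by
        push_cast
        linarith
      exact_mod_cast e3)
    obtain ⟨F2, hF2, hc2⟩ := greedy hr4 1 hBn (by
      intro v hv
      have e1 := hdB v hv
      have e2 := hdeg' v (hB hv)
      have e2' : ((2 * r : ℕ) : ℝ) ≤ (dg G U v : ℝ) := by exact_mod_cast e2
      push_cast at e2'
      have e3 : ((1 * r : ℕ) : ℝ) ≤ ((dg G B v + 1 : ℕ) : ℝ) := by
        push_cast
        linarith
      exact_mod_cast e3)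
    obtain ⟨hF, hc⟩ := d61_union hF1 hF2 hd hA hB
    exact ⟨_, hF, by omega⟩
  by_cases hcA : 2 * r ≤ A.card
  · exact key A B hA hB hd hBn hdA hdB hcA
  by_cases hcB : 2 * r ≤ B.card
  · exact key B A hB hA hd.symm hAn hdB hdA hcB
  have hrest' : ((U \ (A ∪ B)).card : ℝ) ≤ 1 / 100 * r := by
    have key2 : ∀ i j : DecidableEq V,
        (@SDiff.sdiff (Finset V) (@Finset.instSDiff V i) U
          (@Union.union (Finset V) (@Finset.instUnion V i) A B)).card =
        (@SDiff.sdiff (Finset V) (@Finset.instSDiff V j) U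
          (@Union.union (Finset V) (@Finset.instUnion V j) A B)).card :=
      fun i j => by rw [Subsingleton.elim i j]
    rw [key2 inst (fun a b => Classical.propDecidable (a = b))]
    exact hrest
  exact h3 G U A B r hr3 hA hB hd hAn hBn hdeg' hdA hdB hrest' (by omega) (by omega)

end Pool.Agent.FRC
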