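import Pool.Agent.FRC.LemL

set_option linter.all false

/-!
# The edge bound of Erdos and Gallai

A region without cycles of length at least `r` has degree sum at most `(r - 1)` times its size.
-/

namespace Pool.Agent.FRC

open Pool.Agent.Helper14.LongCyc Pool.Agent.LCK

universe u

variable {V : Type*} {G : SimpleGraph V}

theorem dg_erase_self [DecidableEq V] (U : Finset V) (v : V) :
    dg G (U.erase v) v = dg G U v := by
  classical
  unfold dg
  congr 1
  ext u
  simp only [Finset.mem_filter, Finset.mem_erase]
  constructor
  · exact fun h => ⟨h.1.2, h.2⟩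
  · exact fun h => ⟨⟨h.2.ne.symm, h.1⟩, h.2⟩

theorem eg_aux {r : ℕ} (hr : 3 ≤ r) : ∀ (n : ℕ) (U : Finset V), U.card ≤ n → NoLong G r U →
    eS G U U ≤ (r - 1) * U.card := by
  classical
  intro n
  induction n with
  | zero =>
    intro U hn _
    have : U = ∅ := Finset.card_eq_zero.1 (Nat.le_zero.1 hn)
    subst this
    simp [eS]
  | succ n ih =>
    intro U hn hU
    rcases U.eq_empty_or_nonempty with rfl | hne
    · simp [eS]
    by_cases hlow : ∃ v ∈ U, 2 * dg G U v ≤ r - 1
    · obtain ⟨v, hv, hd⟩ := hlow
      have hc : (U.erase v).card = U.card - 1 := Finset.card_erase_of_mem hv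
      have hpos := Finset.card_pos.2 hne
      have h1 := ih (U.erase v) (by omega) (hU.mono (Finset.erase_subset _ _))
      have h2 : eS G U U = eS G (U.erase v ∪ {v}) (U.erase v ∪ {v}) := by
        congr 1 <;> (ext x; by_cases hx : x = v <;> simp [hx, hv])
      rw [eS_self_union (by simp)] at h2
      have h3 : eS G {v} {v} = 0 := by
        unfold eS dg
        simp
      have h4 : eS G (U.erase v) {v} = dg G U v := by
        rw [eS_comm]
        unfold eS
        rw [Finset.sum_singleton, dg_erase_self]
      rw [h3, h4] at h2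
      obtain ⟨m, hm⟩ : ∃ m, U.card = m + 1 := ⟨U.card - 1, by omega⟩
      rw [hc, hm, Nat.add_sub_cancel] at h1
      rw [hm, Nat.mul_succ]
      omega
    · push Not at hlow
      obtain ⟨D, c, hDne, hDU, hcU, hcD, hDr, hnb⟩ := leaf_piece hr hU hne (fun v hv => by
        have := hlow v hv
        omega)
      have hc : (U \ D).card = U.card - D.card := Finset.card_sdiff_of_subset hDU
      have hDpos := Finset.card_pos.2 hDne
      have hle := Finset.card_le_card hDU
      have h1 := ih (U \ D) (by omega) (hU.mono Finset.sdiff_subset)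
      have h2 : eS G U U = eS G (D ∪ U \ D) (D ∪ U \ D) := by
        rw [Finset.union_sdiff_of_subset hDU]
      rw [eS_self_union Finset.disjoint_sdiff] at h2
      have h3 : eS G D (U \ D) ≤ D.card := by
        unfold eS
        refine (Finset.sum_le_card_nsmul _ _ 1 fun a ha => ?_).trans (by simp)
        unfold dg
        rw [Finset.card_le_one]
        intro x hx y hy
        rw [Finset.mem_filter, Finset.mem_sdiff] at hx hy
        have hxc := (hnb a ha x hx.1.1 hx.2).resolve_left hx.1.2
        have hyc := (hnb a ha y hy.1.1 hy.2).resolve_left hy.1.2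
        rw [hxc, hyc]
      have h4 : eS G D D ≤ D.card * (D.card - 1) := by
        unfold eS
        refine (Finset.sum_le_card_nsmul _ _ (D.card - 1) fun a ha => ?_).trans (by simp)
        rw [← dg_erase_self]
        refine (dg_le _ _).trans ?_
        rw [Finset.card_erase_of_mem ha]
      have h5 : 2 * D.card + D.card * (D.card - 1) ≤ (r - 1) * D.card := by
        obtain ⟨d, hd⟩ : ∃ d, D.card = d + 1 := ⟨D.card - 1, by omega⟩
        rw [hd, Nat.add_sub_cancel]
        obtain ⟨s, hs⟩ : ∃ s, r = s + 1 := ⟨r - 1, by omega⟩
        rw [hs, Nat.add_sub_cancel]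
        have : d + 2 ≤ s := by omega
        nlinarith
      rw [hc] at h1
      have h6 : (r - 1) * U.card = (r - 1) * (U.card - D.card) + (r - 1) * D.card := by
        rw [← Nat.mul_add]
        congr 1
        omega
      omega

/-- Erdos and Gallai: the degree sum of a region without long cycles -/
theorem eg_sum {r : ℕ} (hr : 3 ≤ r) {U : Finset V} (hU : NoLong G r U) :
    eS G U U ≤ (r - 1) * U.card := eg_aux hr _ U le_rfl hU

/-- Erdos and Gallai (row R2) -/
theorem eg {V : Type u} [DecidableEq V] {G : SimpleGraph V} {r : ℕ} (hr : 3 ≤ r)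
    {S : Finset V} (hS : NoLong G r S) : eS G S S ≤ r * S.card :=
  (eg_sum hr hS).trans (Nat.mul_le_mul_right _ (Nat.sub_le _ _))

end Pool.Agent.FRC
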