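import Pool.Agent.FRC.Defs

set_option linter.all false

namespace Pool.Agent.FRC

open Pool.Agent.Helper14.LongCyc Pool.Agent.LCK

universe u

variable {V : Type u} {G : SimpleGraph V}

/-- two families living on disjoint sets -/
theorem Fam.union [DecidableEq V] {U₁ U₂ : Finset V} {P : ℕ → Prop} {F₁ F₂ : Finset (Finset V)}
    (h₁ : Fam G U₁ P F₁) (h₂ : Fam G U₂ P F₂) (hd : Disjoint U₁ U₂) :
    Fam G (U₁ ∪ U₂) P (F₁ ∪ F₂) ∧ (F₁ ∪ F₂).card = F₁.card + F₂.card := by
  classical
  have key : ∀ s ∈ F₁, ∀ t ∈ F₂, Disjoint s t := fun s hs t ht =>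
    Disjoint.mono (h₁.sub s hs) (h₂.sub t ht) hd
  have hne : ∀ s ∈ F₁, s ∉ F₂ := by
    intro s hs ht
    have h1 := key s hs s ht
    rw [disjoint_self] at h1
    have h2 := (h₁.cyc s hs).three_le
    rw [h1] at h2
    simp at h2
  refine ⟨⟨?_, ?_, ?_, ?_⟩, Finset.card_union_of_disjoint (Finset.disjoint_left.2 hne)⟩
  · intro s hs
    rcases Finset.mem_union.1 hs with h | h
    · exact h₁.cyc s h
    · exact h₂.cyc s h
  · intro s hs
    rcases Finset.mem_union.1 hs with h | h
    · exact (h₁.sub s h).trans Finset.subset_union_left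
    · exact (h₂.sub s h).trans Finset.subset_union_right
  · intro s hs
    rcases Finset.mem_union.1 hs with h | h
    · exact h₁.len s h
    · exact h₂.len s h
  · intro s hs t ht hst
    rcases Finset.mem_union.1 hs with h | h <;> rcases Finset.mem_union.1 ht with h' | h'
    · exact h₁.disj s h t h' hst
    · exact key s h t h'
    · exact (key t h' s h).symm
    · exact h₂.disj s h t h' hst

/-- a subfamily of prescribed size -/
theorem Fam.take {U : Finset V} {P : ℕ → Prop} {F : Finset (Finset V)}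
    (h : Fam G U P F) {m : ℕ} (hm : m ≤ F.card) : ∃ F', Fam G U P F' ∧ F'.card = m := by
  obtain ⟨F', hF', hc⟩ := Finset.exists_subset_card_eq hm
  exact ⟨F', ⟨fun s hs => h.cyc s (hF' hs), fun s hs => h.sub s (hF' hs),
    fun s hs => h.len s (hF' hs), fun s hs t ht => h.disj s (hF' hs) t (hF' ht)⟩, hc⟩

/-- one cycle in each of `k` disjoint sets -/
theorem Fam.ofParts [DecidableEq V] {U : Finset V} {P : ℕ → Prop} {k : ℕ} (S : Fin k → Finset V)
    (hS : ∀ j, S j ⊆ U) (hd : ∀ i j, i ≠ j → Disjoint (S i) (S j))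
    (hC : ∀ j, ∃ C, CycSet G C ∧ C ⊆ S j ∧ P C.card) : ∃ F, Fam G U P F ∧ F.card = k := by
  classical
  choose C h1 h2 h3 using hC
  have hinj : Function.Injective C := by
    intro i j hij
    by_contra hne
    have := Disjoint.mono (h2 i) (h2 j) (hd i j hne)
    rw [← hij, disjoint_self] at this
    have h4 := (h1 i).three_le
    rw [this] at h4
    simp at h4
  refine ⟨Finset.univ.image C, ⟨?_, ?_, ?_, ?_⟩, ?_⟩
  · intro s hs
    obtain ⟨i, _, rfl⟩ := Finset.mem_image.1 hs
    exact h1 i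
  · intro s hs
    obtain ⟨i, _, rfl⟩ := Finset.mem_image.1 hs
    exact (h2 i).trans (hS i)
  · intro s hs
    obtain ⟨i, _, rfl⟩ := Finset.mem_image.1 hs
    exact h3 i
  · intro s hs t ht hst
    obtain ⟨i, _, rfl⟩ := Finset.mem_image.1 hs
    obtain ⟨j, _, rfl⟩ := Finset.mem_image.1 ht
    exact Disjoint.mono (h2 i) (h2 j) (hd i j fun h => hst (by rw [h]))
  · rw [Finset.card_image_of_injective _ hinj, Finset.card_univ, Fintype.card_fin]

end Pool.Agent.FRC
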