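import Pool.Agent.LCK.Main
import Pool.Agent.Helper14.LongCyc.Main

set_option linter.all false

namespace Pool.Agent.FRC

open Pool.Agent.LCK Pool.Agent.Helper14.LongCyc

universe u

/-- the statement for all large `r`, `k` fixed -/
def ThmR (k : ℕ) : Prop := ∃ r₀ : ℕ, ∀ {V : Type u} [DecidableEq V] (G : SimpleGraph V)
  (U : Finset V) (r : ℕ), r₀ ≤ r → k * r ≤ U.card → (∀ v ∈ U, 2 * k * r ≤ 3 * dg G U v) →
    ∃ F, Fam G U (fun L => r ≤ L) F ∧ F.card = k

/-- the statement for all large `r` and `|U| ≤ C r`, `k` and `C` fixed -/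
def Dense (k C : ℕ) : Prop := ∃ r₀ : ℕ, ∀ {V : Type u} [DecidableEq V] (G : SimpleGraph V)
  (U : Finset V) (r : ℕ), r₀ ≤ r → k * r ≤ U.card → U.card ≤ C * r →
    (∀ v ∈ U, 2 * k * r ≤ 3 * dg G U v) → ∃ F, Fam G U (fun L => r ≤ L) F ∧ F.card = k

/-- the statement for all large `r` and `C r ≤ |U|`, `k` fixed, `C` a large constant -/
def Sparse (k : ℕ) : Prop := ∃ C r₀ : ℕ, ∀ {V : Type u} [DecidableEq V] (G : SimpleGraph V)
  (U : Finset V) (r : ℕ), r₀ ≤ r → C * r ≤ U.card →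
    (∀ v ∈ U, 2 * k * r ≤ 3 * dg G U v) → ∃ F, Fam G U (fun L => r ≤ L) F ∧ F.card = k

theorem thmR_of {k : ℕ} (hD : ∀ C, Dense.{u} k C) (hS : Sparse.{u} k) : ThmR.{u} k := by
  obtain ⟨C, r1, h1⟩ := hS
  obtain ⟨r2, h2⟩ := hD C
  refine ⟨max r1 r2, ?_⟩
  intro V _ G U r hr hU hdeg
  rcases le_total U.card (C * r) with hc | hc
  · exact h2 G U r ((le_max_right _ _).trans hr) hU hc hdeg
  · exact h1 G U r ((le_max_left _ _).trans hr) hc hdeg

theorem exists_bound (P : ℕ → ℕ → Prop) (hP : ∀ i, ∃ n, P i n)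
    (hm : ∀ i n n', n ≤ n' → P i n → P i n') (K : ℕ) : ∃ N, ∀ i < K, P i N := by
  induction K with
  | zero => exact ⟨0, fun i hi => absurd hi (Nat.not_lt_zero i)⟩
  | succ K ih =>
    obtain ⟨N, hN⟩ := ih
    obtain ⟨n, hn⟩ := hP K
    refine ⟨max N n, fun i hi => ?_⟩
    rcases Nat.lt_succ_iff_lt_or_eq.1 hi with h | h
    · exact hm i _ _ (le_max_left _ _) (hN i h)
    · subst h
      exact hm i _ _ (le_max_right _ _) hn

theorem final_of (hR : ∀ k, 2 ≤ k → ThmR.{u} k) : ∃ N₀ : ℕ, ∀ k r : ℕ, 2 ≤ k → 4 ≤ r →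
    ∀ (V : Type u) [Fintype V] (G : SimpleGraph V) [DecidableRel G.Adj],
      k * r ≤ Fintype.card V → N₀ ≤ Fintype.card V →
      (2 / 3 : ℝ) * k * r ≤ (G.minDegree : ℝ) →
        ∃ (a : Fin k → V) (c : (i : Fin k) → G.Walk (a i) (a i)),
          (∀ i, (c i).IsCycle ∧ r ≤ (c i).length) ∧
          ∀ i j, i ≠ j → ∀ x, x ∈ (c i).support → x ∉ (c j).support := by
  obtain ⟨K, hK⟩ := main_min.{u} 1 one_pos
  -- large r
  obtain ⟨R, hRR⟩ := exists_bound (fun k R => 2 ≤ k → ∀ r, R ≤ r →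
      ∀ (V : Type u) [Fintype V] (G : SimpleGraph V) [DecidableRel G.Adj],
      k * r ≤ Fintype.card V → (2 / 3 : ℝ) * k * r ≤ (G.minDegree : ℝ) →
        ∃ (a : Fin k → V) (c : (i : Fin k) → G.Walk (a i) (a i)),
          (∀ i, (c i).IsCycle ∧ r ≤ (c i).length) ∧
          ∀ i j, i ≠ j → ∀ x, x ∈ (c i).support → x ∉ (c j).support) (by
    intro k
    by_cases hk : 2 ≤ k
    · obtain ⟨r0, h0⟩ := hR k hk
      refine ⟨r0, fun _ r hr V _ G _ hcard hdeg => ?_⟩
      classical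
      obtain ⟨F, hF, hFk⟩ := h0 G Finset.univ r hr (by simpa using hcard) (by
        intro v _
        have h1 : G.minDegree ≤ G.degree v := G.minDegree_le_degree v
        have h2 : dg G Finset.univ v = G.degree v := by
          rw [dg_eq_card, ← SimpleGraph.card_neighborFinset_eq_degree]
          congr 1
          ext w
          simp
        rw [h2]
        have h3 : (G.minDegree : ℝ) ≤ (G.degree v : ℝ) := by exact_mod_cast h1
        have h4 : ((2 * k * r : ℕ) : ℝ) ≤ ((3 * G.degree v : ℕ) : ℝ) := by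
          push_cast
          linarith
        exact_mod_cast h4)
      exact hF.walks (fun n hn => hn) hFk
    · exact ⟨0, fun h => absurd h hk⟩) (by
    intro k n n' hn h hk r hr
    exact h hk r (hn.trans hr)) K
  -- small k, small r
  obtain ⟨N, hN⟩ := exists_bound (fun k N => ∀ r, r < R → 2 ≤ k → 4 ≤ r →
      ∀ (V : Type u) [Fintype V] (G : SimpleGraph V) [DecidableRel G.Adj],
      N ≤ Fintype.card V → (2 / 3 : ℝ) * k * r ≤ (G.minDegree : ℝ) →
        ∃ (a : Fin k → V) (c : (i : Fin k) → G.Walk (a i) (a i)),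
          (∀ i, (c i).IsCycle ∧ r ≤ (c i).length) ∧
          ∀ i j, i ≠ j → ∀ x, x ∈ (c i).support → x ∉ (c j).support) (by
    intro k
    obtain ⟨N, hN⟩ := exists_bound (fun r N => 2 ≤ k → 4 ≤ r →
      ∀ (V : Type u) [Fintype V] (G : SimpleGraph V) [DecidableRel G.Adj],
      N ≤ Fintype.card V → (2 / 3 : ℝ) * k * r ≤ (G.minDegree : ℝ) →
        ∃ (a : Fin k → V) (c : (i : Fin k) → G.Walk (a i) (a i)),
          (∀ i, (c i).IsCycle ∧ r ≤ (c i).length) ∧
          ∀ i j, i ≠ j → ∀ x, x ∈ (c i).support → x ∉ (c j).support) (by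
      intro r
      by_cases hk : 2 ≤ k
      · by_cases hr : 4 ≤ r
        · obtain ⟨n0, h0⟩ := Pool.Agent.Helper14.LongCyc.main.{u} k r hk (by omega)
          exact ⟨n0, fun _ _ => h0⟩
        · exact ⟨0, fun _ h => absurd h hr⟩
      · exact ⟨0, fun h => absurd h hk⟩) (by
      intro r n n' hn h hk hr V _ G _ hcard
      exact h hk hr V G (hn.trans hcard)) R
    exact ⟨N, fun r hr => hN r hr⟩) (by
    intro k n n' hn h r hr hk hr4 V _ G _ hcard
    exact h r hr hk hr4 V G (hn.trans hcard)) K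
  refine ⟨N, ?_⟩
  intro k r hk hr V _ G _ hcard hN0 hdeg
  rcases Nat.lt_or_ge k K with hkK | hkK
  · rcases Nat.lt_or_ge r R with hrR | hrR
    · exact hN k hkK r hrR hk hr V G hN0 hdeg
    · exact hRR k hkK hk r hrR V G hcard hdeg
  · exact hK k r hkK hr V G hcard ((min_le_right _ _).trans hdeg)

end Pool.Agent.FRC
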