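import Pool.Agent.FRC.Rot
import Pool.Agent.LCK.Defs
import Pool.Agent.Helper14.LongCyc.Piece

set_option linter.all false

/-!
# The leaf piece lemma

A nonempty region without cycles of length at least `r` in which every vertex has at least
`r / 2` neighbours contains a set `D` with at most `r - 2` vertices whose neighbours outside `D`
are all equal to one vertex `c`.
-/

namespace Pool.Agent.FRC

open Pool.Agent.Helper14.LongCyc Pool.Agent.LCK

universe u

variable {V : Type*} {G : SimpleGraph V}

theorem dT_eq_dg (T : Finset V) (x : V) : dT G T x = dg G T x := rfl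

/-- the starts of Hamilton paths of `G[T]` ending at `c` -/
def St (G : SimpleGraph V) (T : Finset V) (m : ℕ) (c x : V) : Prop :=
  ∃ w, Lst T m w ∧ Ch G m w ∧ w 0 = x ∧ w (m - 1) = c

/-- one half of the structure claim -/
theorem half {T : Finset V} {m : ℕ} {v : ℕ → V} (hv : Lst T m v) (hch : Ch G m v)
    (hd : ∀ x y, St G T m (v (m - 1)) x → St G T m (v (m - 1)) y → m + 1 ≤ dT G T x + dT G T y)
    (h0 : St G T m (v (m - 1)) (v 0)) {i : ℕ} (hi : i + 2 < m)
    (hs : St G T m (v (m - 1)) (v i)) (hs' : St G T m (v (m - 1)) (v (i + 1))) :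
    ∀ j, j ≤ i → St G T m (v (m - 1)) (v j) := by
  classical
  intro j0 hj0
  by_contra hcon
  -- the largest bad index at most `i`
  obtain ⟨j, hj, hjb, hjmax⟩ : ∃ j, j ≤ i ∧ ¬ St G T m (v (m - 1)) (v j) ∧
      ∀ l, j < l → l ≤ i → St G T m (v (m - 1)) (v l) := by
    set B := (Finset.range (i + 1)).filter fun l => ¬ St G T m (v (m - 1)) (v l) with hB
    have hne : B.Nonempty :=
      ⟨j0, Finset.mem_filter.2 ⟨Finset.mem_range.2 (by omega), hcon⟩⟩
    refine ⟨Finset.max' _ hne, ?_, ?_, ?_⟩
    · have := Finset.mem_filter.1 (Finset.max'_mem _ hne)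
      have := Finset.mem_range.1 this.1
      omega
    · exact (Finset.mem_filter.1 (Finset.max'_mem _ hne)).2
    · intro l hl hli
      by_contra hc
      have hlB : l ∈ B := Finset.mem_filter.2 ⟨Finset.mem_range.2 (by omega), hc⟩
      have := Finset.le_max' _ l hlB
      omega
  have hji : j < i := by
    rcases Nat.lt_or_ge j i with h | h
    · exact h
    · exact absurd hs (by rwa [show i = j by omega])
  have hj1 : St G T m (v (m - 1)) (v (j + 1)) := hjmax (j + 1) (by omega) (by omega)
  apply hjb
  set S := T.filter fun x => St G T m (v (m - 1)) x with hS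
  -- the virtual Hamilton path
  let w : ℕ → V := fun t => if t ≤ j then v (j - t) else if t ≤ i then v (i + j + 1 - t) else v t
  have w1 : ∀ t, t ≤ j → w t = v (j - t) := fun t ht => if_pos ht
  have w2 : ∀ t, j < t → t ≤ i → w t = v (i + j + 1 - t) := fun t ht ht' => by
    show (if t ≤ j then _ else _) = _
    rw [if_neg (by omega), if_pos ht']
  have w3 : ∀ t, i < t → w t = v t := fun t ht => by
    show (if t ≤ j then _ else _) = _
    rw [if_neg (by omega), if_neg (by omega)]
  have wl : Lst T m w := by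
    have key : ∀ t, t < m → ∃ s, s < m ∧ w t = v s ∧
        (s = if t ≤ j then j - t else if t ≤ i then i + j + 1 - t else t) := by
      intro t ht
      by_cases a1 : t ≤ j
      · exact ⟨j - t, by omega, w1 t a1, by rw [if_pos a1]⟩
      by_cases a2 : t ≤ i
      · exact ⟨i + j + 1 - t, by omega, w2 t (by omega) a2, by rw [if_neg a1, if_pos a2]⟩
      · exact ⟨t, ht, w3 t (by omega), by rw [if_neg a1, if_neg a2]⟩
    refine ⟨?_, ?_, ?_⟩
    · intro t ht
      obtain ⟨s, hs, he, _⟩ := key t ht
      rw [he]; exact hv.mem s hs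
    · intro t t' ht ht' htt
      obtain ⟨s, hs, he, hse⟩ := key t ht
      obtain ⟨s', hs', he', hse'⟩ := key t' ht'
      rw [he, he'] at htt
      have := hv.inj s s' hs hs' htt
      rw [hse, hse'] at this
      split_ifs at this <;> omega
    · intro x hx
      obtain ⟨s, hs, hsx⟩ := hv.sur x hx
      by_cases a1 : s ≤ j
      · exact ⟨j - s, by omega, by rw [w1 _ (by omega), show j - (j - s) = s by omega]; exact hsx⟩
      by_cases a2 : s ≤ i
      · exact ⟨i + j + 1 - s, by omega, by
          rw [w2 _ (by omega) (by omega), show i + j + 1 - (i + j + 1 - s) = s by omega]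
          exact hsx⟩
      · exact ⟨s, hs, by rw [w3 _ (by omega)]; exact hsx⟩
  refine closure (T := T) (S := S) (m := m) ?_ _ w le_rfl wl (by rw [w1 0 (by omega)]; rfl)
    (w3 _ (by omega)) ?_
  · intro x hx y hy
    exact hd x y (Finset.mem_filter.1 hx).2 (Finset.mem_filter.1 hy).2
  · intro t ht
    by_cases a1 : t + 1 ≤ j
    · left
      rw [w1 t (by omega), w1 (t + 1) a1]
      have := hch (j - (t + 1)) (by omega)
      rw [show j - (t + 1) + 1 = j - t by omega] at this
      exact this.symm
    by_cases a2 : t = j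
    · right
      subst a2
      rw [w1 t le_rfl, w2 (t + 1) (by omega) (by omega), Nat.sub_self,
        show i + t + 1 - (t + 1) = i by omega]
      exact ⟨Finset.mem_filter.2 ⟨hv.mem 0 (by omega), h0⟩,
        Finset.mem_filter.2 ⟨hv.mem i (by omega), hs⟩⟩
    by_cases a3 : t + 1 ≤ i
    · left
      rw [w2 t (by omega) (by omega), w2 (t + 1) (by omega) a3]
      have := hch (i + j + 1 - (t + 1)) (by omega)
      rw [show i + j + 1 - (t + 1) + 1 = i + j + 1 - t by omega] at this
      exact this.symm
    by_cases a4 : t = i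
    · right
      subst a4
      rw [w2 t (by omega) le_rfl, w3 (t + 1) (by omega), show t + j + 1 - t = j + 1 by omega]
      exact ⟨Finset.mem_filter.2 ⟨hv.mem (j + 1) (by omega), hj1⟩,
        Finset.mem_filter.2 ⟨hv.mem (t + 1) (by omega), hs'⟩⟩
    · left
      rw [w3 t (by omega), w3 (t + 1) (by omega)]
      exact hch t ht

/-- the rotation at a neighbour of the first vertex -/
theorem St.rot {T : Finset V} {m : ℕ} {v : ℕ → V} (hv : Lst T m v) (hch : Ch G m v) {j : ℕ}
    (hj : 1 ≤ j) (hjm : j < m) (ha : G.Adj (v 0) (v j)) : St G T m (v (m - 1)) (v (j - 1)) := by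
  have r1 : ∀ t, t ≤ j - 1 → rv 0 (j - 1) v t = v (j - 1 - t) := by
    intro t ht
    unfold rv
    rw [if_pos (by omega), Nat.zero_add]
  have r2 : ∀ t, j ≤ t → rv 0 (j - 1) v t = v t := by
    intro t ht
    unfold rv
    rw [if_neg (by omega)]
  refine ⟨rv 0 (j - 1) v, hv.rv (by omega), ?_, ?_, ?_⟩
  · intro i hi
    by_cases h1 : i + 1 < j
    · rw [r1 i (by omega), r1 (i + 1) (by omega)]
      have := hch (j - 1 - (i + 1)) (by omega)
      rw [show j - 1 - (i + 1) + 1 = j - 1 - i by omega] at this
      exact this.symm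
    by_cases h2 : i + 1 = j
    · rw [r1 i (by omega), r2 (i + 1) (by omega), show j - 1 - i = 0 by omega, h2]
      exact ha
    · rw [r2 i (by omega), r2 (i + 1) (by omega)]
      exact hch i hi
  · rw [r1 0 (by omega), Nat.sub_zero]
  · rw [r2 (m - 1) (by omega)]

/-- the structure claim: all vertices but the last one are starts -/
theorem all_starts {T : Finset V} {m : ℕ} {v : ℕ → V} (hv : Lst T m v) (hch : Ch G m v)
    (hm : 2 ≤ m)
    (hd : ∀ x, St G T m (v (m - 1)) x → m + 1 ≤ 2 * dT G T x)
    (ha : G.Adj (v 0) (v (m - 1))) :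
    ∀ j, j + 1 < m → St G T m (v (m - 1)) (v j) := by
  classical
  have hd2 : ∀ x y, St G T m (v (m - 1)) x → St G T m (v (m - 1)) y →
      m + 1 ≤ dT G T x + dT G T y := by
    intro x y hx hy
    have := hd x hx
    have := hd y hy
    omega
  have h0 : St G T m (v (m - 1)) (v 0) := ⟨v, hv, hch, rfl, rfl⟩
  have hlast : St G T m (v (m - 1)) (v (m - 2)) := by
    have := St.rot hv hch (j := m - 1) (by omega) (by omega) ha
    rwa [show m - 1 - 1 = m - 2 by omega] at this
  -- two consecutive starts
  obtain ⟨i, hi, hs, hs'⟩ : ∃ i, i + 2 < m ∧ St G T m (v (m - 1)) (v i) ∧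
      St G T m (v (m - 1)) (v (i + 1)) := by
    by_contra hcon
    push Not at hcon
    set A := (Finset.range (m - 1)).filter fun i => St G T m (v (m - 1)) (v i) with hA
    have h1 : dT G T (v 0) ≤ A.card := by
      refine (dT_le_count hv (v 0)).trans ?_
      refine Finset.card_le_card_of_injOn (fun t => t - 1) ?_ ?_
      · intro t ht
        rw [Finset.mem_coe, Finset.mem_filter, Finset.mem_range] at ht
        have ht1 : 1 ≤ t := by
          rcases Nat.eq_zero_or_pos t with h | h
          · exact absurd ht.2 (by rw [h]; exact fun h => h.ne rfl)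
          · exact h
        rw [Finset.mem_coe, hA, Finset.mem_filter, Finset.mem_range]
        exact ⟨by show t - 1 < m - 1; omega, St.rot hv hch ht1 ht.1 ht.2⟩
      · intro t ht t' ht' htt
        rw [Finset.mem_coe, Finset.mem_filter, Finset.mem_range] at ht ht'
        have ht1 : 1 ≤ t := by
          rcases Nat.eq_zero_or_pos t with h | h
          · exact absurd ht.2 (by rw [h]; exact fun h => h.ne rfl)
          · exact h
        have ht1' : 1 ≤ t' := by
          rcases Nat.eq_zero_or_pos t' with h | h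
          · exact absurd ht'.2 (by rw [h]; exact fun h => h.ne rfl)
          · exact h
        simp only at htt
        omega
    have h2 : Disjoint A (A.image (· + 1)) := by
      rw [Finset.disjoint_left]
      intro t ht ht'
      rw [Finset.mem_image] at ht'
      obtain ⟨s, hs, rfl⟩ := ht'
      rw [hA, Finset.mem_filter, Finset.mem_range] at hs ht
      exact hcon s (by omega) hs.2 ht.2
    have h3 : A ∪ A.image (· + 1) ⊆ Finset.range m := by
      intro t ht
      rw [Finset.mem_union, Finset.mem_image] at ht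
      rw [Finset.mem_range]
      rcases ht with ht | ⟨s, hs, rfl⟩
      · rw [hA, Finset.mem_filter, Finset.mem_range] at ht
        omega
      · rw [hA, Finset.mem_filter, Finset.mem_range] at hs
        omega
    have h4 := Finset.card_le_card h3
    rw [Finset.card_union_of_disjoint h2, Finset.card_image_of_injective _ (add_left_injective 1),
      Finset.card_range] at h4
    have := hd _ h0
    omega
  intro j hj
  rcases le_or_gt j i with h | h
  · exact half hv hch hd2 h0 hi hs hs' j h
  · -- the mirrored path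
    let u : ℕ → V := rv 0 (m - 2) v
    have u1 : ∀ t, t + 1 < m → u t = v (m - 2 - t) := by
      intro t ht
      show rv 0 (m - 2) v t = _
      unfold rv
      rw [if_pos (by omega), Nat.zero_add]
    have u2 : u (m - 1) = v (m - 1) := by
      show rv 0 (m - 2) v (m - 1) = _
      unfold rv
      rw [if_neg (by omega)]
    have hu : Lst T m u := hv.rv (by omega)
    have hcu : Ch G m u := by
      intro t ht
      by_cases h1 : t + 2 < m
      · rw [u1 t (by omega), u1 (t + 1) (by omega)]
        have := hch (m - 2 - (t + 1)) (by omega)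
        rw [show m - 2 - (t + 1) + 1 = m - 2 - t by omega] at this
        exact this.symm
      · rw [u1 t (by omega), show t + 1 = m - 1 by omega, u2, show m - 2 - t = 0 by omega]
        exact ha
    have := half (G := G) hu hcu (by rw [u2]; exact hd2) (by
      rw [u2, u1 0 (by omega), Nat.sub_zero]; exact hlast) (i := m - 2 - (i + 1)) (by omega)
      (by rw [u2, u1 _ (by omega), show m - 2 - (m - 2 - (i + 1)) = i + 1 by omega]; exact hs')
      (by rw [u2, u1 _ (by omega), show m - 2 - (m - 2 - (i + 1) + 1) = i by omega]; exact hs)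
      (m - 2 - j) (by omega)
    rw [u2, u1 _ (by omega), show m - 2 - (m - 2 - j) = j by omega] at this
    exact this

/-- a path of `G[U]` with `p` vertices -/
structure Pa (G : SimpleGraph V) (U : Finset V) (p : ℕ) (v : ℕ → V) : Prop where
  mem : ∀ i, i < p → v i ∈ U
  inj : ∀ i j, i < p → j < p → v i = v j → i = j
  ch : Ch G p v

theorem Pa.le {U : Finset V} {p : ℕ} {v : ℕ → V} (h : Pa G U p v) : p ≤ U.card := by
  classical
  have := Finset.card_le_card_of_injOn (s := Finset.range p) (t := U) v
    (fun i hi => h.mem i (Finset.mem_range.1 hi))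
    (fun i hi j hj hij => h.inj i j (Finset.mem_range.1 hi) (Finset.mem_range.1 hj) hij)
  rwa [Finset.card_range] at this

theorem Pa.cyc {U : Finset V} {p : ℕ} {v : ℕ → V} (h : Pa G U p v) {r : ℕ} (hr : 3 ≤ r)
    (hU : NoLong G r U) {m : ℕ} (hm : m < p) (ha : G.Adj (v 0) (v m)) : m + 1 < r := by
  by_contra hcon
  have hlen : ((List.range (m + 1)).map v).length = m + 1 := by simp
  have hmem : ∀ x ∈ (List.range (m + 1)).map v, x ∈ U := by
    intro x hx
    rw [List.mem_map] at hx
    obtain ⟨i, hi, rfl⟩ := hx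
    exact h.mem i (by rw [List.mem_range] at hi; omega)
  have hc : Cyc G ((List.range (m + 1)).map v) := by
    refine ⟨by rw [hlen]; omega, v 0, v m, ⟨?_, ?_, ?_, ?_⟩, ha.symm⟩
    · refine List.Nodup.map_on ?_ List.nodup_range
      intro i hi j hj hij
      rw [List.mem_range] at hi hj
      exact h.inj i j (by omega) (by omega) hij
    · rw [List.isChain_map, List.isChain_iff_getElem]
      intro i hi
      simp only [List.length_range] at hi
      simp only [List.getElem_range]
      exact h.ch i (by omega)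
    · simp [List.range_succ_eq_map]
    · simp [List.range_succ]
  have := hU _ hc hmem
  rw [hlen] at this
  omega

/-- Lemma L -/
theorem leaf_piece {r : ℕ} (hr : 3 ≤ r) {U : Finset V} (hU : NoLong G r U) (hne : U.Nonempty)
    (hdeg : ∀ v ∈ U, r ≤ 2 * dg G U v) :
    ∃ (D : Finset V) (c : V), D.Nonempty ∧ D ⊆ U ∧ c ∈ U ∧ c ∉ D ∧ D.card + 2 ≤ r ∧
      ∀ v ∈ D, ∀ w ∈ U, G.Adj v w → w ∈ D ∨ w = c := by
  classical
  -- a longest path
  obtain ⟨x0, hx0⟩ := hne
  obtain ⟨⟨p, v0⟩, ⟨hp, hp1⟩, hpmax⟩ := exists_max_nat (α := ℕ × (ℕ → V))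
    (fun w => Pa G U w.1 w.2 ∧ 1 ≤ w.1) (fun w => w.1) U.card (fun w hw => hw.1.le)
    ⟨(1, fun _ => x0), ⟨fun _ _ => hx0, fun i j hi hj _ => by omega, fun i hi => by omega⟩, le_rfl⟩
  simp only at hp hp1 hpmax
  have hlong : ∀ p' v', Pa G U p' v' → p' ≤ p := by
    intro p' v' h
    rcases Nat.eq_zero_or_pos p' with h0 | h0
    · omega
    · exact hpmax (p', v') ⟨h, h0⟩
  -- neighbours of the first vertex of a longest path are on the path
  have hon : ∀ v, Pa G U p v → ∀ u ∈ U, G.Adj (v 0) u → ∃ i, i < p ∧ v i = u := by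
    intro v hv u hu hau
    by_contra hcon
    push Not at hcon
    have := hlong (p + 1) (fun t => if t = 0 then u else v (t - 1)) ⟨?_, ?_, ?_⟩
    · omega
    · intro i hi
      show (if i = 0 then u else v (i - 1)) ∈ U
      split_ifs
      · exact hu
      · exact hv.mem _ (by omega)
    · intro i j hi hj hij
      change (if i = 0 then u else v (i - 1)) = (if j = 0 then u else v (j - 1)) at hij
      split_ifs at hij with h1 h2 h2
      · omega
      · exact absurd hij.symm (hcon _ (by omega))
      · exact absurd hij (hcon _ (by omega))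
      · have := hv.inj _ _ (by omega) (by omega) hij
        omega
    · intro i hi
      show G.Adj (if i = 0 then u else v (i - 1)) (if i + 1 = 0 then u else v (i + 1 - 1))
      rw [if_neg (by omega : ¬ i + 1 = 0)]
      split_ifs with h1
      · subst h1
        exact hau.symm
      · have := hv.ch (i - 1) (by omega)
        rwa [show i - 1 + 1 = i + 1 - 1 by omega] at this
  -- every member of `U` has a neighbour
  have hnb : ∀ x ∈ U, ∃ u ∈ U, G.Adj x u := by
    intro x hx
    have h1 := hdeg x hx
    have h2 : 0 < dg G U x := by omega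
    unfold dg at h2
    obtain ⟨u, hu⟩ := Finset.card_pos.1 h2
    rw [Finset.mem_filter] at hu
    exact ⟨u, hu⟩
  -- maximal last neighbour
  obtain ⟨⟨q, v⟩, ⟨hv, hq, hvq⟩, hqmax⟩ := exists_max_nat (α := ℕ × (ℕ → V))
    (fun w => Pa G U p w.2 ∧ w.1 < p ∧ G.Adj (w.2 0) (w.2 w.1)) (fun w => w.1) p
    (fun w hw => hw.2.1.le) (by
      obtain ⟨u, hu, hau⟩ := hnb (v0 0) (hp.mem 0 (by omega))
      obtain ⟨i, hi, rfl⟩ := hon v0 hp u hu hau
      exact ⟨(i, v0), hp, hi, hau⟩)
  simp only at hv hq hvq hqmax
  have hq1 : 1 ≤ q := by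
    rcases Nat.eq_zero_or_pos q with h | h
    · exact absurd hvq (by rw [h]; exact fun h => h.ne rfl)
    · exact h
  have hqr : q + 1 < r := hv.cyc hr hU hq hvq
  set T := (Finset.range (q + 1)).image v with hT
  have hL : Lst T (q + 1) v := by
    refine ⟨?_, ?_, ?_⟩
    · intro i hi
      exact Finset.mem_image.2 ⟨i, Finset.mem_range.2 hi, rfl⟩
    · intro i j hi hj hij
      exact hv.inj i j (by omega) (by omega) hij
    · intro x hx
      obtain ⟨i, hi, hix⟩ := Finset.mem_image.1 hx
      exact ⟨i, Finset.mem_range.1 hi, hix⟩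
  have hTU : T ⊆ U := by
    intro x hx
    obtain ⟨i, hi, rfl⟩ := hL.sur x hx
    exact hv.mem i (by omega)
  have hCh : Ch G (q + 1) v := fun i hi => hv.ch i (by omega)
  have e1 : q + 1 - 1 = q := by omega
  -- starts have all their neighbours in `T`
  have hst : ∀ x, St G T (q + 1) (v q) x → x ∈ T ∧ ∀ u ∈ U, G.Adj x u → u ∈ T := by
    rintro x ⟨w, hw, hwc, rfl, hwq⟩
    rw [e1] at hwq
    refine ⟨hw.mem 0 (by omega), fun u hu hau => ?_⟩
    let v' : ℕ → V := fun t => if t < q + 1 then w t else v t
    have v1 : ∀ t, t < q + 1 → v' t = w t := fun t ht => if_pos ht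
    have v2 : ∀ t, ¬ t < q + 1 → v' t = v t := fun t ht => if_neg ht
    have hsep : ∀ i j, i < q + 1 → q + 1 ≤ j → j < p → w i ≠ v j := by
      intro i j hi hj hjp hij
      obtain ⟨s, hs, hse⟩ := hL.sur _ (hw.mem i hi)
      rw [← hse] at hij
      have := hv.inj _ _ (by omega) hjp hij
      omega
    have hv' : Pa G U p v' := by
      refine ⟨?_, ?_, ?_⟩
      · intro i hi
        by_cases h1 : i < q + 1
        · rw [v1 i h1]; exact hTU (hw.mem i h1)
        · rw [v2 i h1]; exact hv.mem i hi
      · intro i j hi hj hij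
        by_cases h1 : i < q + 1 <;> by_cases h2 : j < q + 1
        · rw [v1 i h1, v1 j h2] at hij; exact hw.inj i j h1 h2 hij
        · rw [v1 i h1, v2 j h2] at hij; exact absurd hij (hsep i j h1 (by omega) hj)
        · rw [v2 i h1, v1 j h2] at hij; exact absurd hij.symm (hsep j i h2 (by omega) hi)
        · rw [v2 i h1, v2 j h2] at hij; exact hv.inj i j hi hj hij
      · intro i hi
        by_cases h1 : i + 1 < q + 1
        · rw [v1 i (by omega), v1 (i + 1) h1]; exact hwc i h1
        by_cases h2 : i < q + 1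
        · rw [v1 i h2, v2 (i + 1) h1, show i = q by omega, hwq]
          exact hv.ch q (by omega)
        · rw [v2 i h2, v2 (i + 1) h1]; exact hv.ch i hi
    have h00 : v' 0 = w 0 := v1 0 (by omega)
    obtain ⟨i, hi, hiu⟩ := hon v' hv' u hu (by rw [h00]; exact hau)
    have := hqmax (i, v') ⟨hv', hi, by simp only; rw [hiu, h00]; exact hau⟩
    simp only at this
    rw [v1 i (by omega)] at hiu
    rw [← hiu]
    exact hw.mem i (by omega)
  have hdeg' : ∀ x, St G T (q + 1) (v (q + 1 - 1)) x → q + 1 + 1 ≤ 2 * dT G T x := by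
    intro x hx
    rw [e1] at hx
    obtain ⟨h1, h2⟩ := hst x hx
    have h3 := hdeg x (hTU h1)
    have h4 : dg G U x ≤ dT G T x := by
      unfold dg dT
      refine Finset.card_le_card ?_
      intro u hu
      rw [Finset.mem_filter] at hu ⊢
      exact ⟨h2 u hu.1 hu.2, hu.2⟩
    omega
  have hall := all_starts hL hCh (by omega) hdeg' (by rw [e1]; exact hvq)
  rw [e1] at hall
  refine ⟨T.erase (v q), v q, ?_, ?_, ?_, ?_, ?_, ?_⟩
  · refine ⟨v 0, Finset.mem_erase.2 ⟨?_, hL.mem 0 (by omega)⟩⟩
    intro h
    have := hv.inj 0 q (by omega) hq h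
    omega
  · exact (Finset.erase_subset _ _).trans hTU
  · exact hv.mem q hq
  · exact Finset.notMem_erase _ _
  · have h1 : T.card ≤ q + 1 := by
      have := Finset.card_image_le (s := Finset.range (q + 1)) (f := v)
      rwa [Finset.card_range] at this
    have h2 : (T.erase (v q)).card = T.card - 1 := Finset.card_erase_of_mem (hL.mem q (by omega))
    omega
  · intro x hx u hu hau
    rw [Finset.mem_erase] at hx
    obtain ⟨i, hi, rfl⟩ := hL.sur x hx.2
    have hiq : i ≠ q := by rintro rfl; exact hx.1 rfl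
    have := (hst _ (hall i (by omega))).2 u hu hau
    by_cases h : u = v q
    · exact Or.inr h
    · exact Or.inl (Finset.mem_erase.2 ⟨h, this⟩)

/-- leaf piece (row R1) -/
theorem lemL {V : Type u} [DecidableEq V] {G : SimpleGraph V} {r : ℕ} (hr : 3 ≤ r)
    {U : Finset V} (hne : U.Nonempty) (hno : NoLong G r U) (hdeg : ∀ v ∈ U, r ≤ 2 * dg G U v) :
    ∃ (D : Finset V) (c : V), D.Nonempty ∧ D ⊆ U ∧ c ∈ U ∧ c ∉ D ∧ D.card + 2 ≤ r ∧
      ∀ v ∈ D, ∀ u ∈ U, G.Adj v u → u ∈ D ∨ u = c :=
  leaf_piece hr hno hne hdeg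

end Pool.Agent.FRC
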