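import Pool.Agent.LCK.RegB

set_option linter.all false

/-!
# Row R8: degree levels, light and heavy vertices
-/

namespace Pool.Agent.FRC

open Pool.Agent.Helper14.LongCyc Pool.Agent.LCK

universe u

variable {V : Type u} {G : SimpleGraph V}

/-- a vertex outside a shortest long cycle of length at least `2 r` has at most 6 neighbours on it -/
theorem outside_six [DecidableEq V] {r : ℕ} (hr : 5 ≤ r)
    {C : Finset V} {h : V} (hC : CycSet G C) (hCr : 2 * r ≤ C.card) (hh : h ∉ C)
    (hmin : ∀ D, CycSet G D → D ⊆ insert h C → r ≤ D.card → C.card ≤ D.card) :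
    dg G C h ≤ 6 := by
  classical
  obtain ⟨c, hc, hcs⟩ := hC
  have hcn := Cyc.nodup hc
  have hcard := card_of_list hcn hcs
  have hp : 0 < c.length := by have := hc.1; omega
  rw [hcard] at hCr hmin
  have hmemC : ∀ i, cf c hp i ∈ C := fun i => (hcs _).1 (cf_mem hp i)
  have harc : ∀ i s, 1 ≤ s → s < c.length → G.Adj h (cf c hp i) → G.Adj h (cf c hp (i + s)) →
      s + 2 < r ∨ c.length ≤ s + 2 := by
    intro i s hs1 hs h1 h2
    by_contra hcon
    rw [not_or] at hcon
    have hpth := (arc_pth hc hp s i hs).cons h1 (by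
      rw [mem_seg]
      rintro ⟨j, _, _, hj⟩
      exact hh (hj ▸ hmemC j))
    have hlen : (h :: seg (cf c hp) i s).length = s + 2 := by
      rw [List.length_cons, seg_length]
    have hcyc : Cyc G (h :: seg (cf c hp) i s) :=
      ⟨by rw [hlen]; omega, _, _, hpth, h2.symm⟩
    have hD := Cyc.cycSet hcyc
    have hDc := card_of_list (Cyc.nodup hcyc) fun x => List.mem_toFinset.symm
    have := hmin _ hD (by
      intro x hx
      rw [List.mem_toFinset, List.mem_cons, mem_seg] at hx
      rw [Finset.mem_insert]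
      rcases hx with hx | ⟨j, _, _, rfl⟩
      · exact Or.inl hx
      · exact Or.inr (hmemC j)) (by rw [hDc, hlen]; omega)
    rw [hDc, hlen] at this
    omega
  have hboth : ∀ i s, 1 ≤ s → s < c.length → G.Adj h (cf c hp i) →
      G.Adj h (cf c hp (i + s)) → (s + 2 < r ∨ c.length ≤ s + 2) ∧
        (c.length < s + r - 2 ∨ s ≤ 2) := by
    intro i s hs1 hs h1 h2
    refine ⟨harc i s hs1 hs h1 h2, ?_⟩
    have := harc (i + s) (c.length - s) (by omega) (by omega) h2 (by
      have e1 : cf c hp (i + s + (c.length - s)) = cf c hp i := by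
        apply cf_congr
        rw [show i + s + (c.length - s) = i + c.length by omega, Nat.add_mod_right]
      rw [e1]; exact h1)
    omega
  have hdI : dg G C h ≤ c.length.count fun i => G.Adj h (cf c hp i) := by
    rw [Nat.count_eq_card_filter_range]
    have : (C.filter fun u => G.Adj h u) ⊆
        ((Finset.range c.length).filter fun i => G.Adj h (cf c hp i)).image (cf c hp) := by
      intro u hu
      rw [Finset.mem_filter] at hu
      obtain ⟨i, hi, rfl⟩ := exists_cf hp ((hcs u).2 hu.1)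
      rw [Finset.mem_image]
      exact ⟨i, by rw [Finset.mem_filter, Finset.mem_range]; exact ⟨hi, hu.2⟩, rfl⟩
    rw [dg_eq_card]
    exact le_trans (Finset.card_le_card this) Finset.card_image_le
  refine hdI.trans ?_
  have hcount := out_count (L := c.length) (r := r) hr (by omega)
    (fun i => G.Adj h (cf c hp i))
    (by
      intro i
      have e1 : cf c hp (i + c.length) = cf c hp i :=
        cf_congr hp (by rw [Nat.add_mod_right])
      simp only [e1])
    (by
      intro i s hs3 hsr h1 h2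
      have := hboth i s (by omega) (by omega) h1 h2
      omega)
  set k := c.length.count fun i => G.Adj h (cf c hp i) with hk
  by_contra hcon
  have h7 : 7 ≤ k := by omega
  have h3 : (c.length - r + 5) * 7 ≤ (c.length - r + 5) * k := Nat.mul_le_mul_left _ h7
  omega

/-! ### the light / heavy counting -/

theorem sum_le_of_levels {α : Type*} [DecidableEq α] (H : Finset α) (f : α → ℕ) (J : ℕ)
    (mid : ℕ → Finset α) (hmid : ∀ j, mid j ⊆ H)
    (hdis : ∀ i j, i < j → Disjoint (mid i) (mid j)) {B : ℕ} (hJ : 0 < J)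
    (hB : ∑ h ∈ H, f h ≤ B) : ∃ j < J, J * ∑ h ∈ mid j, f h ≤ B := by
  by_contra hcon
  push Not at hcon
  have h1 : ∑ j ∈ Finset.range J, ∑ h ∈ mid j, f h ≤ ∑ h ∈ H, f h := by
    rw [← Finset.sum_biUnion]
    · refine Finset.sum_le_sum_of_subset ?_
      intro x hx
      rw [Finset.mem_biUnion] at hx
      obtain ⟨j, _, hx⟩ := hx
      exact hmid j hx
    · intro i _ j _ hij
      rcases lt_or_gt_of_ne hij with h | h
      · exact hdis i j h
      · exact (hdis j i h).symm
  have h2 : J * B < ∑ j ∈ Finset.range J, J * ∑ h ∈ mid j, f h := by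
    have : ∑ j ∈ Finset.range J, B < ∑ j ∈ Finset.range J, J * ∑ h ∈ mid j, f h :=
      Finset.sum_lt_sum_of_nonempty (Finset.nonempty_range_iff.2 (by omega))
        fun j hj => hcon j (Finset.mem_range.1 hj)
    rw [Finset.sum_const, Finset.card_range, smul_eq_mul] at this
    exact this
  rw [← Finset.mul_sum] at h2
  have h3 : ∑ j ∈ Finset.range J, ∑ h ∈ mid j, f h ≤ B := h1.trans hB
  have h4 := Nat.mul_le_mul_left J h3
  omega

theorem light_count [DecidableEq V] {W : Finset V} {k r : ℕ} (hk : 2 ≤ k) (hr : 432 * k ≤ r)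
    (dm dR : V → ℕ)
    (hdeg : ∀ v ∈ W, 2 * (k * r) ≤ 3 * (dg G W v + dm v + dR v + 6 * k))
    (hmid : 4000 * ∑ v ∈ W, dm v ≤ 2 * (r * W.card))
    (hEG : ∀ S, S ⊆ W → eS G S S ≤ r * S.card)
    (hS2 : 24 * ∑ v ∈ W, dR v < (12 * k + 1) * (r * W.card)) :
    ∃ Lt, Lt ⊆ W ∧ (∀ v ∈ Lt, r ≤ 9 * dR v) ∧ r * W.card ≤ 58 * eS G Lt W := by
  classical
  -- the three classes
  set Lt := W.filter fun v => 6 * dg G W v ≤ 7 * r ∧ 24 * dm v ≤ r with hLt
  set Hv := W.filter fun v => 7 * r < 6 * dg G W v with hHv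
  set Bd := W.filter fun v => 6 * dg G W v ≤ 7 * r ∧ r < 24 * dm v with hBd
  have hLtW : Lt ⊆ W := Finset.filter_subset _ _
  have hHvW : Hv ⊆ W := Finset.filter_subset _ _
  have hBdW : Bd ⊆ W := Finset.filter_subset _ _
  have d1 : Disjoint Hv (Bd ∪ Lt) := by
    rw [Finset.disjoint_left]
    intro x hx hx'
    rw [hHv, Finset.mem_filter] at hx
    rw [Finset.mem_union, hBd, hLt, Finset.mem_filter, Finset.mem_filter] at hx'
    rcases hx' with h | h <;> omega
  have d2 : Disjoint Bd Lt := by
    rw [Finset.disjoint_left]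
    intro x hx hx'
    rw [hBd, Finset.mem_filter] at hx
    rw [hLt, Finset.mem_filter] at hx'
    omega
  have hU : W = Hv ∪ (Bd ∪ Lt) := by
    ext x
    simp only [hHv, hBd, hLt, Finset.mem_union, Finset.mem_filter]
    constructor
    · intro hx
      rcases lt_or_ge (7 * r) (6 * dg G W x) with h | h
      · exact Or.inl ⟨hx, h⟩
      · rcases lt_or_ge r (24 * dm x) with h' | h'
        · exact Or.inr (Or.inl ⟨hx, h, h'⟩)
        · exact Or.inr (Or.inr ⟨hx, h, h'⟩)
    · rintro (h | h | h) <;> exact h.1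
  refine ⟨Lt, hLtW, ?_, ?_⟩
  · intro v hv
    rw [hLt, Finset.mem_filter] at hv
    have h1 := hdeg v hv.1
    have h2 := hv.2.1
    have h3 := hv.2.2
    have h4 : 2 * r ≤ k * r := Nat.mul_le_mul_right r hk
    -- 9 * dR v ≥ r
    omega
  · -- the sums
    have hsp : ∀ A : Finset V, eS G A W = eS G A Hv + (eS G A Bd + eS G A Lt) := by
      intro A
      calc eS G A W = eS G A (Hv ∪ (Bd ∪ Lt)) := congrArg (eS G A) hU
        _ = _ := by rw [eS_union_right d1, eS_union_right d2]
    have e1 : eS G W W = eS G Hv W + (eS G Bd W + eS G Lt W) := by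
      rw [hsp W, eS_comm W Hv, eS_comm W Bd, eS_comm W Lt]
    have e2 : eS G Hv W ≤ eS G Hv Hv + (eS G Bd W + eS G Lt W) := by
      rw [hsp Hv]
      have h1 : eS G Hv Bd ≤ eS G Bd W := by
        rw [eS_comm]; exact eS_mono_right hHvW _
      have h2 : eS G Hv Lt ≤ eS G Lt W := by
        rw [eS_comm]; exact eS_mono_right hHvW _
      omega
    have e3 := hEG Hv hHvW
    have e4 : 7 * (r * Hv.card) ≤ 6 * eS G Hv W := by
      unfold eS
      rw [Finset.mul_sum]
      have : ∑ _v ∈ Hv, 7 * r ≤ ∑ v ∈ Hv, 6 * dg G W v := by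
        refine Finset.sum_le_sum fun v hv => ?_
        rw [hHv, Finset.mem_filter] at hv
        exact hv.2.le
      rw [Finset.sum_const, smul_eq_mul] at this
      calc 7 * (r * Hv.card) = Hv.card * (7 * r) := by ring
        _ ≤ _ := this
    have e5 : 6 * eS G Bd W ≤ 7 * (r * Bd.card) := by
      unfold eS
      rw [Finset.mul_sum]
      have : ∑ v ∈ Bd, 6 * dg G W v ≤ ∑ _v ∈ Bd, 7 * r := by
        refine Finset.sum_le_sum fun v hv => ?_
        rw [hBd, Finset.mem_filter] at hv
        exact hv.2.1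
      rw [Finset.sum_const, smul_eq_mul] at this
      calc _ ≤ Bd.card * (7 * r) := this
        _ = 7 * (r * Bd.card) := by ring
    have e6 : r * Bd.card ≤ 24 * ∑ v ∈ W, dm v := by
      have h1 : ∑ _v ∈ Bd, r ≤ ∑ v ∈ Bd, 24 * dm v := by
        refine Finset.sum_le_sum fun v hv => ?_
        rw [hBd, Finset.mem_filter] at hv
        exact hv.2.2.le
      rw [Finset.sum_const, smul_eq_mul, ← Finset.mul_sum] at h1
      have h2 : ∑ v ∈ Bd, dm v ≤ ∑ v ∈ W, dm v := Finset.sum_le_sum_of_subset hBdW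
      calc r * Bd.card = Bd.card * r := mul_comm _ _
        _ ≤ 24 * ∑ v ∈ Bd, dm v := h1
        _ ≤ _ := Nat.mul_le_mul_left _ h2
    have e7 : 2 * (k * (r * W.card)) ≤
        3 * (eS G W W + ∑ v ∈ W, dm v + ∑ v ∈ W, dR v) + 18 * (k * W.card) := by
      have h1 : ∑ _v ∈ W, 2 * (k * r) ≤ ∑ v ∈ W, 3 * (dg G W v + dm v + dR v + 6 * k) :=
        Finset.sum_le_sum fun v hv => hdeg v hv
      rw [Finset.sum_const, smul_eq_mul, ← Finset.mul_sum, Finset.sum_add_distrib,
        Finset.sum_add_distrib, Finset.sum_add_distrib, Finset.sum_const, smul_eq_mul] at h1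
      have h2 : ∑ v ∈ W, dg G W v = eS G W W := rfl
      rw [h2] at h1
      calc 2 * (k * (r * W.card)) = W.card * (2 * (k * r)) := by ring
        _ ≤ _ := h1
        _ = _ := by ring
    have e8 : 432 * (k * W.card) ≤ r * W.card := by
      calc 432 * (k * W.card) = (432 * k) * W.card := by ring
        _ ≤ _ := Nat.mul_le_mul_right _ hr
    have e9 : 2 * (r * W.card) ≤ k * (r * W.card) := Nat.mul_le_mul_right _ hk
    have e10 : (12 * k + 1) * (r * W.card) = 12 * (k * (r * W.card)) + r * W.card := by ring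
    rw [e10] at hS2
    omega

/-- the sequence of levels -/
theorem levels_tt (g : ℕ → ℕ) (hg : ∀ t, t ≤ g t) :
    (∀ n, g^[n + 1] 1 = g (g^[n] 1)) ∧ (∀ n, 1 ≤ g^[n] 1) ∧
      ∀ m n, m ≤ n → g^[m] 1 ≤ g^[n] 1 := by
  have h1 : ∀ n, g^[n + 1] 1 = g (g^[n] 1) := fun n => Function.iterate_succ_apply' g n 1
  have h2 : Monotone fun n => g^[n] 1 := by
    refine monotone_nat_of_le_succ fun n => ?_
    show g^[n] 1 ≤ g^[n + 1] 1
    rw [h1]
    exact hg _
  refine ⟨h1, fun n => ?_, fun m n h => h2 h⟩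
  have := h2 (Nat.zero_le n)
  simpa using this

/-- vertices of high degree are few -/
theorem high_card [DecidableEq V] {H A : Finset V} {t r : ℕ} (hN : 0 < H.card)
    (hEG : eS G H H ≤ r * H.card) (hA : A ⊆ H) (hhi : ∀ v ∈ A, H.card ≤ t * dg G H v) :
    A.card ≤ t * r := by
  have h1 : ∑ _v ∈ A, H.card ≤ ∑ v ∈ A, t * dg G H v := Finset.sum_le_sum hhi
  rw [Finset.sum_const, smul_eq_mul, ← Finset.mul_sum] at h1
  have h2 : ∑ v ∈ A, dg G H v ≤ eS G H H := Finset.sum_le_sum_of_subset hA
  have h3 : A.card * H.card ≤ (t * r) * H.card := by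
    calc A.card * H.card ≤ t * ∑ v ∈ A, dg G H v := h1
      _ ≤ t * (r * H.card) := Nat.mul_le_mul_left _ (h2.trans hEG)
      _ = (t * r) * H.card := by ring
  exact Nat.le_of_mul_le_mul_right h3 hN

/-- ROW R8 -/
theorem levels (k : ℕ) (hk : 2 ≤ k) (g : ℕ → ℕ) (hg : ∀ t, t ≤ g t) : ∃ T M r₀ : ℕ,
    ∀ {V : Type u} [DecidableEq V] (G : SimpleGraph V) (U : Finset V) (F : Finset (Finset V))
      (r : ℕ), r₀ ≤ r → (∀ v ∈ U, 2 * k * r ≤ 3 * dg G U v) → Fam G U (fun L => r ≤ L) F →
      F.card < k → (∀ F', Fam G U (fun L => r ≤ L) F' → F'.card = F.card → tot F ≤ tot F') →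
      (∀ S, S ⊆ rest U F → eS G S S ≤ r * S.card) → M * r ≤ (rest U F).card →
      ∃ (t : ℕ) (R W : Finset V), 1 ≤ t ∧ t ≤ T ∧ R ⊆ U ∧ W ⊆ rest U F ∧ Disjoint R W ∧
        R.card ≤ (2 * k + t) * r ∧ (rest U F).card ≤ 2 * W.card ∧
        (∀ v ∈ W, g t * dg G W v ≤ 2 * W.card) ∧
        ((12 * k + 1) * r * W.card ≤ 24 * eS G W R ∨
          ∃ Lt, Lt ⊆ W ∧ (∀ v ∈ Lt, r ≤ 9 * dg G R v) ∧ r * W.card ≤ 58 * eS G Lt W) := by
  obtain ⟨htt, htt1, httm⟩ := levels_tt g hg
  refine ⟨g^[4000] 1, 2 * g^[4000] 1 + 1, 432 * k + 5, ?_⟩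
  intro V _ G U F r hr hdeg hF hFk hmin hEG hM
  classical
  set H := rest U F with hH
  have hHU : H ⊆ U := rest_subset U F
  have hr5 : 5 ≤ r := by omega
  have hNpos : 0 < H.card := by
    have h1 : 1 * r ≤ (2 * g^[4000] 1 + 1) * r := Nat.mul_le_mul_right r (by omega)
    omega
  have hEGH : eS G H H ≤ r * H.card := hEG H (Finset.Subset.refl _)
  -- the levels
  obtain ⟨j, hj, hjs⟩ := sum_le_of_levels H (fun h => dg G H h) 4000
    (fun j => H.filter fun h => H.card ≤ g^[j + 1] 1 * dg G H h ∧ g^[j] 1 * dg G H h < H.card)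
    (fun j => Finset.filter_subset _ _) (by
      intro i j hij
      rw [Finset.disjoint_left]
      intro x hx hx'
      rw [Finset.mem_filter] at hx hx'
      have h1 : g^[i + 1] 1 * dg G H x ≤ g^[j] 1 * dg G H x :=
        Nat.mul_le_mul_right _ (httm _ _ (by omega))
      omega) (B := r * H.card) (by norm_num) hEGH
  have hjs' : 4000 * ∑ h ∈ H.filter (fun h => H.card ≤ g^[j + 1] 1 * dg G H h ∧
      g^[j] 1 * dg G H h < H.card), dg G H h ≤ r * H.card := hjs
  clear hjs
  set t := g^[j] 1 with ht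
  have ht' : g^[j + 1] 1 = g t := htt j
  rw [ht'] at hjs'
  have ht1 : 1 ≤ t := htt1 j
  have htT : t ≤ g^[4000] 1 := httm _ _ (by omega)
  have hgT : g t ≤ g^[4000] 1 := by rw [← ht']; exact httm _ _ (by omega)
  set Md := H.filter (fun h => H.card ≤ g t * dg G H h ∧ t * dg G H h < H.card) with hMd
  set Hi := H.filter (fun h => H.card ≤ t * dg G H h) with hHi
  set W := H.filter (fun h => g t * dg G H h < H.card) with hW
  set Sh := F.filter (fun s => s.card < 2 * r) with hSh
  set Fs := Sh.biUnion id with hFs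
  have hMdH : Md ⊆ H := Finset.filter_subset _ _
  have hHiH : Hi ⊆ H := Finset.filter_subset _ _
  have hWH : W ⊆ H := Finset.filter_subset _ _
  have hShF : Sh ⊆ F := Finset.filter_subset _ _
  have hFsU : Fs ⊆ U := by
    intro v hv
    rw [hFs, Finset.mem_biUnion] at hv
    obtain ⟨s, hs, hvs⟩ := hv
    exact hF.sub s (hShF hs) hvs
  have hFsH : Disjoint Fs H := by
    rw [Finset.disjoint_left]
    intro v hv hv'
    rw [hFs, Finset.mem_biUnion] at hv
    obtain ⟨s, hs, hvs⟩ := hv
    exact (mem_rest.1 hv').2 s (hShF hs) hvs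
  have hHiFs : Disjoint Hi Fs := (hFsH.mono_right hHiH).symm
  have hRW : Disjoint (Hi ∪ Fs) W := by
    rw [Finset.disjoint_union_left]
    refine ⟨?_, hFsH.mono_right hWH⟩
    rw [Finset.disjoint_left]
    intro v hv hv'
    rw [hHi, Finset.mem_filter] at hv
    rw [hW, Finset.mem_filter] at hv'
    have := Nat.mul_le_mul_right (dg G H v) (hg t)
    omega
  have hHic : Hi.card ≤ t * r := high_card hNpos hEGH hHiH fun v hv => by
    rw [hHi, Finset.mem_filter] at hv; exact hv.2
  have hFsc : Fs.card ≤ 2 * k * r := by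
    have h1 : Fs.card ≤ ∑ s ∈ Sh, s.card := Finset.card_biUnion_le
    have h2 : ∑ s ∈ Sh, s.card ≤ Sh.card * (2 * r) := by
      refine (Finset.sum_le_card_nsmul _ _ (2 * r) ?_).trans (by rw [smul_eq_mul])
      intro s hs
      rw [hSh, Finset.mem_filter] at hs
      exact hs.2.le
    have h3 : Sh.card ≤ k := (Finset.card_le_card hShF).trans hFk.le
    calc Fs.card ≤ Sh.card * (2 * r) := h1.trans h2
      _ ≤ k * (2 * r) := Nat.mul_le_mul_right _ h3
      _ = 2 * k * r := by ring
  have hHW : (H \ W).card ≤ g t * r := high_card hNpos hEGH Finset.sdiff_subset fun v hv => by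
    rw [Finset.mem_sdiff, hW, Finset.mem_filter] at hv
    by_contra hcon
    exact hv.2 ⟨hv.1, by omega⟩
  have hWc : H.card ≤ 2 * W.card := by
    have h1 : (H \ W).card + W.card = H.card := Finset.card_sdiff_add_card_eq_card hWH
    have h2 : g t * r ≤ g^[4000] 1 * r := Nat.mul_le_mul_right r hgT
    have h3 : (2 * g^[4000] 1 + 1) * r = 2 * (g^[4000] 1 * r) + r := by ring
    omega
  refine ⟨t, Hi ∪ Fs, W, ht1, htT, Finset.union_subset (hHiH.trans hHU) hFsU, hWH, hRW, ?_,
    hWc, ?_, ?_⟩
  · have h1 := Finset.card_union_le Hi Fs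
    have h2 : (2 * k + t) * r = 2 * k * r + t * r := by ring
    omega
  · intro v hv
    rw [hW, Finset.mem_filter] at hv
    have h1 : g t * dg G W v ≤ g t * dg G H v := Nat.mul_le_mul_left _ (dg_mono hWH v)
    omega
  · rcases le_or_gt ((12 * k + 1) * r * W.card) (24 * eS G W (Hi ∪ Fs)) with hS | hS
    · exact Or.inl hS
    refine Or.inr ?_
    refine light_count hk (by omega) (fun v => dg G Md v) (fun v => dg G (Hi ∪ Fs) v) ?_ ?_ ?_ ?_
    · intro v hv
      have hvH : v ∈ H := hWH hv
      have h1 := hdeg v (hHU hvH)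
      have h2 := hF.dg_split v
      rw [← hH] at h2
      have h3 : dg G H v ≤ dg G W v + dg G Md v + dg G Hi v := by
        have hsub : H ⊆ W ∪ Md ∪ Hi := by
          intro x hx
          rw [Finset.mem_union, Finset.mem_union, hW, hMd, hHi, Finset.mem_filter,
            Finset.mem_filter, Finset.mem_filter]
          rcases lt_or_ge (g t * dg G H x) H.card with h | h
          · exact Or.inl (Or.inl ⟨hx, h⟩)
          · rcases lt_or_ge (t * dg G H x) H.card with h' | h'
            · exact Or.inl (Or.inr ⟨hx, h, h'⟩)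
            · exact Or.inr ⟨hx, h'⟩
        have a1 := dg_mono (G := G) hsub v
        have a2 := dg_union_le (G := G) (W ∪ Md) Hi v
        have a3 := dg_union_le (G := G) W Md v
        omega
      have h4 : ∑ s ∈ F, dg G s v ≤ dg G Fs v + 6 * k := by
        rw [← Finset.sum_filter_add_sum_filter_not F (fun s => s.card < 2 * r)]
        have hfam : Fam G Fs (fun _ => True) Sh :=
          ⟨fun s hs => hF.cyc s (hShF hs), fun s hs => by
            intro x hx
            rw [hFs, Finset.mem_biUnion]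
            exact ⟨s, hs, hx⟩, fun _ _ => trivial,
            fun s hs u hu hne => hF.disj s (hShF hs) u (hShF hu) hne⟩
        have a1 := hfam.dg_split v
        have a2 : ∑ s ∈ F.filter (fun s => ¬ s.card < 2 * r), dg G s v ≤ 6 * k := by
          have b1 : ∀ s ∈ F.filter (fun s => ¬ s.card < 2 * r), dg G s v ≤ 6 := by
            intro s hs
            rw [Finset.mem_filter] at hs
            refine outside_six hr5 (hF.cyc s hs.1) (by omega)
              ((mem_rest.1 hvH).2 s hs.1) ?_
            intro D hD hDs hDr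
            obtain ⟨c1, c2, _⟩ := hF.replace hs.1 hD (hDs.trans (by
              intro x hx
              rw [Finset.mem_insert] at hx
              rw [Finset.mem_union]
              rcases hx with rfl | hx
              · exact Or.inr hvH
              · exact Or.inl hx)) hDr
            have c3 := hmin _ c1 (by
              rw [Finset.card_insert_of_notMem c2, Finset.card_erase_of_mem hs.1]
              have := Finset.card_pos.2 ⟨s, hs.1⟩
              omega)
            rw [regB_tot_insert c2] at c3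
            have c4 := regB_tot_erase hs.1
            omega
          have b2 : (F.filter (fun s => ¬ s.card < 2 * r)).card ≤ k :=
            (Finset.card_le_card (Finset.filter_subset _ _)).trans hFk.le
          refine (Finset.sum_le_card_nsmul _ _ 6 b1).trans ?_
          rw [smul_eq_mul]
          omega
        have a3 : ∑ s ∈ F.filter (fun s => s.card < 2 * r), dg G s v ≤ dg G Fs v := by
          have : ∑ s ∈ Sh, dg G s v ≤ dg G Fs v := by omega
          exact this
        omega
      have h5 : dg G (Hi ∪ Fs) v = dg G Hi v + dg G Fs v := dg_union hHiFs v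
      have h6 : 2 * (k * r) = 2 * k * r := by ring
      show 2 * (k * r) ≤ 3 * (dg G W v + dg G Md v + dg G (Hi ∪ Fs) v + 6 * k)
      omega
    · have h1 : ∑ v ∈ W, dg G Md v ≤ ∑ h ∈ Md, dg G H h := by
        have : eS G W Md ≤ eS G Md H := by
          rw [eS_comm]; exact eS_mono_right hWH _
        exact this
      have h2 : r * H.card ≤ r * (2 * W.card) := Nat.mul_le_mul_left _ hWc
      have h3 : r * (2 * W.card) = 2 * (r * W.card) := by ring
      show 4000 * ∑ v ∈ W, dg G Md v ≤ 2 * (r * W.card)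
      omega
    · intro S hS
      exact hEG S (hS.trans hWH)
    · have h1 : (12 * k + 1) * (r * W.card) = (12 * k + 1) * r * W.card := by ring
      rw [h1]
      exact hS

end Pool.Agent.FRC
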