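import Mathlib

set_option linter.all false

/-!
# Linear sampling: a finite family of `[0,1]`-valued weights can be split evenly among `k` colours

The proof is by the method of conditional expectations (an exponential potential), so no
probability space is needed.
-/

namespace Pool.Agent.FRC

open Finset

universe u

/-- one factor of the potential -/
noncomputable def lfac (k : ℕ) (lam x : ℝ) : ℝ := 1 - (1 - Real.exp (-(lam * x))) / k

theorem lfac_avg {k : ℕ} (hk : 0 < k) (lam x : ℝ) (i : Fin k) :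
    ∑ t : Fin k, (if t = i then Real.exp (-(lam * x)) else 1) = k * lfac k lam x := by
  have hk' : (k : ℝ) ≠ 0 := by exact_mod_cast hk.ne'
  have h1 : ∀ t : Fin k, (if t = i then Real.exp (-(lam * x)) else (1 : ℝ)) =
      1 - (if t = i then (1 - Real.exp (-(lam * x))) else 0) := by
    intro t
    split_ifs <;> ring
  rw [Finset.sum_congr rfl fun t _ => h1 t, Finset.sum_sub_distrib,
    Finset.sum_ite_eq' Finset.univ i, if_pos (Finset.mem_univ i)]
  simp only [Finset.sum_const, Finset.card_univ, Fintype.card_fin, nsmul_eq_mul, mul_one]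
  unfold lfac
  field_simp

theorem lfac_nonneg {k : ℕ} (hk : 0 < k) {lam x : ℝ} : 0 ≤ lfac k lam x := by
  have hk1 : (1 : ℝ) ≤ k := by exact_mod_cast hk
  have h0 : (0 : ℝ) < Real.exp (-(lam * x)) := Real.exp_pos _
  unfold lfac
  have h2 : (1 - Real.exp (-(lam * x))) / k ≤ 1 := by
    rw [div_le_one (by linarith)]
    linarith
  linarith

theorem lfac_le {k : ℕ} (hk : 0 < k) {lam x : ℝ} (hl : 0 ≤ lam) (hx : 0 ≤ x) (hx1 : x ≤ 1) :
    lfac k lam x ≤ Real.exp (-((lam - lam ^ 2 / 2) * x / k)) := by
  have hk1 : (0 : ℝ) < k := by exact_mod_cast hk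
  have h1 : Real.exp (-(lam * x)) ≤ 1 - lam * x + (lam * x) ^ 2 / 2 := by
    have hy : 0 ≤ lam * x := mul_nonneg hl hx
    have h2 := Real.quadratic_le_exp_of_nonneg hy
    have h3 : (0 : ℝ) < 1 + lam * x + (lam * x) ^ 2 / 2 := by positivity
    rw [Real.exp_neg]
    have h4 : (Real.exp (lam * x))⁻¹ ≤ (1 + lam * x + (lam * x) ^ 2 / 2)⁻¹ :=
      inv_anti₀ h3 h2
    refine h4.trans ?_
    rw [inv_le_iff_one_le_mul₀ h3]
    nlinarith [sq_nonneg (lam * x), sq_nonneg ((lam * x) ^ 2), mul_nonneg hy (sq_nonneg (lam * x))]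
  have h2 : (lam * x) ^ 2 ≤ lam ^ 2 * x := by
    have : x ^ 2 ≤ x := by nlinarith
    nlinarith [sq_nonneg lam]
  have h3 : (lam - lam ^ 2 / 2) * x ≤ 1 - Real.exp (-(lam * x)) := by nlinarith
  unfold lfac
  have h4 : (lam - lam ^ 2 / 2) * x / k ≤ (1 - Real.exp (-(lam * x))) / k := by gcongr
  have h5 := Real.add_one_le_exp (-((lam - lam ^ 2 / 2) * x / k))
  linarith

/-- the potential argument -/
theorem lin_pot {V : Type*} [DecidableEq V] {ι : Type*} {k : ℕ} (hk : 0 < k) (lam : ℝ)
    (J : Finset ι) (w : ι → V → ℝ) (U : Finset V) :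
    ∀ c : ι → Fin k → ℝ, (∀ j i, 0 ≤ c j i) → ∃ f : V → Fin k,
      ∑ j ∈ J, ∑ i : Fin k, c j i * Real.exp (-(lam * ∑ u ∈ U with f u = i, w j u)) ≤
        ∑ j ∈ J, ∑ i : Fin k, c j i * ∏ u ∈ U, lfac k lam (w j u) := by
  classical
  induction U using Finset.induction_on with
  | empty =>
    intro c hc
    exact ⟨fun _ => ⟨0, hk⟩, by simp⟩
  | insert a U ha ih =>
    intro c hc
    have hne : (Finset.univ : Finset (Fin k)).Nonempty := ⟨⟨0, hk⟩, Finset.mem_univ _⟩
    -- the average over the colour `t` of `a`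
    obtain ⟨t, -, ht⟩ : ∃ t ∈ (Finset.univ : Finset (Fin k)),
        ∑ j ∈ J, ∑ i : Fin k, (c j i * (if t = i then Real.exp (-(lam * w j a)) else 1)) *
            ∏ u ∈ U, lfac k lam (w j u) ≤
          ∑ j ∈ J, ∑ i : Fin k, c j i * ∏ u ∈ insert a U, lfac k lam (w j u) := by
      refine Finset.exists_le_of_sum_le hne ?_
      rw [Finset.sum_comm]
      simp only [Finset.sum_const, Finset.card_univ, Fintype.card_fin, nsmul_eq_mul]
      rw [Finset.mul_sum]
      refine Finset.sum_le_sum fun j _ => ?_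
      rw [Finset.sum_comm, Finset.mul_sum]
      refine Finset.sum_le_sum fun i _ => ?_
      rw [Finset.prod_insert ha]
      have : ∑ t : Fin k, c j i * (if t = i then Real.exp (-(lam * w j a)) else 1) *
          ∏ u ∈ U, lfac k lam (w j u) =
          c j i * (∑ t : Fin k, (if t = i then Real.exp (-(lam * w j a)) else 1)) *
            ∏ u ∈ U, lfac k lam (w j u) := by
        rw [Finset.mul_sum, Finset.sum_mul]
      rw [this, lfac_avg hk]
      apply le_of_eq
      ring
    obtain ⟨f0, hf0⟩ := ih (fun j i => c j i * (if t = i then Real.exp (-(lam * w j a)) else 1))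
      (fun j i => mul_nonneg (hc j i) (by split_ifs <;> positivity))
    refine ⟨Function.update f0 a t, le_trans (le_of_eq ?_) (hf0.trans ht)⟩
    refine Finset.sum_congr rfl fun j _ => Finset.sum_congr rfl fun i _ => ?_
    have hU : (U.filter fun u => Function.update f0 a t u = i) = U.filter fun u => f0 u = i := by
      refine Finset.filter_congr fun u hu => ?_
      have hne' : u ≠ a := by
        rintro rfl
        exact ha hu
      rw [Function.update_of_ne hne']
    have hins : ((insert a U).filter fun u => Function.update f0 a t u = i) =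
        if t = i then insert a (U.filter fun u => f0 u = i) else U.filter fun u => f0 u = i := by
      rw [Finset.filter_insert, hU, Function.update_self]
    rw [hins]
    split_ifs with hti
    · rw [Finset.sum_insert (fun h => ha (Finset.mem_filter.1 h).1), mul_add, neg_add,
        Real.exp_add]
      ring
    · ring

/-- **Linear sampling.** -/
theorem lin_sample {V : Type*} [DecidableEq V] {ι : Type*} {k : ℕ} (hk : 0 < k) {ε : ℝ}
    (hε : 0 < ε) (J : Finset ι) (w : ι → V → ℝ) (U : Finset V)
    (hw : ∀ j ∈ J, ∀ u ∈ U, 0 ≤ w j u ∧ w j u ≤ 1)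
    (hJ : (J.card : ℝ) * k * Real.exp (-(ε ^ 2 * U.card / 2)) < 1) :
    ∃ f : V → Fin k, ∀ j ∈ J, ∀ i : Fin k,
      (∑ u ∈ U, w j u) / k - ε * U.card ≤ ∑ u ∈ U with f u = i, w j u := by
  classical
  have hk1 : (0 : ℝ) < k := by exact_mod_cast hk
  have hk2 : (1 : ℝ) ≤ k := by exact_mod_cast hk
  obtain ⟨f, hf⟩ := lin_pot hk ε J w U
    (fun j _ => Real.exp (ε * ((∑ u ∈ U, w j u) / k - ε * U.card)))
    (fun _ _ => (Real.exp_pos _).le)
  refine ⟨f, fun j hj i => ?_⟩
  -- bound of the right hand side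
  have hR : ∑ j ∈ J, ∑ i : Fin k, Real.exp (ε * ((∑ u ∈ U, w j u) / k - ε * U.card)) *
      ∏ u ∈ U, lfac k ε (w j u) ≤ (J.card : ℝ) * k * Real.exp (-(ε ^ 2 * U.card / 2)) := by
    have hterm : ∀ j ∈ J, ∑ i : Fin k, Real.exp (ε * ((∑ u ∈ U, w j u) / k - ε * U.card)) *
      ∏ u ∈ U, lfac k ε (w j u) ≤ k * Real.exp (-(ε ^ 2 * U.card / 2)) := by
      intro j hj
      rw [Finset.sum_const, Finset.card_univ, Fintype.card_fin, nsmul_eq_mul]
      refine mul_le_mul_of_nonneg_left ?_ hk1.le
      have h1 : ∏ u ∈ U, lfac k ε (w j u) ≤ ∏ u ∈ U, Real.exp (-((ε - ε ^ 2 / 2) * w j u / k)) :=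
        Finset.prod_le_prod (fun u _ => lfac_nonneg hk)
          (fun u hu => lfac_le hk hε.le (hw j hj u hu).1 (hw j hj u hu).2)
      rw [← Real.exp_sum] at h1
      have h2 : ∑ u ∈ U, -((ε - ε ^ 2 / 2) * w j u / k) =
          -((ε - ε ^ 2 / 2) * (∑ u ∈ U, w j u) / k) := by
        rw [Finset.sum_neg_distrib, Finset.mul_sum, Finset.sum_div]
      rw [h2] at h1
      have hS : ∑ u ∈ U, w j u ≤ U.card := by
        calc ∑ u ∈ U, w j u ≤ ∑ u ∈ U, (1 : ℝ) := Finset.sum_le_sum fun u hu => (hw j hj u hu).2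
          _ = U.card := by simp
      have hS0 : 0 ≤ ∑ u ∈ U, w j u := Finset.sum_nonneg fun u hu => (hw j hj u hu).1
      refine (mul_le_mul_of_nonneg_left h1 (Real.exp_pos _).le).trans ?_
      rw [← Real.exp_add, Real.exp_le_exp]
      have h3 : (∑ u ∈ U, w j u) / k ≤ U.card := by
        rw [div_le_iff₀ hk1]
        have : (0 : ℝ) ≤ U.card := by positivity
        nlinarith
      have h4 : (ε - ε ^ 2 / 2) * (∑ u ∈ U, w j u) / k = (ε - ε ^ 2 / 2) * ((∑ u ∈ U, w j u) / k) := by
        ring
      rw [h4]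
      nlinarith [sq_nonneg ε, mul_le_mul_of_nonneg_left h3 (sq_nonneg ε)]
    calc _ ≤ ∑ j ∈ J, k * Real.exp (-(ε ^ 2 * U.card / 2)) := Finset.sum_le_sum hterm
      _ = _ := by rw [Finset.sum_const, nsmul_eq_mul]; ring
  have hlt := (hf.trans hR).trans_lt hJ
  have hone : Real.exp (ε * ((∑ u ∈ U, w j u) / k - ε * U.card)) *
      Real.exp (-(ε * ∑ u ∈ U with f u = i, w j u)) < 1 := by
    refine lt_of_le_of_lt ?_ hlt
    have h1 : Real.exp (ε * ((∑ u ∈ U, w j u) / k - ε * U.card)) *
        Real.exp (-(ε * ∑ u ∈ U with f u = i, w j u)) ≤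
        ∑ i : Fin k, Real.exp (ε * ((∑ u ∈ U, w j u) / k - ε * U.card)) *
          Real.exp (-(ε * ∑ u ∈ U with f u = i, w j u)) :=
      Finset.single_le_sum (f := fun i => Real.exp (ε * ((∑ u ∈ U, w j u) / k - ε * U.card)) *
        Real.exp (-(ε * ∑ u ∈ U with f u = i, w j u))) (fun i _ => by positivity)
        (Finset.mem_univ i)
    refine h1.trans ?_
    exact Finset.single_le_sum (f := fun j => ∑ i : Fin k,
      Real.exp (ε * ((∑ u ∈ U, w j u) / k - ε * U.card)) *
        Real.exp (-(ε * ∑ u ∈ U with f u = i, w j u)))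
      (fun j _ => Finset.sum_nonneg fun i _ => by positivity) hj
  rw [← Real.exp_add, Real.exp_lt_one_iff] at hone
  by_contra hcon
  push Not at hcon
  nlinarith

/-! ### exact class sizes -/

/-- distribute a finite set into classes of prescribed sizes -/
theorem distribute {V : Type*} [DecidableEq V] {k : ℕ} (hk : 0 < k) (L : Finset V)
    (s : Fin k → ℕ) (hs : ∑ i, s i = L.card) :
    ∃ g : V → Fin k, ∀ i, (L.filter fun u => g u = i).card = s i := by
  classical
  have hcard : Fintype.card L = Fintype.card (Σ i : Fin k, Fin (s i)) := by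
    rw [Fintype.card_coe, Fintype.card_sigma, ← hs]
    simp
  let e : L ≃ Σ i : Fin k, Fin (s i) := Fintype.equivOfCardEq hcard
  refine ⟨fun u => if h : u ∈ L then (e ⟨u, h⟩).1 else ⟨0, hk⟩, fun i => ?_⟩
  symm
  rw [← Fintype.card_fin (s i), ← Finset.card_univ]
  refine Finset.card_bij (fun (x : Fin (s i)) _ => ((e.symm ⟨i, x⟩ : L) : V)) ?_ ?_ ?_
  · intro x _
    rw [Finset.mem_filter]
    refine ⟨(e.symm ⟨i, x⟩).2, ?_⟩
    show (if h : ((e.symm ⟨i, x⟩ : L) : V) ∈ L then (e ⟨_, h⟩).1 else ⟨0, hk⟩) = i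
    rw [dif_pos (e.symm ⟨i, x⟩).2]
    have : (⟨((e.symm ⟨i, x⟩ : L) : V), (e.symm ⟨i, x⟩).2⟩ : L) = e.symm ⟨i, x⟩ := rfl
    rw [this, Equiv.apply_symm_apply]
  · intro x _ y _ hxy
    have h1 : e.symm ⟨i, x⟩ = e.symm ⟨i, y⟩ := Subtype.ext hxy
    have h2 := e.symm.injective h1
    exact eq_of_heq (Sigma.mk.inj_iff.1 h2).2
  · intro u hu
    rw [Finset.mem_filter] at hu
    obtain ⟨huL, h2⟩ := hu
    replace h2 : (if h : u ∈ L then (e ⟨u, h⟩).1 else (⟨0, hk⟩ : Fin k)) = i := h2
    rw [dif_pos huL] at h2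
    subst h2
    refine ⟨(e ⟨u, huL⟩).2, Finset.mem_univ _, ?_⟩
    have : (⟨(e ⟨u, huL⟩).1, (e ⟨u, huL⟩).2⟩ : Σ i : Fin k, Fin (s i)) = e ⟨u, huL⟩ := rfl
    rw [this, Equiv.symm_apply_apply]

/-- the balanced class sizes -/
def bsz (n k : ℕ) (i : Fin k) : ℕ := n / k + if i.val < n % k then 1 else 0

theorem sum_bsz {n k : ℕ} (hk : 0 < k) : ∑ i : Fin k, bsz n k i = n := by
  unfold bsz
  rw [Finset.sum_add_distrib, Finset.sum_const, Finset.card_univ, Fintype.card_fin, smul_eq_mul]
  have h1 : ∑ i : Fin k, (if i.val < n % k then 1 else 0) = n % k := by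
    rw [Fin.sum_univ_eq_sum_range (fun i => if i < n % k then 1 else 0) k,
      ← Finset.sum_filter, Finset.sum_const, smul_eq_mul, mul_one]
    have : (Finset.range k).filter (fun i => i < n % k) = Finset.range (n % k) := by
      ext i
      rw [Finset.mem_filter, Finset.mem_range, Finset.mem_range]
      have := Nat.mod_lt n hk
      omega
    rw [this, Finset.card_range]
  rw [h1]
  exact Nat.div_add_mod n k

/-- recolour few elements so that all classes get their prescribed size -/
theorem recolour {V : Type*} [DecidableEq V] {k : ℕ} (hk : 0 < k) (U : Finset V)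
    (f : V → Fin k) (s : Fin k → ℕ) (hs : ∑ i, s i = U.card) :
    ∃ g : V → Fin k, (∀ i, (U.filter fun u => g u = i).card = s i) ∧
      ∀ i, ((U.filter fun u => f u = i) \ (U.filter fun u => g u = i)).card ≤
        (U.filter fun u => f u = i).card - s i := by
  classical
  have hQ : ∀ i : Fin k, ∃ Q ⊆ U.filter (fun u => f u = i),
      Q.card = min (U.filter fun u => f u = i).card (s i) := fun i =>
    Finset.exists_subset_card_eq (min_le_left _ _)
  choose Q hQ1 hQ2 using hQ
  set Q' : Finset V := Finset.univ.biUnion Q with hQ'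
  have hQU : Q' ⊆ U := by
    intro u hu
    rw [hQ', Finset.mem_biUnion] at hu
    obtain ⟨i, -, hi⟩ := hu
    exact (Finset.mem_filter.1 (hQ1 i hi)).1
  have hcol : ∀ i, ∀ u ∈ Q i, f u = i := fun i u hu => (Finset.mem_filter.1 (hQ1 i hu)).2
  have hQcard : Q'.card = ∑ i, (Q i).card := by
    rw [hQ', Finset.card_biUnion]
    intro i _ j _ hij
    show Disjoint (Q i) (Q j)
    rw [Finset.disjoint_left]
    intro u hu hu'
    exact hij ((hcol i u hu).symm.trans (hcol j u hu'))
  have hle : ∀ i, (Q i).card ≤ s i := fun i => by rw [hQ2]; exact min_le_right _ _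
  obtain ⟨h, hh⟩ := distribute hk (U \ Q') (fun i => s i - (Q i).card) (by
    rw [Finset.card_sdiff_of_subset hQU, hQcard, ← hs, Finset.sum_tsub_distrib]
    intro i _
    exact hle i)
  have hmemQ : ∀ u i, u ∈ Q i → u ∈ Q' := fun u i hu =>
    Finset.mem_biUnion.2 ⟨i, Finset.mem_univ _, hu⟩
  set g : V → Fin k := fun u => if u ∈ Q' then f u else h u with hg
  have hgQ : ∀ i, (U.filter fun u => g u = i) =
      Q i ∪ ((U \ Q').filter fun u => h u = i) := by
    intro i
    ext u
    rw [Finset.mem_filter, Finset.mem_union, Finset.mem_filter, Finset.mem_sdiff]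
    constructor
    · rintro ⟨hu, h2⟩
      by_cases hq : u ∈ Q'
      · left
        rw [hg] at h2
        simp only [if_pos hq] at h2
        rw [hQ', Finset.mem_biUnion] at hq
        obtain ⟨j, -, hj⟩ := hq
        have := hcol j u hj
        rw [h2] at this
        rw [this]
        exact hj
      · right
        rw [hg] at h2
        simp only [if_neg hq] at h2
        exact ⟨⟨hu, hq⟩, h2⟩
    · rintro (hu | ⟨⟨hu, hq⟩, h2⟩)
      · refine ⟨hQU (hmemQ u i hu), ?_⟩
        rw [hg]
        simp only [if_pos (hmemQ u i hu)]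
        exact hcol i u hu
      · refine ⟨hu, ?_⟩
        rw [hg]
        simp only [if_neg hq]
        exact h2
  refine ⟨g, fun i => ?_, fun i => ?_⟩
  · rw [hgQ, Finset.card_union_of_disjoint, hh]
    · have := hle i
      omega
    · rw [Finset.disjoint_left]
      intro u hu hu'
      exact (Finset.mem_sdiff.1 (Finset.mem_filter.1 hu').1).2 (hmemQ u i hu)
  · have h1 : ((U.filter fun u => f u = i) \ (U.filter fun u => g u = i)) ⊆
        (U.filter fun u => f u = i) \ Q i := by
      refine Finset.sdiff_subset_sdiff (Finset.Subset.refl _) ?_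
      rw [hgQ]
      exact Finset.subset_union_left
    refine (Finset.card_le_card h1).trans ?_
    rw [Finset.card_sdiff_of_subset (hQ1 i), hQ2]
    omega

/-- **Balanced linear sampling.** -/
theorem bal_sample {V : Type*} [DecidableEq V] {ι : Type*} {k : ℕ} (hk : 0 < k) {ε : ℝ}
    (hε : 0 < ε) (J : Finset ι) (w : ι → V → ℝ) (U : Finset V)
    (hw : ∀ j ∈ J, ∀ u ∈ U, 0 ≤ w j u ∧ w j u ≤ 1)
    (hJ : ((J.card : ℝ) + 1) * k * Real.exp (-(ε ^ 2 * U.card / 2)) < 1) :
    ∃ f : V → Fin k, (∀ i : Fin k, (U.filter fun u => f u = i).card = bsz U.card k i) ∧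
      ∀ j ∈ J, ∀ i : Fin k,
        (∑ u ∈ U, w j u) / k - k * ε * U.card - 1 ≤ ∑ u ∈ U with f u = i, w j u := by
  classical
  have hk1 : (0 : ℝ) < k := by exact_mod_cast hk
  -- add the constant weight
  set w' : Option ι → V → ℝ := fun o u => o.elim 1 (fun j => w j u) with hw'
  set J' : Finset (Option ι) := insertNone J with hJ'
  have hcardJ : (J'.card : ℝ) = J.card + 1 := by
    rw [hJ', Finset.card_insertNone]; push_cast; ring
  obtain ⟨f, hf⟩ := lin_sample hk hε J' w' U (by
    intro o ho u hu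
    cases o with
    | none => simp [hw']
    | some j => exact hw j (by simpa [hJ'] using ho) u hu) (by rw [hcardJ]; exact hJ)
  have hsize : ∀ i : Fin k, (U.card : ℝ) / k - ε * U.card ≤ (U.filter fun u => f u = i).card := by
    intro i
    have := hf none (by simp [hJ']) i
    simpa [hw'] using this
  obtain ⟨g, hg1, hg2⟩ := recolour hk U f (bsz U.card k) (sum_bsz hk)
  refine ⟨g, hg1, fun j hj i => ?_⟩
  have hj' := hf (some j) (by simpa [hJ'] using hj) i
  simp only [hw', Option.elim] at hj'
  -- an upper bound for the class `i` of `f`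
  have hup : ((U.filter fun u => f u = i).card : ℝ) ≤ U.card / k + (k - 1) * ε * U.card := by
    have h1 : ∑ i : Fin k, ((U.filter fun u => f u = i).card : ℝ) = U.card := by
      rw [← Nat.cast_sum]
      congr 1
      exact (Finset.card_eq_sum_card_fiberwise (fun u _ => Finset.mem_coe.2 (Finset.mem_univ (f u)))).symm
    rw [← Finset.add_sum_erase _ _ (Finset.mem_univ i)] at h1
    have h2 : ∑ i' ∈ Finset.univ.erase i, ((U.card : ℝ) / k - ε * U.card) ≤
        ∑ i' ∈ Finset.univ.erase i, ((U.filter fun u => f u = i').card : ℝ) :=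
      Finset.sum_le_sum fun i' _ => hsize i'
    rw [Finset.sum_const, Finset.card_erase_of_mem (Finset.mem_univ i), Finset.card_univ,
      Fintype.card_fin, nsmul_eq_mul, Nat.cast_sub (by omega), Nat.cast_one] at h2
    have h3 : ((k : ℝ) - 1) * (U.card / k - ε * U.card) =
        U.card - U.card / k - (k - 1) * ε * U.card := by
      field_simp
    linarith
  have hb : (U.card : ℝ) / k - 1 ≤ bsz U.card k i := by
    have h1 : (U.card : ℝ) / k < (U.card / k : ℕ) + 1 := by
      rw [div_lt_iff₀ hk1]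
      have := Nat.lt_div_mul_add (a := U.card) hk
      have h2 : U.card < (U.card / k + 1) * k := by
        rw [Nat.add_mul, one_mul]
        exact this
      exact_mod_cast h2
    have h2 : ((U.card / k : ℕ) : ℝ) ≤ bsz U.card k i := by
      unfold bsz
      exact_mod_cast Nat.le_add_right _ _
    linarith
  -- compare the two sums
  have hsplit : ∑ u ∈ U with f u = i, w j u ≤ ∑ u ∈ U with g u = i, w j u +
      ((U.filter fun u => f u = i) \ (U.filter fun u => g u = i)).card := by
    have h1 : (U.filter fun u => f u = i) ⊆ (U.filter fun u => g u = i) ∪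
        ((U.filter fun u => f u = i) \ (U.filter fun u => g u = i)) := by
      intro u hu
      by_cases h : u ∈ U.filter fun u => g u = i
      · exact Finset.mem_union_left _ h
      · exact Finset.mem_union_right _ (Finset.mem_sdiff.2 ⟨hu, h⟩)
    calc ∑ u ∈ U with f u = i, w j u ≤ ∑ u ∈ (U.filter fun u => g u = i) ∪
        ((U.filter fun u => f u = i) \ (U.filter fun u => g u = i)), w j u := by
          refine Finset.sum_le_sum_of_subset_of_nonneg h1 fun u hu _ => ?_
          rw [Finset.mem_union, Finset.mem_sdiff, Finset.mem_filter, Finset.mem_filter] at hu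
          have huU : u ∈ U := by tauto
          exact (hw j hj u huU).1
      _ = ∑ u ∈ U with g u = i, w j u +
        ∑ u ∈ (U.filter fun u => f u = i) \ (U.filter fun u => g u = i), w j u :=
          Finset.sum_union Finset.disjoint_sdiff
      _ ≤ _ := by
          refine add_le_add le_rfl ?_
          calc _ ≤ ∑ u ∈ (U.filter fun u => f u = i) \ (U.filter fun u => g u = i), (1 : ℝ) := by
                refine Finset.sum_le_sum fun u hu => ?_
                rw [Finset.mem_sdiff, Finset.mem_filter] at hu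
                exact (hw j hj u hu.1.1).2
            _ = _ := by simp
  have hmoved : (((U.filter fun u => f u = i) \ (U.filter fun u => g u = i)).card : ℝ) ≤
      (k - 1) * ε * U.card + 1 := by
    have h1 := hg2 i
    have h2 : (((U.filter fun u => f u = i).card - bsz U.card k i : ℕ) : ℝ) ≤
        (k - 1) * ε * U.card + 1 := by
      rcases le_total (bsz U.card k i) (U.filter fun u => f u = i).card with h | h
      · rw [Nat.cast_sub h]
        linarith
      · rw [Nat.sub_eq_zero_of_le h]
        have hk2 : (1 : ℝ) ≤ k := by exact_mod_cast hk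
        have h3 : 0 ≤ (k - 1) * ε * (U.card : ℝ) := by
          have : (0 : ℝ) ≤ (k : ℝ) - 1 := by linarith
          positivity
        push_cast
        linarith
    exact le_trans (by exact_mod_cast h1) h2
  nlinarith

end Pool.Agent.FRC
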