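import Pool.Agent.FRC.Sparse
import Pool.Agent.FRC.Dense

set_option linter.all false

namespace Pool.Agent.FRC

universe u

theorem all_large : ∃ N₀ : ℕ, ∀ k r : ℕ, 2 ≤ k → 4 ≤ r →
    ∀ (V : Type u) [Fintype V] (G : SimpleGraph V) [DecidableRel G.Adj],
      k * r ≤ Fintype.card V → N₀ ≤ Fintype.card V →
      (2 / 3 : ℝ) * k * r ≤ (G.minDegree : ℝ) →
        ∃ (a : Fin k → V) (c : (i : Fin k) → G.Walk (a i) (a i)),
          (∀ i, (c i).IsCycle ∧ r ≤ (c i).length) ∧
          ∀ i j, i ≠ j → ∀ x, x ∈ (c i).support → x ∉ (c j).support :=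
  final_of fun k hk => thmR_of (fun C => dense k hk C) (sparse k hk)

end Pool.Agent.FRC
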