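import Pool.Agent.LCK.Asm

/-!
# ROW R9b: many disjoint cycles through rich centres
-/

set_option linter.all false

namespace Pool.Agent.FRC

open Pool.Agent.Helper14.LongCyc Pool.Agent.LCK

universe u

theorem near_remove {V : Type u} [DecidableEq V] {G : SimpleGraph V} {S Z Y S' : Finset V}
    {m b a : ℕ} (hN : Near G S Z m b) (hS' : S' ⊆ S) (hY : Y.card ≤ a) :
    Near G S' (Z \ Y) (m - a) b := by
  classical
  intro x hx
  have h0 : (S.filter fun y => y ≠ x ∧ ¬ Rich G Z m x y).card ≤ b := by convert hN x (hS' hx)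
  suffices hg : (S'.filter fun y => y ≠ x ∧ ¬ Rich G (Z \ Y) (m - a) x y).card ≤ b by
    convert hg
  refine le_trans (Finset.card_le_card ?_) h0
  intro y hy
  rw [Finset.mem_filter] at hy
  rw [Finset.mem_filter]
  refine ⟨hS' hy.1, hy.2.1, fun hr => hy.2.2 ?_⟩
  unfold Rich at hr ⊢
  have h1 : (Z.filter fun z => G.Adj x z ∧ G.Adj y z).card ≤
      ((Z \ Y).filter fun z => G.Adj x z ∧ G.Adj y z).card + Y.card := by
    refine le_trans (Finset.card_le_card ?_) (Finset.card_union_le _ _)
    intro z hz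
    rw [Finset.mem_filter] at hz
    rw [Finset.mem_union, Finset.mem_filter, Finset.mem_sdiff]
    by_cases hzY : z ∈ Y
    · exact Or.inr hzY
    · exact Or.inl ⟨⟨hz.1, hzY⟩, hz.2⟩
  have h2 : m ≤ (Z.filter fun z => G.Adj x z ∧ G.Adj y z).card := by
    convert hr
  have h3 : m - a ≤ ((Z \ Y).filter fun z => G.Adj x z ∧ G.Adj y z).card := by omega
  convert h3

/-- **ROW R9b** -/
theorem near_cycles {V : Type u} [DecidableEq V] {G : SimpleGraph V} {a b : ℕ} (ha : 2 ≤ a) :
    ∀ (k : ℕ) {S Z : Finset V} {m : ℕ}, k * a + 2 * b ≤ S.card → (k + 1) * a ≤ m →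
      Near G S Z m b → Disjoint S Z →
      ∃ F, Fam G (S ∪ Z) (fun L => L = 2 * a) F ∧ F.card = k := by
  classical
  intro k
  induction k with
  | zero =>
    intro S Z m _ _ _ _
    exact ⟨∅, Fam.empty, by simp⟩
  | succ k ih =>
    intro S Z m hS hm hN hSZ
    have e1 : (k + 1) * a = k * a + a := by ring
    have e2 : (k + 1 + 1) * a = (k + 1) * a + a := by ring
    obtain ⟨X, Y, h1, h2, h3, h4, h5, h6⟩ := asm_cyc (s := a) ha (by omega) hN (by omega)
    have hN' : Near G (S \ X) (Z \ Y) (m - a) b := near_remove hN Finset.sdiff_subset h5.le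
    have hSX : (S \ X).card = S.card - a := by
      rw [Finset.card_sdiff_of_subset h1, h4]
    obtain ⟨F, f1, f2⟩ := ih (S := S \ X) (Z := Z \ Y) (m := m - a) (by omega) (by omega) hN'
      (Finset.disjoint_of_subset_left Finset.sdiff_subset
        (Finset.disjoint_of_subset_right Finset.sdiff_subset hSZ))
    have f3 : Fam G (S ∪ Z) (fun L => L = 2 * a) F :=
      f1.mono (Finset.union_subset_union Finset.sdiff_subset Finset.sdiff_subset) fun n h => h
    obtain ⟨g1, g2⟩ := f3.add (D := X ∪ Y) h6 (by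
      intro v hv
      rw [mem_rest]
      rw [Finset.mem_union] at hv
      refine ⟨?_, fun s hs hvs => ?_⟩
      · rw [Finset.mem_union]
        rcases hv with hv | hv
        · exact Or.inl (h1 hv)
        · exact Or.inr (h2 hv)
      · have h7 := f1.sub s hs hvs
        rw [Finset.mem_union, Finset.mem_sdiff, Finset.mem_sdiff] at h7
        rcases hv with hv | hv
        · rcases h7 with h7 | h7
          · exact h7.2 hv
          · exact (Finset.disjoint_left.1 hSZ) (h1 hv) h7.1
        · rcases h7 with h7 | h7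
          · exact (Finset.disjoint_left.1 hSZ) h7.1 (h2 hv)
          · exact h7.2 hv) (by
      show (X ∪ Y).card = 2 * a
      rw [Finset.card_union_of_disjoint h3, h4, h5]
      ring)
    exact ⟨_, g1, by rw [g2, f2]⟩

end Pool.Agent.FRC
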