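import Pool.Agent.LCK.Defs

/-!
# Row R10: disjoint paths with light ends in a sparse graph
-/

set_option linter.all false

namespace Pool.Agent.FRC.R10

open Pool.Agent.Helper14.LongCyc Pool.Agent.LCK

universe u

variable {V : Type u}

/-- the graph of the edges with at least one end in `L` -/
def touch (G : SimpleGraph V) (L : Finset V) : SimpleGraph V where
  Adj u v := G.Adj u v ∧ (u ∈ L ∨ v ∈ L)
  symm := ⟨fun u v h => ⟨h.1.symm, h.2.symm⟩⟩
  loopless := ⟨fun u h => (G.ne_of_adj h.1) rfl⟩

theorem dense_sub [DecidableEq V] {G : SimpleGraph V} (s : ℕ) : ∀ (n : ℕ) (A : Finset V),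
    A.card ≤ n → 2 * s * A.card < eS G A A →
    ∃ B ⊆ A, B.Nonempty ∧ ∀ v ∈ B, s + 1 ≤ dg G B v := by
  classical
  intro n
  induction n with
  | zero =>
    intro A hA h
    have h0 : A = ∅ := Finset.card_eq_zero.1 (by omega)
    subst h0
    simp [eS] at h
  | succ n ih =>
    intro A hA h
    by_cases hall : ∀ v ∈ A, s + 1 ≤ dg G A v
    · refine ⟨A, Finset.Subset.refl _, ?_, hall⟩
      rw [Finset.nonempty_iff_ne_empty]
      rintro rfl
      simp [eS] at h
    · push Not at hall
      obtain ⟨v, hv, hdv⟩ := hall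
      have hins : A = A.erase v ∪ {v} := by
        ext x
        simp only [Finset.mem_union, Finset.mem_erase, Finset.mem_singleton]
        constructor
        · intro hx
          by_cases hxv : x = v
          · exact Or.inr hxv
          · exact Or.inl ⟨hxv, hx⟩
        · rintro (hx | rfl)
          · exact hx.2
          · exact hv
      have hdisj : Disjoint (A.erase v) {v} := by
        rw [Finset.disjoint_singleton_right]
        simp
      have e1 : eS G A A = eS G (A.erase v) (A.erase v) + 2 * eS G (A.erase v) {v}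
          + eS G {v} {v} := by
        conv_lhs => rw [hins]
        exact eS_self_union hdisj
      have e2 : eS G (A.erase v) {v} ≤ s := by
        rw [eS_comm]
        have : eS G {v} (A.erase v) = dg G (A.erase v) v := by simp [eS]
        rw [this]
        have := dg_mono (G := G) (Finset.erase_subset v A) v
        omega
      have e3 : eS G {v} {v} = 0 := by
        have : eS G {v} {v} = dg G {v} v := by simp [eS]
        rw [this]
        unfold dg
        rw [Finset.card_eq_zero, Finset.filter_eq_empty_iff]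
        intro x hx
        rw [Finset.mem_singleton] at hx
        subst hx
        exact G.irrefl
      have hc : (A.erase v).card + 1 = A.card := Finset.card_erase_add_one hv
      obtain ⟨B, hB, hBn, hBd⟩ := ih (A.erase v) (by omega) (by
        have h2 : 2 * s * A.card = 2 * s * (A.erase v).card + 2 * s := by
          rw [← hc]; ring
        omega)
      exact ⟨B, hB.trans (Finset.erase_subset _ _), hBn, hBd⟩

theorem path_of_min [DecidableEq V] {G : SimpleGraph V} {s : ℕ} {B : Finset V} (hB : B.Nonempty)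
    (h : ∀ v ∈ B, s + 1 ≤ dg G B v) :
    ∃ (p : List V) (a b : V), Pth G a b p ∧ (∀ x ∈ p, x ∈ B) ∧ s + 2 ≤ p.length := by
  classical
  obtain ⟨a, ha⟩ := hB
  obtain ⟨q, z, hq, hz, hzB, hmax⟩ := extend (G := G) B _ [a] a a le_rfl (Pth.singleton a)
  have hzB' : z ∈ B := by
    rcases hzB with rfl | h
    · exact ha
    · exact h
  refine ⟨q ++ [a], z, a, hz, ?_, ?_⟩
  · intro x hx
    rw [List.mem_append, List.mem_singleton] at hx
    rcases hx with hx | rfl
    · exact hq x hx
    · exact ha
  · have h1 := h z hzB'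
    have h2 : dg G B z ≤ ((q ++ [a]).toFinset.erase z).card := by
      unfold dg
      refine Finset.card_le_card ?_
      intro u hu
      rw [Finset.mem_filter] at hu
      rw [Finset.mem_erase, List.mem_toFinset]
      exact ⟨fun hzu => (G.ne_of_adj hu.2) hzu.symm, hmax u hu.1 hu.2⟩
    have h3 : z ∈ (q ++ [a]).toFinset := List.mem_toFinset.2 hz.head_mem
    have h4 := Finset.card_erase_add_one h3
    have h5 := List.toFinset_card_le (q ++ [a])
    omega

/-- a long path of `G` in a set with many edges -/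
theorem path_of_dense [DecidableEq V] {G : SimpleGraph V} {s : ℕ} {A : Finset V}
    (h : 2 * s * A.card < eS G A A) :
    ∃ (p : List V) (a b : V), Pth G a b p ∧ (∀ x ∈ p, x ∈ A) ∧ s + 2 ≤ p.length := by
  obtain ⟨B, hBA, hBn, hBd⟩ := dense_sub s A.card A le_rfl h
  obtain ⟨p, a, b, hp, hpB, hl⟩ := path_of_min hBn hBd
  exact ⟨p, a, b, hp, fun x hx => hBA (hpB x hx), hl⟩

/-- consecutive members of a chain are adjacent -/
theorem chain_get {R : V → V → Prop} {l : List V} (h : l.IsChain R) (i : ℕ)
    (hi : i + 1 < l.length) : R (l[i]'(by omega)) (l[i + 1]'hi) :=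
  List.isChain_iff_getElem.1 h i hi

/-- an interval of a path -/
theorem pth_interval {G : SimpleGraph V} {a b : V} {p : List V} (hp : Pth G a b p) (i n : ℕ)
    (hi : i + n < p.length) :
    Pth G (p[i]'(by omega)) (p[i + n]'hi) ((p.drop i).take (n + 1)) ∧
      ((p.drop i).take (n + 1)).length = n + 1 := by
  have hlen : ((p.drop i).take (n + 1)).length = n + 1 := by
    rw [List.length_take, List.length_drop]
    omega
  refine ⟨⟨?_, ?_, ?_, ?_⟩, hlen⟩
  · exact hp.1.sublist ((List.take_sublist _ _).trans (List.drop_sublist _ _))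
  · exact (hp.2.1.drop i).take (n + 1)
  · rw [List.head?_eq_getElem?, List.getElem?_take]
    simp only [Nat.zero_lt_succ, if_true]
    rw [List.getElem?_drop]
    simp only [Nat.add_zero]
    rw [List.getElem?_eq_getElem]
  · rw [List.getLast?_eq_getElem?, hlen]
    simp only [Nat.add_sub_cancel]
    rw [List.getElem?_take]
    simp only [Nat.lt_succ_self, if_true]
    rw [List.getElem?_drop, List.getElem?_eq_getElem]

/-- trimming: a path of `touch G L` with at least `s + 2` vertices contains a path of `G` with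
`s` or `s + 1` vertices and both ends in `L` -/
theorem trim {G : SimpleGraph V} {L : Finset V} {s : ℕ} (hs : 1 ≤ s) {a b : V} {p : List V}
    (hp : Pth (touch G L) a b p) (hl : s + 2 ≤ p.length) :
    ∃ (p' : List V) (a' b' : V), Pth G a' b' p' ∧ a' ∈ L ∧ b' ∈ L ∧ s ≤ p'.length ∧
      p'.length ≤ s + 1 ∧ ∀ x ∈ p', x ∈ p := by
  have hpG : Pth G a b p := ⟨hp.1, hp.2.1.imp fun _ _ h => h.1, hp.2.2⟩
  -- choice of the first end
  obtain ⟨i, hi, hiL⟩ : ∃ i, ∃ hi : i ≤ 1, (p[i]'(by omega)) ∈ L := by
    have h := chain_get hp.2.1 0 (by omega)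
    rcases h.2 with h | h
    · exact ⟨0, by omega, h⟩
    · exact ⟨1, by omega, h⟩
  obtain ⟨n, hn1, hn2, hnL⟩ : ∃ n, ∃ hn1 : n ≤ s, s ≤ n + 1 ∧ (p[i + n]'(by omega)) ∈ L := by
    have h := chain_get hp.2.1 (i + (s - 1)) (by omega)
    rcases h.2 with h | h
    · exact ⟨s - 1, by omega, by omega, h⟩
    · refine ⟨s, by omega, by omega, ?_⟩
      have e : i + (s - 1) + 1 = i + s := by omega
      simpa only [e] using h
  obtain ⟨h1, h2⟩ := pth_interval hpG i n (by omega)
  refine ⟨_, _, _, h1, hiL, hnL, by omega, by omega, ?_⟩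
  intro x hx
  exact List.mem_of_mem_drop (List.mem_of_mem_take hx)

/-- removing a small set does not destroy many edges -/
theorem eS_remove [DecidableEq V] {G : SimpleGraph V} {W L X : Finset V} {D : ℕ} (hL : L ⊆ W)
    (hX : X ⊆ W) (hD : ∀ v ∈ W, dg G W v ≤ D) :
    eS G L W ≤ eS G (L \ X) (W \ X) + 2 * (X.card * D) := by
  have h1 : eS G L W ≤ eS G (L \ X) W + eS G X W := by
    have h := eS_mono_left (G := G) (show L ⊆ (L \ X) ∪ X by
      intro x hx
      rw [Finset.mem_union, Finset.mem_sdiff]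
      by_cases hxX : x ∈ X
      · exact Or.inr hxX
      · exact Or.inl ⟨hx, hxX⟩) W
    rw [eS_union_left Finset.sdiff_disjoint] at h
    exact h
  have h2 : eS G X W ≤ X.card * D := by
    unfold eS
    refine (Finset.sum_le_card_nsmul _ _ D fun v hv => hD v (hX hv)).trans (by simp)
  have h3 : eS G (L \ X) W = eS G (L \ X) (W \ X) + eS G (L \ X) X := eS_split_right hX _
  have h4 : eS G (L \ X) X ≤ X.card * D := by
    rw [eS_comm]
    unfold eS
    refine (Finset.sum_le_card_nsmul _ _ D fun v hv => ?_).trans (by simp)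
    exact (dg_mono (Finset.sdiff_subset.trans hL) v).trans (hD v (hX hv))
  omega

theorem eS_touch [DecidableEq V] {G : SimpleGraph V} {L A L' : Finset V} (h1 : L' ⊆ L)
    (h2 : L' ⊆ A) : eS G L' A ≤ eS (touch G L) A A := by
  classical
  calc eS G L' A ≤ eS (touch G L) L' A := by
        unfold eS
        refine Finset.sum_le_sum fun v hv => ?_
        unfold dg
        refine Finset.card_le_card ?_
        intro u hu
        rw [Finset.mem_filter] at hu ⊢
        exact ⟨hu.1, hu.2, Or.inl (h1 hv)⟩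
    _ ≤ _ := eS_mono_left h2 A

/-- the general form -/
theorem paths_aux [DecidableEq V] {G : SimpleGraph V} {W Lt : Finset V} {s D : ℕ} (hLt : Lt ⊆ W)
    (hs : 1 ≤ s) (hD : ∀ v ∈ W, dg G W v ≤ D) : ∀ m : ℕ,
    2 * s * W.card + 2 * (m * (s + 1)) * D < eS G Lt W →
    ∃ (P : ℕ → List V) (a b : ℕ → V), (∀ i < m, Pth G (a i) (b i) (P i) ∧ s ≤ (P i).length ∧
      (P i).length ≤ s + 1 ∧ a i ∈ Lt ∧ b i ∈ Lt ∧ ∀ x ∈ P i, x ∈ W) ∧
      ∀ i < m, ∀ j < m, i ≠ j → ∀ x ∈ P i, x ∉ P j := by
  intro m
  induction m with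
  | zero =>
    intro h
    have hne : W.Nonempty := by
      rw [Finset.nonempty_iff_ne_empty]
      rintro rfl
      have : Lt = ∅ := Finset.subset_empty.1 hLt
      subst this
      simp [eS] at h
    obtain ⟨w, _⟩ := hne
    exact ⟨fun _ => [], fun _ => w, fun _ => w, fun i hi => absurd hi (by omega),
      fun i hi => absurd hi (by omega)⟩
  | succ m ih =>
    intro h
    obtain ⟨P, a, b, hP, hdj⟩ := ih (lt_of_le_of_lt (by gcongr; omega) h)
    classical
    let X : Finset V := (Finset.range m).biUnion fun i => (P i).toFinset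
    have hX : X ⊆ W := by
      intro x hx
      rw [Finset.mem_biUnion] at hx
      obtain ⟨i, hi, hx⟩ := hx
      exact (hP i (Finset.mem_range.1 hi)).2.2.2.2.2 x (List.mem_toFinset.1 hx)
    have hXc : X.card ≤ m * (s + 1) := by
      refine (Finset.card_biUnion_le_card_mul _ _ (s + 1) fun i hi => ?_).trans (by simp)
      exact (List.toFinset_card_le _).trans (hP i (Finset.mem_range.1 hi)).2.2.1
    have h1 := eS_remove hLt hX hD
    have h2 : eS G (Lt \ X) (W \ X) ≤ eS (touch G Lt) (W \ X) (W \ X) :=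
      eS_touch Finset.sdiff_subset (Finset.sdiff_subset_sdiff hLt (Finset.Subset.refl _))
    have h3 : X.card * D ≤ (m * (s + 1)) * D := Nat.mul_le_mul_right _ hXc
    have h4 : (m * (s + 1)) * D ≤ ((m + 1) * (s + 1)) * D := by gcongr; omega
    have h5 : 2 * s * (W \ X).card ≤ 2 * s * W.card :=
      Nat.mul_le_mul_left _ (Finset.card_le_card Finset.sdiff_subset)
    have h6 : 2 * ((m + 1) * (s + 1)) * D = 2 * (((m + 1) * (s + 1)) * D) := by ring
    obtain ⟨p, a0, b0, hp, hpA, hpl⟩ := path_of_dense (G := touch G Lt) (s := s) (A := W \ X)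
      (by omega)
    obtain ⟨p', a', b', hp', ha', hb', hl1, hl2, hsub⟩ := trim hs hp hpl
    have hpX : ∀ x ∈ p', x ∈ W ∧ x ∉ X := fun x hx => Finset.mem_sdiff.1 (hpA x (hsub x hx))
    refine ⟨Function.update P m p', Function.update a m a', Function.update b m b', ?_, ?_⟩
    · intro i hi
      by_cases him : i = m
      · subst him
        simp only [Function.update_self]
        exact ⟨hp', hl1, hl2, ha', hb', fun x hx => (hpX x hx).1⟩
      · simp only [Function.update_of_ne him]
        exact hP i (by omega)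
    · have key : ∀ i < m, ∀ x ∈ P i, x ∉ p' := by
        intro i hi x hx hx'
        refine (hpX x hx').2 ?_
        rw [Finset.mem_biUnion]
        exact ⟨i, Finset.mem_range.2 hi, List.mem_toFinset.2 hx⟩
      intro i hi j hj hij x hx
      by_cases him : i = m
      · have hjm : j ≠ m := fun h => hij (him.trans h.symm)
        rw [him, Function.update_self] at hx
        rw [Function.update_of_ne hjm]
        exact fun hx' => key j (by omega) x hx' hx
      · rw [Function.update_of_ne him] at hx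
        by_cases hjm : j = m
        · rw [hjm, Function.update_self]
          exact key i (by omega) x hx
        · rw [Function.update_of_ne hjm]
          exact hdj i (by omega) j (by omega) hij x hx

end Pool.Agent.FRC.R10

namespace Pool.Agent.FRC

open Pool.Agent.Helper14.LongCyc Pool.Agent.LCK Pool.Agent.FRC.R10

universe u

/-- ROW R10 -/
theorem r10_paths {V : Type u} [DecidableEq V] {G : SimpleGraph V} {W Lt : Finset V} {r q m s : ℕ}
    (hLt : Lt ⊆ W) (hs : 1 ≤ s) (hrs : 240 * (s + 1) ≤ r) (hq : 8 * m ≤ q) (hW : W.Nonempty)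
    (hdeg : ∀ v ∈ W, q * dg G W v ≤ 2 * W.card) (hE : r * W.card ≤ 58 * eS G Lt W) :
    ∃ (P : Fin m → List V) (a b : Fin m → V),
      (∀ i, Pth G (a i) (b i) (P i) ∧ s ≤ (P i).length ∧ (P i).length ≤ s + 1 ∧ a i ∈ Lt ∧
        b i ∈ Lt ∧ ∀ x ∈ P i, x ∈ W) ∧
      ∀ i j, i ≠ j → ∀ x ∈ P i, x ∉ P j := by
  rcases Nat.eq_zero_or_pos m with hm | hm
  · subst hm
    exact ⟨fun i => i.elim0, fun i => i.elim0, fun i => i.elim0, fun i => i.elim0,
      fun i => i.elim0⟩
  · have hqpos : 0 < q := by omega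
    have hD : ∀ v ∈ W, dg G W v ≤ 2 * W.card / q := fun v hv =>
      (Nat.le_div_iff_mul_le hqpos).2 (by rw [mul_comm]; exact hdeg v hv)
    have hw : 0 < W.card := hW.card_pos
    have h1 : q * (2 * W.card / q) ≤ 2 * W.card := Nat.mul_div_le _ _
    set D := 2 * W.card / q with hDdef
    have h2 : 8 * m * D ≤ 2 * W.card := (Nat.mul_le_mul_right _ hq).trans h1
    have key : 2 * s * W.card + 2 * (m * (s + 1)) * D < eS G Lt W := by
      by_contra hcon
      push Not at hcon
      have e1 : 240 * (s + 1) * W.card ≤ 58 * (2 * s * W.card + 2 * (m * (s + 1)) * D) :=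
        (Nat.mul_le_mul_right _ hrs).trans (hE.trans (Nat.mul_le_mul_left _ hcon))
      have e2 : 4 * (m * (s + 1) * D) ≤ (s + 1) * W.card := by
        have : (s + 1) * (8 * m * D) ≤ (s + 1) * (2 * W.card) := Nat.mul_le_mul_left _ h2
        nlinarith
      have e3 : 0 < (s + 1) * W.card := Nat.mul_pos (Nat.succ_pos _) hw
      nlinarith
    obtain ⟨P, a, b, h3, h4⟩ := paths_aux hLt hs hD m key
    exact ⟨fun i => P i, fun i => a i, fun i => b i, fun i => h3 i i.2,
      fun i j hij => h4 i i.2 j j.2 fun h => hij (Fin.ext h)⟩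

/-- ROW R10 in the form needed by the row R11 (families indexed by the natural numbers) -/
theorem r10_conn {V : Type u} [DecidableEq V] {G : SimpleGraph V} {W Lt : Finset V} {r q D : ℕ}
    (hLt : Lt ⊆ W) (hr : 480 ≤ r) (hq : 8 * D ≤ q) (hW : W.Nonempty)
    (hdeg : ∀ v ∈ W, q * dg G W v ≤ 2 * W.card) (hE : r * W.card ≤ 58 * eS G Lt W) :
    ∃ (Q : ℕ → List V) (e f : ℕ → V),
      (∀ i < D, Pth G (e i) (f i) (Q i) ∧ r ≤ 480 * ((Q i).length + 1) ∧ (∀ x ∈ Q i, x ∈ W) ∧
        e i ∈ Lt ∧ f i ∈ Lt) ∧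
      ∀ i < D, ∀ j < D, i ≠ j → ∀ x ∈ Q i, x ∉ Q j := by
  obtain ⟨w, _⟩ := id hW
  obtain ⟨P, a, b, h1, h2⟩ := r10_paths (m := D) (s := r / 240 - 1) hLt (by omega) (by omega) hq
    hW hdeg hE
  refine ⟨fun i => if h : i < D then P ⟨i, h⟩ else [], fun i => if h : i < D then a ⟨i, h⟩ else w,
    fun i => if h : i < D then b ⟨i, h⟩ else w, ?_, ?_⟩
  · intro i hi
    simp only [hi, dif_pos]
    obtain ⟨g1, g2, g3, g4, g5, g6⟩ := h1 ⟨i, hi⟩
    exact ⟨g1, by omega, g6, g4, g5⟩
  · intro i hi j hj hij
    simp only [hi, hj, dif_pos]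
    exact h2 ⟨i, hi⟩ ⟨j, hj⟩ fun h => hij (by simpa using congrArg Fin.val h)

end Pool.Agent.FRC
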