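import Mathlib

set_option linter.all false

/-!
# Rotation-closure of Hamilton paths with fixed ends

`HP G T m w` : `w 0, …, w (m - 1)` is a Hamilton path of `G[T]`.  If the degrees inside `T` of
any two members of `S` add up to at least `m + 1`, then jumps between members of `S` can be
removed.
-/

namespace Pool.Agent.FRC

variable {V : Type*} {G : SimpleGraph V}

/-- `w 0, …, w (m - 1)` lists the set `T` without repetition -/
structure Lst (T : Finset V) (m : ℕ) (w : ℕ → V) : Prop where
  mem : ∀ i, i < m → w i ∈ T
  inj : ∀ i j, i < m → j < m → w i = w j → i = j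
  sur : ∀ x ∈ T, ∃ i, i < m ∧ w i = x

/-- the sequence has all its consecutive pairs adjacent -/
def Ch (G : SimpleGraph V) (m : ℕ) (w : ℕ → V) : Prop :=
  ∀ i, i + 1 < m → G.Adj (w i) (w (i + 1))

open Classical in
/-- number of neighbours inside `T` -/
noncomputable def dT (G : SimpleGraph V) (T : Finset V) (x : V) : ℕ :=
  (T.filter fun u => G.Adj x u).card

open Classical in
theorem dT_le_count {T : Finset V} {m : ℕ} {w : ℕ → V} (h : Lst T m w) (x : V) :
    dT G T x ≤ ((Finset.range m).filter fun i => G.Adj x (w i)).card := by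
  unfold dT
  have hsub : (T.filter fun u => G.Adj x u) ⊆
      ((Finset.range m).filter fun i => G.Adj x (w i)).image w := by
    intro u hu
    rw [Finset.mem_filter] at hu
    obtain ⟨i, hi, rfl⟩ := h.sur u hu.1
    exact Finset.mem_image.2 ⟨i, Finset.mem_filter.2 ⟨Finset.mem_range.2 hi, hu.2⟩, rfl⟩
  exact (Finset.card_le_card hsub).trans Finset.card_image_le

/-- reversing the segment `[a, b]` -/
def rv (a b : ℕ) (w : ℕ → V) (t : ℕ) : V := if a ≤ t ∧ t ≤ b then w (a + b - t) else w t

theorem Lst.rv {T : Finset V} {m a b : ℕ} {w : ℕ → V} (h : Lst T m w) (hb : b < m) :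
    Lst T m (rv a b w) := by
  have key : ∀ t, t < m → ∃ s, s < m ∧ FRC.rv a b w t = w s ∧
      (s = if a ≤ t ∧ t ≤ b then a + b - t else t) := by
    intro t ht
    unfold FRC.rv
    by_cases hc : a ≤ t ∧ t ≤ b
    · exact ⟨a + b - t, by omega, by rw [if_pos hc], by rw [if_pos hc]⟩
    · exact ⟨t, ht, by rw [if_neg hc], by rw [if_neg hc]⟩
  refine ⟨?_, ?_, ?_⟩
  · intro i hi
    obtain ⟨s, hs, he, _⟩ := key i hi
    rw [he]; exact h.mem s hs
  · intro i j hi hj hij
    obtain ⟨s, hs, he, hse⟩ := key i hi
    obtain ⟨s', hs', he', hse'⟩ := key j hj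
    rw [he, he'] at hij
    have := h.inj s s' hs hs' hij
    rw [hse, hse'] at this
    split_ifs at this <;> omega
  · intro x hx
    obtain ⟨i, hi, hix⟩ := h.sur x hx
    by_cases hc : a ≤ i ∧ i ≤ b
    · refine ⟨a + b - i, by omega, ?_⟩
      unfold FRC.rv
      rw [if_pos (by omega), show a + b - (a + b - i) = i by omega]
      exact hix
    · exact ⟨i, hi, by unfold FRC.rv; rw [if_neg hc]; exact hix⟩

open Classical in
/-- the bad pairs -/
noncomputable def bad (G : SimpleGraph V) (m : ℕ) (w : ℕ → V) : Finset ℕ :=
  (Finset.range m).filter fun i => i + 1 < m ∧ ¬ G.Adj (w i) (w (i + 1))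

theorem mem_bad {m : ℕ} {w : ℕ → V} {i : ℕ} :
    i ∈ bad G m w ↔ i + 1 < m ∧ ¬ G.Adj (w i) (w (i + 1)) := by
  classical
  simp only [bad, Finset.mem_filter, Finset.mem_range]
  constructor
  · exact fun h => h.2
  · exact fun h => ⟨by omega, h⟩

/-- the pairs of the reversed sequence -/
theorem rv_pair {m a b : ℕ} {w : ℕ → V} (ha : 1 ≤ a) (hab : a ≤ b) {t : ℕ}
    (h1 : t + 1 ≠ a) (h2 : t ≠ b) :
    ∃ s, s + 1 ≠ a ∧ s ≠ b ∧ (s = if a ≤ t ∧ t ≤ b then a + b - 1 - t else t) ∧
      ((rv a b w t = w s ∧ rv a b w (t + 1) = w (s + 1)) ∨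
       (rv a b w t = w (s + 1) ∧ rv a b w (t + 1) = w s)) := by
  unfold rv
  by_cases hc : a ≤ t ∧ t ≤ b
  · refine ⟨a + b - 1 - t, by omega, by omega, by rw [if_pos hc], Or.inr ⟨?_, ?_⟩⟩
    · rw [if_pos hc, show a + b - 1 - t + 1 = a + b - t by omega]
    · rw [if_pos (by omega), show a + b - (t + 1) = a + b - 1 - t by omega]
  · refine ⟨t, h1, h2, by rw [if_neg hc], Or.inl ⟨?_, ?_⟩⟩
    · rw [if_neg hc]
    · rw [if_neg (by omega)]

/-- the closure lemma -/
theorem closure {T S : Finset V} {m : ℕ} {z c : V}
    (hd : ∀ x ∈ S, ∀ y ∈ S, m + 1 ≤ dT G T x + dT G T y) :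
    ∀ (n : ℕ) (w : ℕ → V), (bad G m w).card ≤ n → Lst T m w → w 0 = z → w (m - 1) = c →
      (∀ i, i + 1 < m → G.Adj (w i) (w (i + 1)) ∨ (w i ∈ S ∧ w (i + 1) ∈ S)) →
      ∃ w', Lst T m w' ∧ Ch G m w' ∧ w' 0 = z ∧ w' (m - 1) = c := by
  classical
  intro n
  induction n with
  | zero =>
    intro w hn hw h0 hc _
    refine ⟨w, hw, ?_, h0, hc⟩
    intro i hi
    by_contra hcon
    have : i ∈ bad G m w := mem_bad.2 ⟨hi, hcon⟩
    rw [Finset.card_eq_zero.1 (Nat.le_zero.1 hn)] at this
    simp at this
  | succ n ih =>
    intro w hn hw h0 hc hv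
    by_cases hgood : Ch G m w
    · exact ⟨w, hw, hgood, h0, hc⟩
    unfold Ch at hgood
    push Not at hgood
    obtain ⟨i, hi, hbad⟩ := hgood
    obtain ⟨hx, hy⟩ : w i ∈ S ∧ w (i + 1) ∈ S := (hv i hi).resolve_left hbad
    -- find the crossing
    obtain ⟨l, hl, hli, hxl, hyl⟩ : ∃ l, l + 1 < m ∧ l ≠ i ∧ G.Adj (w i) (w l) ∧
        G.Adj (w (i + 1)) (w (l + 1)) := by
      by_contra hcon
      push Not at hcon
      set A := (Finset.range (m - 1)).filter fun l => G.Adj (w i) (w l) with hA
      set B := (Finset.range (m - 1)).filter fun l => G.Adj (w (i + 1)) (w (l + 1)) with hB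
      have h1 : dT G T (w i) ≤ A.card + 1 := by
        refine (dT_le_count hw (w i)).trans ?_
        have : ((Finset.range m).filter fun l => G.Adj (w i) (w l)) ⊆ insert (m - 1) A := by
          intro l hl
          rw [Finset.mem_filter, Finset.mem_range] at hl
          rw [Finset.mem_insert, hA, Finset.mem_filter, Finset.mem_range]
          by_cases hlm : l = m - 1
          · exact Or.inl hlm
          · exact Or.inr ⟨by omega, hl.2⟩
        exact (Finset.card_le_card this).trans (Finset.card_insert_le _ _)
      have h2 : dT G T (w (i + 1)) ≤ B.card + 1 := by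
        refine (dT_le_count hw (w (i + 1))).trans ?_
        have : ((Finset.range m).filter fun l => G.Adj (w (i + 1)) (w l)) ⊆
            insert 0 (B.image (· + 1)) := by
          intro l hl
          rw [Finset.mem_filter, Finset.mem_range] at hl
          rw [Finset.mem_insert, Finset.mem_image]
          by_cases hlm : l = 0
          · exact Or.inl hlm
          · refine Or.inr ⟨l - 1, ?_, by omega⟩
            rw [hB, Finset.mem_filter, Finset.mem_range, show l - 1 + 1 = l by omega]
            exact ⟨by omega, hl.2⟩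
        have q1 := Finset.card_le_card this
        have q2 := Finset.card_insert_le 0 (B.image (· + 1))
        have q3 : (B.image (· + 1)).card ≤ B.card := Finset.card_image_le
        omega
      have h3 : Disjoint A B := by
        rw [Finset.disjoint_left]
        intro l hlA hlB
        rw [hA, Finset.mem_filter, Finset.mem_range] at hlA
        rw [hB, Finset.mem_filter, Finset.mem_range] at hlB
        have hne : l ≠ i := by
          rintro rfl
          exact hlA.2.ne rfl
        exact hcon l (by omega) hne hlA.2 hlB.2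
      have h4 : A ∪ B ⊆ (Finset.range (m - 1)).erase i := by
        intro l hl
        rw [Finset.mem_union, hA, hB, Finset.mem_filter, Finset.mem_filter, Finset.mem_range] at hl
        rw [Finset.mem_erase, Finset.mem_range]
        rcases hl with hl | hl
        · refine ⟨?_, hl.1⟩
          rintro rfl
          exact hl.2.ne rfl
        · refine ⟨?_, hl.1⟩
          rintro rfl
          exact hl.2.ne rfl
      have h5 := Finset.card_le_card h4
      rw [Finset.card_union_of_disjoint h3, Finset.card_erase_of_mem
        (Finset.mem_range.2 (by omega)), Finset.card_range] at h5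
      have h6 := hd _ hx _ hy
      omega
    -- the segment to be reversed
    obtain ⟨a, b, ha, hab, hb, g1, g2, g3⟩ : ∃ a b, 1 ≤ a ∧ a ≤ b ∧ b + 1 < m ∧
        G.Adj (w (a - 1)) (w b) ∧ G.Adj (w a) (w (b + 1)) ∧
        (i + 1 = a ∨ i = b) := by
      rcases lt_or_gt_of_ne hli with h | h
      · exact ⟨l + 1, i, by omega, by omega, by omega, by simpa using hxl.symm, hyl.symm,
          Or.inr rfl⟩
      · exact ⟨i + 1, l, by omega, by omega, by omega, by simpa using hxl, hyl, Or.inl rfl⟩
    have e1 : rv a b w (a - 1) = w (a - 1) := by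
      unfold rv; rw [if_neg (by omega)]
    have e2 : rv a b w a = w b := by
      unfold rv; rw [if_pos (by omega), show a + b - a = b by omega]
    have e3 : rv a b w b = w a := by
      unfold rv; rw [if_pos (by omega), show a + b - b = a by omega]
    have e4 : rv a b w (b + 1) = w (b + 1) := by
      unfold rv; rw [if_neg (by omega)]
    have hA : G.Adj (rv a b w (a - 1)) (rv a b w (a - 1 + 1)) := by
      rw [show a - 1 + 1 = a by omega, e1, e2]; exact g1
    have hB : G.Adj (rv a b w b) (rv a b w (b + 1)) := by
      rw [e3, e4]; exact g2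
    refine ih (rv a b w) ?_ (hw.rv (by omega)) ?_ ?_ ?_
    · -- fewer bad pairs
      have hib : i ∈ bad G m w := mem_bad.2 ⟨hi, hbad⟩
      have hlt : (bad G m (rv a b w)).card ≤ ((bad G m w).erase i).card := by
        refine Finset.card_le_card_of_injOn
          (fun t => if a ≤ t ∧ t ≤ b then a + b - 1 - t else t) ?_ ?_
        · intro t ht
          rw [Finset.mem_coe, mem_bad] at ht
          have n1 : t + 1 ≠ a := by
            intro h
            apply ht.2
            rw [show t = a - 1 by omega]
            exact hA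
          have n2 : t ≠ b := by
            rintro rfl
            exact ht.2 hB
          obtain ⟨s, s1, s2, s3, s4⟩ := rv_pair (m := m) (w := w) ha hab n1 n2
          rw [Finset.mem_coe]
          simp only
          rw [← s3, Finset.mem_erase, mem_bad]
          refine ⟨by omega, ?_, ?_⟩
          · rw [s3]; split_ifs <;> omega
          · intro hadj
            apply ht.2
            rcases s4 with ⟨q1, q2⟩ | ⟨q1, q2⟩
            · rw [q1, q2]; exact hadj
            · rw [q1, q2]; exact hadj.symm
        · intro t ht t' ht' htt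
          rw [Finset.mem_coe, mem_bad] at ht ht'
          have n2 : t ≠ b := by
            rintro rfl
            exact ht.2 hB
          have n2' : t' ≠ b := by
            rintro rfl
            exact ht'.2 hB
          simp only at htt
          split_ifs at htt <;> omega
      rw [Finset.card_erase_of_mem hib] at hlt
      have := Finset.card_pos.2 ⟨i, hib⟩
      omega
    · unfold rv; rw [if_neg (by omega)]; exact h0
    · unfold rv; rw [if_neg (by omega)]; exact hc
    · intro t ht
      by_cases n1 : t + 1 = a
      · left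
        rw [show t = a - 1 by omega]
        exact hA
      by_cases n2 : t = b
      · subst n2
        exact Or.inl hB
      obtain ⟨s, s1, s2, s3, s4⟩ := rv_pair (m := m) (w := w) ha hab n1 n2
      have hsm : s + 1 < m := by rw [s3]; split_ifs <;> omega
      rcases s4 with ⟨q1, q2⟩ | ⟨q1, q2⟩
      · rw [q1, q2]; exact hv s hsm
      · rw [q1, q2]
        rcases hv s hsm with h | h
        · exact Or.inl h.symm
        · exact Or.inr ⟨h.2, h.1⟩

end Pool.Agent.FRC
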