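import Pool.Agent.LCK.Exch

/-!
# Row R9: many edges into a small rich set give `k` disjoint long cycles
-/

set_option linter.all false

namespace Pool.Agent.FRC

open Pool.Agent.Helper14.LongCyc Pool.Agent.LCK

universe u

variable {V : Type u} {G : SimpleGraph V}

/-- after deleting few connectors the rich pairs are still rich -/
theorem near_sdiff85 [DecidableEq V] {S Z S' Y : Finset V} {m m' b : ℕ} (h : Near G S Z m b)
    (hS : S' ⊆ S) (hm : m' + Y.card ≤ m) : Near G S' (Z \ Y) m' b := by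
  classical
  intro x hx
  refine le_trans (Finset.card_le_card ?_) (h x (hS hx))
  intro y hy
  simp only [Finset.mem_filter] at hy ⊢
  refine ⟨hS hy.1, hy.2.1, fun hr => hy.2.2 ?_⟩
  unfold Rich at hr ⊢
  have h1 : (Z.filter fun z => G.Adj x z ∧ G.Adj y z).card ≤
      ((Z \ Y).filter fun z => G.Adj x z ∧ G.Adj y z).card + Y.card := by
    have h2 : (Z.filter fun z => G.Adj x z ∧ G.Adj y z) ⊆
        ((Z \ Y).filter fun z => G.Adj x z ∧ G.Adj y z) ∪ Y := by
      intro z hz
      simp only [Finset.mem_filter, Finset.mem_union, Finset.mem_sdiff] at hz ⊢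
      tauto
    exact (Finset.card_le_card h2).trans (Finset.card_union_le _ _)
  have h3 : m ≤ (Z.filter fun z => G.Adj x z ∧ G.Adj y z).card := by convert hr using 2
  have h4 : m' ≤ ((Z \ Y).filter fun z => G.Adj x z ∧ G.Adj y z).card := by omega
  convert h4 using 2

/-- `j` disjoint cycles through `s` centres each -/
theorem asm_many85 [DecidableEq V] {b s : ℕ} (hs : 2 ≤ s) : ∀ (j : ℕ) (S Z : Finset V) (m : ℕ),
    Disjoint S Z → j * s + 2 * b ≤ S.card → Near G S Z m b → (j + 1) * s ≤ m →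
      ∃ F, Fam G (S ∪ Z) (fun L => L = 2 * s) F ∧ F.card = j := by
  intro j
  induction j with
  | zero => exact fun S Z m _ _ _ _ => ⟨∅, Fam.empty, rfl⟩
  | succ j ih =>
    intro S Z m hd hS hN hm
    have e1 : (j + 1) * s = j * s + s := by ring
    have e2 : (j + 1 + 1) * s = j * s + 2 * s := by ring
    rw [e1] at hS
    rw [e2] at hm
    obtain ⟨X, Y, hX, hY, hXY, hXc, hYc, hcyc⟩ := asm_cyc (G := G) (S := S) (Z := Z) (m := m)
      (b := b) (s := s) hs (by omega) hN (by omega)
    have hSc : (S \ X).card = S.card - s := by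
      rw [Finset.card_sdiff_of_subset hX, hXc]
    obtain ⟨F, hF, hFc⟩ := ih (S \ X) (Z \ Y) (m - s)
      (hd.mono Finset.sdiff_subset Finset.sdiff_subset) (by omega)
      (near_sdiff85 hN Finset.sdiff_subset (by omega)) (by rw [e1]; omega)
    have hF' : Fam G (S ∪ Z) (fun L => L = 2 * s) F :=
      hF.mono (Finset.union_subset_union Finset.sdiff_subset Finset.sdiff_subset) (fun _ h => h)
    have hcard : (X ∪ Y).card = 2 * s := by
      rw [Finset.card_union_of_disjoint hXY, hXc, hYc]; ring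
    obtain ⟨g1, g2⟩ := hF'.add hcyc (by
      intro v hv
      rw [mem_rest]
      refine ⟨Finset.union_subset_union hX hY hv, fun t ht hvt => ?_⟩
      have h1 := hF.sub t ht hvt
      rw [Finset.mem_union] at hv h1
      rcases hv with hv | hv <;> rcases h1 with h1 | h1
      · exact (Finset.mem_sdiff.1 h1).2 hv
      · exact (Finset.disjoint_left.1 hd) (hX hv) (Finset.mem_sdiff.1 h1).1
      · exact (Finset.disjoint_left.1 hd) (Finset.mem_sdiff.1 h1).1 (hY hv)
      · exact (Finset.mem_sdiff.1 h1).2 hv) hcard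
    exact ⟨_, g1, by rw [g2, hFc]⟩

/-- **ROW R9**, general constant: an average of `(k / 2 + 1 / e) r` neighbours of the vertices of `W`
in a small set `R` gives `k` disjoint long cycles. -/
theorem s2_gen85 (k T e : ℕ) (he : 1 ≤ e) : ∃ M r0 : ℕ,
    ∀ {V : Type u} [DecidableEq V] (G : SimpleGraph V) (U R W : Finset V) (r : ℕ),
      r0 ≤ r → R ⊆ U → W ⊆ U → Disjoint R W → R.card ≤ T * r → M * r ≤ W.card →
      (e * k + 2) * r * W.card ≤ 2 * e * eS G W R →
      ∃ F, Fam G U (fun L => r ≤ L) F ∧ F.card = k := by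
  classical
  refine ⟨2 * e * T ^ 3 * (128 * e ^ 2) * (k + 1) + 1, 2 * e * k + 3, ?_⟩
  intro V _ G U R W r hr hRU hWU hd hRc hWc hE
  have hr3 : 3 ≤ r := by omega
  obtain ⟨s, hs⟩ : ∃ s, s = (r + 1) / 2 := ⟨_, rfl⟩
  obtain ⟨m, hm⟩ : ∃ m, m = (k + 1) * s := ⟨_, rfl⟩
  obtain ⟨Q, hQ⟩ : ∃ Q, Q = 128 * e ^ 2 := ⟨_, rfl⟩
  have hQ1 : 1 ≤ Q := by
    rw [hQ]
    have : 0 < e ^ 2 := by positivity
    omega
  -- a good connector
  have hgood : ∃ h ∈ W, (e * k + 1) * r ≤ 2 * e * (Exch.nb G R h).card ∧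
      Q * Exch.pr G W m (Exch.nb G R h) ≤ r ^ 2 := by
    by_contra hcon
    push Not at hcon
    have h1 : ∀ h ∈ W, 2 * e * r * dg G R h ≤
        (e * k + 1) * r ^ 2 + 2 * e * T * Q * Exch.pr G W m (Exch.nb G R h) := by
      intro h hh
      by_cases h2 : (e * k + 1) * r ≤ 2 * e * (Exch.nb G R h).card
      · have h3 := (hcon h hh h2).le
        have h4 : dg G R h ≤ T * r := (dg_le R h).trans hRc
        calc 2 * e * r * dg G R h ≤ 2 * e * r * (T * r) := Nat.mul_le_mul_left _ h4
          _ = 2 * e * T * r ^ 2 := by ring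
          _ ≤ 2 * e * T * (Q * Exch.pr G W m (Exch.nb G R h)) := Nat.mul_le_mul_left _ h3
          _ = 2 * e * T * Q * Exch.pr G W m (Exch.nb G R h) := by ring
          _ ≤ _ := Nat.le_add_left _ _
      · rw [Exch.card_nb] at h2
        push Not at h2
        calc 2 * e * r * dg G R h = r * (2 * e * dg G R h) := by ring
          _ ≤ r * ((e * k + 1) * r) := Nat.mul_le_mul_left _ h2.le
          _ = (e * k + 1) * r ^ 2 := by ring
          _ ≤ _ := Nat.le_add_right _ _
    have h2 : 2 * e * r * eS G W R ≤ W.card * ((e * k + 1) * r ^ 2) +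
        2 * e * T * Q * (R.card * R.card * m) := by
      calc 2 * e * r * eS G W R = ∑ h ∈ W, 2 * e * r * dg G R h := by
            unfold eS
            rw [Finset.mul_sum]
        _ ≤ ∑ h ∈ W, ((e * k + 1) * r ^ 2 + 2 * e * T * Q * Exch.pr G W m (Exch.nb G R h)) :=
            Finset.sum_le_sum h1
        _ = W.card * ((e * k + 1) * r ^ 2) +
            2 * e * T * Q * ∑ h ∈ W, Exch.pr G W m (Exch.nb G R h) := by
            rw [Finset.sum_add_distrib, Finset.sum_const, smul_eq_mul, Finset.mul_sum]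
        _ ≤ _ := Nat.add_le_add_left (Nat.mul_le_mul_left _ (Exch.sum_pr_le R W m)) _
    have h3 : r * ((e * k + 2) * r * W.card) ≤ r * (2 * e * eS G W R) := Nat.mul_le_mul_left _ hE
    have h4 : r * ((e * k + 2) * r * W.card) =
        W.card * ((e * k + 1) * r ^ 2) + r ^ 2 * W.card := by ring
    have h5 : r * (2 * e * eS G W R) = 2 * e * r * eS G W R := by ring
    have h6 : r ^ 2 * W.card ≤ 2 * e * T * Q * (R.card * R.card * m) := by
      rw [h4, h5] at h3
      omega
    have h7 : R.card * R.card * m ≤ (T * r) * (T * r) * ((k + 1) * r) := by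
      refine Nat.mul_le_mul (Nat.mul_le_mul hRc hRc) ?_
      rw [hm]
      exact Nat.mul_le_mul_left _ (by omega)
    have h8 : r ^ 2 * W.card ≤ r ^ 2 * (2 * e * T ^ 3 * Q * (k + 1) * r) := by
      calc r ^ 2 * W.card ≤ 2 * e * T * Q * (R.card * R.card * m) := h6
        _ ≤ 2 * e * T * Q * ((T * r) * (T * r) * ((k + 1) * r)) := Nat.mul_le_mul_left _ h7
        _ = _ := by ring
    have h9 : W.card ≤ 2 * e * T ^ 3 * Q * (k + 1) * r :=
      Nat.le_of_mul_le_mul_left h8 (by positivity)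
    rw [← hQ] at hWc
    have h10 : (2 * e * T ^ 3 * Q * (k + 1) + 1) * r = 2 * e * T ^ 3 * Q * (k + 1) * r + r := by
      ring
    rw [h10] at hWc
    omega
  obtain ⟨h, hhW, hh1, hh2⟩ := hgood
  obtain ⟨b, hb⟩ : ∃ b, b = r / (16 * e) := ⟨_, rfl⟩
  obtain ⟨S, hS1, hS2, hS3⟩ := Exch.exists_near (G := G) W (Exch.nb G R h) m b
  have hSle := Finset.card_le_card hS1
  obtain ⟨L, hL⟩ : ∃ L, L = (Exch.nb G R h).card - S.card := ⟨_, rfl⟩
  rw [← hL] at hS3
  -- the loss is small
  have hb1 : r < 16 * e * (b + 1) := by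
    rw [hb]
    have := Nat.lt_mul_div_succ r (show 0 < 16 * e by omega)
    simpa using this
  have hb2 : 16 * e * b ≤ r := by
    rw [hb]
    exact Nat.mul_div_le r (16 * e)
  have hL1 : 8 * e * L ≤ r := by
    have h1 : Q * (r * L) ≤ 16 * e * r ^ 2 := by
      calc Q * (r * L) ≤ Q * (16 * e * (b + 1) * L) :=
            Nat.mul_le_mul_left _ (Nat.mul_le_mul_right _ hb1.le)
        _ = 16 * e * (Q * ((b + 1) * L)) := by ring
        _ ≤ 16 * e * (Q * Exch.pr G W m (Exch.nb G R h)) :=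
            Nat.mul_le_mul_left _ (Nat.mul_le_mul_left _ hS3)
        _ ≤ 16 * e * r ^ 2 := Nat.mul_le_mul_left _ hh2
    have h2 : (16 * e * r) * (8 * e * L) ≤ (16 * e * r) * r := by
      calc (16 * e * r) * (8 * e * L) = Q * (r * L) := by rw [hQ]; ring
        _ ≤ 16 * e * r ^ 2 := h1
        _ = _ := by ring
    exact Nat.le_of_mul_le_mul_left h2 (by positivity)
  have hcard : k * s + 2 * b ≤ S.card := by
    have h1 : (Exch.nb G R h).card = S.card + L := by omega
    have h2 : 2 * s ≤ r + 1 := by omega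
    have h3 : 2 * e * (k * s + 2 * b) ≤ 2 * e * S.card := by
      have h4 : 2 * e * (Exch.nb G R h).card = 2 * e * S.card + 2 * e * L := by rw [h1]; ring
      have h5 : e * k * (2 * s) ≤ e * k * (r + 1) := Nat.mul_le_mul_left _ h2
      have h6 : 2 * e * (k * s + 2 * b) = e * k * (2 * s) + 4 * (e * b) := by ring
      have h7 : e * k * (r + 1) = e * k * r + e * k := by ring
      have h8 : (e * k + 1) * r = e * k * r + r := by ring
      have h9 : 16 * e * b = 16 * (e * b) := by ring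
      have h10 : 8 * e * L = 8 * (e * L) := by ring
      have h11 : 2 * e * L = 2 * (e * L) := by ring
      have h12 : 2 * e * k = 2 * (e * k) := by ring
      rw [h9] at hb2
      rw [h10] at hL1
      rw [h12] at hr
      rw [h4, h8, h11] at hh1
      rw [h6]
      rw [h7] at h5
      omega
    exact Nat.le_of_mul_le_mul_left h3 (by omega)
  have hSR : S ⊆ R := hS1.trans (Finset.filter_subset _ _)
  obtain ⟨F, hF, hFc⟩ := asm_many85 (G := G) (b := b) (s := s) (by omega) k S W m
    (hd.mono_left hSR) hcard hS2 hm.symm.le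
  refine ⟨F, hF.mono (Finset.union_subset (hSR.trans hRU) hWU) (fun n hn => ?_), hFc⟩
  show r ≤ n
  omega

/-- **ROW R9 (S2)** with the constants of row R8. -/
theorem s2_85 (k T : ℕ) : ∃ M r0 : ℕ,
    ∀ {V : Type u} [DecidableEq V] (G : SimpleGraph V) (U R W : Finset V) (r : ℕ),
      r0 ≤ r → R ⊆ U → W ⊆ U → Disjoint R W → R.card ≤ T * r → M * r ≤ W.card →
      (12 * k + 1) * r * W.card ≤ 24 * eS G W R →
      ∃ F, Fam G U (fun L => r ≤ L) F ∧ F.card = k := by
  obtain ⟨M, r0, h⟩ := s2_gen85.{u} k T 24 (by norm_num)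
  refine ⟨M, r0, ?_⟩
  intro V _ G U R W r hr hRU hWU hd hRc hWc hE
  refine h G U R W r hr hRU hWU hd hRc hWc ?_
  have e1 : (24 * k + 2) * r * W.card = 2 * ((12 * k + 1) * r * W.card) := by ring
  have e2 : 2 * 24 * eS G W R = 2 * (24 * eS G W R) := by ring
  rw [e1, e2]
  exact Nat.mul_le_mul_left _ hE

/-- **ROW R9** in the form of the sparse stubs. -/
theorem s2 (k K : ℕ) (hk : 1 ≤ k) : ∃ M r₀ : ℕ, ∀ {V : Type u} [DecidableEq V]
    (G : SimpleGraph V) (R W : Finset V) (r : ℕ), r₀ ≤ r → Disjoint R W → R.card ≤ K * r →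
      M * r ≤ W.card → (12 * k + 1) * r * W.card ≤ 24 * eS G W R →
      ∃ F, Fam G (R ∪ W) (fun L => r ≤ L) F ∧ F.card = k := by
  obtain ⟨M, r0, h⟩ := s2_85.{u} k K
  exact ⟨M, r0, fun G R W r hr hd hRc hWc hE => h G (R ∪ W) R W r hr Finset.subset_union_left
    Finset.subset_union_right hd hRc hWc hE⟩

/-- `k` disjoint cycles from a near-rich set of centres (row R9b). -/
theorem near_cycles85 {V : Type u} [DecidableEq V] {G : SimpleGraph V} {S Z : Finset V}
    {m b k a : ℕ} (hN : Near G S Z m b) (hS : k * a + 2 * b ≤ S.card) (hm : (k + 1) * a ≤ m)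
    (ha : 2 ≤ a) (hd : Disjoint S Z) :
    ∃ F, Fam G (S ∪ Z) (fun L => L = 2 * a) F ∧ F.card = k :=
  asm_many85 ha k S Z m hd hS hN hm

end Pool.Agent.FRC
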