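import Pool.Agent.FRC.Final
import Pool.Agent.FRC.EG
import Pool.Agent.FRC.Levels
import Pool.Agent.FRC.S2
import Pool.Agent.FRC.Connect

set_option linter.all false

namespace Pool.Agent.FRC

open Pool.Agent.LCK Pool.Agent.Helper14.LongCyc

universe u

/-- either there are `k` cycles, or a maximal family with fewer, of minimal total length -/
theorem max_family {V : Type u} [DecidableEq V] (G : SimpleGraph V) (U : Finset V) (k r : ℕ) :
    (∃ F, Fam G U (fun L => r ≤ L) F ∧ F.card = k) ∨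
      ∃ F, Fam G U (fun L => r ≤ L) F ∧ F.card < k ∧
        (∀ F', Fam G U (fun L => r ≤ L) F' → F'.card = F.card → tot F ≤ tot F') ∧
        ∀ F', Fam G U (fun L => r ≤ L) F' → F'.card = F.card + 1 → False := by
  induction k with
  | zero => exact Or.inl ⟨∅, Fam.empty, rfl⟩
  | succ k ih =>
    rcases ih with ⟨F, hF, hFk⟩ | ⟨F, hF, hFk, h1, h2⟩
    · by_cases hc : ∃ F, Fam G U (fun L => r ≤ L) F ∧ F.card = k + 1
      · exact Or.inl hc
      · right
        obtain ⟨F1, ⟨hF1, hF1k⟩, h3, _⟩ := exists_lex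
          (fun F => Fam G U (fun L => r ≤ L) F ∧ F.card = k) tot (fun _ => 0) 0
          (fun _ _ => le_rfl) ⟨F, hF, hFk⟩
        refine ⟨F1, hF1, by omega, fun F' h h' => h3 F' ⟨h, by omega⟩, fun F' h h' => hc ⟨F', h, by omega⟩⟩
    · exact Or.inr ⟨F, hF, by omega, h1, h2⟩

/-- ROW R12 -/
theorem sparse (k : ℕ) (hk : 2 ≤ k) : Sparse.{u} k := by
  classical
  have hconn : ∀ t : ℕ, ∃ τ : ℝ, 0 < τ ∧ ∃ r₀ : ℕ, ∀ r : ℕ, r₀ ≤ r →
      ∀ (V : Type u) [DecidableEq V] (G : SimpleGraph V) (W R L : Finset V),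
        W.Nonempty → Disjoint W R → L ⊆ W → (R.card : ℝ) ≤ ((2 * k + t : ℕ) : ℝ) * r →
        (∀ v ∈ L, (1 / 58 : ℝ) * r ≤ (dg G R v : ℝ)) →
        (∀ v ∈ W, (dg G W v : ℝ) ≤ τ * W.card) →
        (1 / 58 : ℝ) * r * W.card ≤ (eS G L W : ℝ) →
        ∃ F, Fam G (W ∪ R) (fun n => r ≤ n) F ∧ F.card = k :=
    fun t => connect.{u} k (1 / 58) ((2 * k + t : ℕ) : ℝ) (by norm_num) (by
      have : 0 < 2 * k + t := by omega
      exact_mod_cast this)
  choose τ hτ rc hD using hconn
  have hq : ∀ t, ∃ q : ℕ, 2 / τ t ≤ (q : ℝ) := fun t => exists_nat_ge _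
  choose q hq using hq
  obtain ⟨T, M1, r1, hL⟩ := levels.{u} k hk (fun t => max t (q t)) (fun t => le_max_left _ _)
  obtain ⟨M2, r2, h2⟩ := s2.{u} k (2 * k + T) (by omega)
  obtain ⟨r3, h3⟩ := exists_bound (fun t n => rc t ≤ n) (fun t => ⟨rc t, le_rfl⟩)
    (fun t n n' h h' => h'.trans h) (T + 1)
  set M : ℕ := max M1 (2 * M2) with hM
  have hM1 : M1 ≤ M := le_max_left _ _
  have hM2 : 2 * M2 ≤ M := le_max_right _ _
  clear_value M
  refine ⟨13 * M + 13 + 240 * k, max (max r1 r2) (max r3 (max 1000 (24 * k))), ?_⟩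
  intro V _ G U r hr hU hdeg
  have hr1 : r1 ≤ r := (le_max_left _ _).trans ((le_max_left _ _).trans hr)
  have hr2 : r2 ≤ r := (le_max_right _ _).trans ((le_max_left _ _).trans hr)
  have hr3 : r3 ≤ r := (le_max_left _ _).trans ((le_max_right _ _).trans hr)
  have hr4 : 1000 ≤ r := (le_max_left _ _).trans ((le_max_right _ _).trans
    ((le_max_right _ _).trans hr))
  have hr5 : 24 * k ≤ r := (le_max_right _ _).trans ((le_max_right _ _).trans
    ((le_max_right _ _).trans hr))
  rcases max_family G U k r with h | ⟨F, hF, hFk, hmin, hno⟩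
  · exact h
  obtain ⟨_, q2⟩ := regB_count (by omega : 4 ≤ r) hFk.le hF rfl hmin hno
  have hcard := hF.card_rest
  have hnl : NoLong G r (rest U F) := by
    intro l hl hlm
    by_contra hcon
    push Not at hcon
    have hc := List.toFinset_card_of_nodup (Cyc.nodup hl)
    obtain ⟨h1, h2⟩ := hF.add (Cyc.cycSet hl) (by
      intro x hx
      exact hlm x (List.mem_toFinset.1 hx)) (by show r ≤ _; rw [hc]; exact hcon)
    exact hno _ h1 h2
  -- the lower bound for the degree sum
  have hlow : 2 * k * r * tot F ≤ 3 * ∑ s ∈ F, eS G s U := by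
    unfold tot
    rw [Finset.mul_sum, Finset.mul_sum]
    refine Finset.sum_le_sum fun s hs => ?_
    unfold eS
    rw [Finset.mul_sum]
    have := Finset.card_nsmul_le_sum s (fun v => 3 * dg G U v) (2 * k * r)
      (fun v hv => hdeg v (hF.sub s hs hv))
    rw [smul_eq_mul] at this
    rw [mul_comm]
    exact this
  have htot : tot F ≤ 12 * (rest U F).card + 240 * k * r := by
    have a1 : 2 * k * r * tot F ≤ 3 * (k * (r * (rest U F).card) + r * tot F + 2 * k * tot F +
        20 * k ^ 2 * r ^ 2) := hlow.trans (Nat.mul_le_mul_left 3 q2)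
    have a2 : k * r * tot F ≤ 4 * (2 * k * r * tot F) - 4 * (3 * (r * tot F)) -
        4 * (3 * (2 * k * tot F)) := by
      have b1 : k * r + 12 * r + 24 * k ≤ 8 * k * r := by nlinarith
      have b2 := Nat.mul_le_mul_right (tot F) b1
      have b3 : 4 * (2 * k * r * tot F) = 8 * k * r * tot F := by ring
      have b4 : (k * r + 12 * r + 24 * k) * tot F = k * r * tot F + 4 * (3 * (r * tot F)) +
        4 * (3 * (2 * k * tot F)) := by ring
      omega
    have a3 : k * r * tot F ≤ 4 * (3 * (k * (r * (rest U F).card))) +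
        4 * (3 * (20 * k ^ 2 * r ^ 2)) := by omega
    have a4 : 4 * (3 * (k * (r * (rest U F).card))) + 4 * (3 * (20 * k ^ 2 * r ^ 2)) =
        k * r * (12 * (rest U F).card + 240 * k * r) := by ring
    rw [a4] at a3
    exact Nat.le_of_mul_le_mul_left a3 (by positivity)
  have hH : M * r + r ≤ (rest U F).card := by
    have a1 : (13 * M + 13 + 240 * k) * r = 13 * (M * r + r) + 240 * k * r := by ring
    omega
  have hM1r : M1 * r ≤ (rest U F).card := (Nat.mul_le_mul_right r hM1).trans (by omega)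
  obtain ⟨t, R, W, ht1, htT, hRU, hWH, hRW, hRc, hWc, hWd, hcase⟩ := hL G U F r hr1 hdeg hF hFk
    hmin (fun S hS => eg (by omega) (hnl.mono hS)) hM1r
  have hWU : W ⊆ U := hWH.trans (rest_subset U F)
  have hRWU : R ∪ W ⊆ U := Finset.union_subset hRU hWU
  rcases hcase with hc | ⟨Lt, hLt, hLd, hLe⟩
  · have hM2r : M2 * r ≤ W.card := by
      have := Nat.mul_le_mul_right r hM2
      have e : 2 * M2 * r = 2 * (M2 * r) := by ring
      omega
    obtain ⟨F', hF', hF'k⟩ := h2 G R W r hr2 hRW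
      (hRc.trans (Nat.mul_le_mul_right r (by omega))) hM2r hc
    exact ⟨F', hF'.mono hRWU (fun _ h => h), hF'k⟩
  · have hWne : W.Nonempty := by
      rw [← Finset.card_pos]
      have : 1 ≤ r := by omega
      omega
    have hτ' : ∀ v ∈ W, (dg G W v : ℝ) ≤ τ t * W.card := by
      intro v hv
      have c1 : q t * dg G W v ≤ 2 * W.card :=
        (Nat.mul_le_mul_right _ (le_max_right _ _)).trans (hWd v hv)
      have c2 : (q t : ℝ) * (dg G W v : ℝ) ≤ 2 * (W.card : ℝ) := by exact_mod_cast c1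
      have c3 := hq t
      rw [div_le_iff₀ (hτ t)] at c3
      have c4 : (0 : ℝ) ≤ (dg G W v : ℝ) := Nat.cast_nonneg _
      have c5 := mul_le_mul_of_nonneg_right c3 c4
      have c6 := mul_le_mul_of_nonneg_right c2 (hτ t).le
      nlinarith
    obtain ⟨F', hF', hF'k⟩ := hD t r ((h3 t (by omega)).trans hr3) V G W R Lt hWne hRW.symm hLt
      (by exact_mod_cast hRc) (by
        intro v hv
        have := hLd v hv
        have c1 : (r : ℝ) ≤ 9 * (dg G R v : ℝ) := by exact_mod_cast this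
        have c2 : (0 : ℝ) ≤ (dg G R v : ℝ) := Nat.cast_nonneg _
        linarith) hτ' (by
        have c1 : (r : ℝ) * (W.card : ℝ) ≤ 58 * (eS G Lt W : ℝ) := by exact_mod_cast hLe
        linarith)
    exact ⟨F', hF'.mono (by rw [Finset.union_comm]; exact hRWU) (fun _ h => h), hF'k⟩

end Pool.Agent.FRC
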